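import Pool.Agent.MP_0e6a9f_ag.H19.Nf
import Pool.Agent.MP_0e6a9f_ag.H55.Kun1
import Pool.Agent.MP_0e6a9f_ag.H95.Zig
import Pool.Agent.MP_0e6a9f_ag.H59.Hh4
import Pool.Agent.MP_0e6a9f_ag.H8.Der

/-! Assembly of the algebra. -/

open MulOpposite

noncomputable section
namespace FMD
open _root_.FMD.DGR hiding op
open _root_.FMD.Bimod

lemma glue_honest {A₁ A₂ : DGR} {N : Bimod A₁ A₂} (h₁ : A₁.self.Honest) (h₂ : A₂.self.Honest)
    (h : N.Honest) : (glue N).self.Honest := by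
  obtain ⟨p, a1, a2, a3⟩ := h₁.exists_proj
  obtain ⟨q, b1, b2, b3⟩ := h₂.exists_proj
  obtain ⟨r, c1, c2, c3⟩ := h.exists_proj
  refine honest_of_proj (fun n => (p n).prodMap ((q n).prodMap (r n)))
    (fun n v => ⟨a1 _ _, b1 _ _, c1 _ _⟩) (fun m n v hv => ?_) fun v => ?_
  · change (p m v.1, q m v.2.1, r m v.2.2) = _
    rw [a2 _ _ _ hv.1, b2 _ _ _ hv.2.1, c2 _ _ _ hv.2.2]
    split_ifs <;> rfl
  · obtain ⟨S, hS⟩ := a3 ((glue.p₁ N).f v)
    obtain ⟨T, hT⟩ := b3 ((glue.p₂ N).f v)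
    obtain ⟨U, hU⟩ := c3 (glue.pN N v)
    refine ⟨S ∪ T ∪ U, glue.ext ?_ ?_ ?_⟩
    · rw [map_sum]; exact hS _ (by intro x hx; simp [hx])
    · rw [map_sum]; exact hT _ (by intro x hx; simp [hx])
    · rw [map_sum]; exact hU _ (by intro x hx; simp [hx])

lemma Bimod.Honest.span {C : DGR} (h : C.self.Honest) : C.Span :=
  h.ind (zero_mem _) (fun n _ hv => AddSubgroup.mem_iSup_of_mem n hv) fun _ _ => add_mem

variable {K : Type} [Field K] {A : DGR} [Algebra K A.B] [A.KL K]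

lemma glue_fr_honest (hA : Deg0 A) (n : Tw (env K A A)) : (glue (Fr n)).self.Honest :=
  glue_honest (K1.self_honest hA) (K1.self_honest hA) (K1.fr_honest hA n)

variable (q : Tw (env K A A))

lemma theta_apply (b : (glue (Fr (n₀ q))).B) : theta q b = glue.iN _
    (ia q 0 (zero_mem _) (map_zero _) (pw q 0 (zero_mem _) (map_zero _) (glue.pN _ b))) := rfl

lemma theta_isDer : IsDer (glue (Fr (n₀ q))).self (-3 - 1) (theta q) where
  mem {n b} hb := glue.iN_mem (nT_gr.2 ⟨(Fr q).mem_cast (nT_gr.1 hb.2.2).2.2 (by ring),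
    zero_mem _, zero_mem _⟩)
  mul a b := by
    change _ = theta q a * b + a * theta q b
    simp only [theta_apply, glue.pN_mul, map_add, pw_isLin.l, pw_isLin.r, ia_isLin.l, ia_isLin.r,
      glue.mul_iN, glue.iN_mul]
    exact add_comm _ _
  e a := by rw [theta_apply, glue.pN_e]; simp

lemma d_theta (b : (glue (Fr (n₀ q))).B) :
    (glue (Fr (n₀ q))).d (theta q b) = theta q ((glue (Fr (n₀ q))).d b) := by
  rw [theta_apply, theta_apply, glue.d_iN, glue.pN_d, pw_d]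
  exact congrArg _ (nT_ext (by simp [pa_d]) (by simp [pb_d]) (by simp [pw_d]))

lemma theta_smul (c : K) (b : (glue (Fr (n₀ q))).B) : theta q (c • b) = c • theta q b := by
  rw [theta_apply, theta_apply, glue.pN_smul, pw_isLin.smul, ia_isLin.smul]
  exact glue.ext (by simp) (by simp) (by simp)

/-- The two term complex attached to a closed element of degree 4 of the bimodule. -/
def wit {N : Bimod A A} {o : A.O} {v : N.H} (hv : v ∈ N.cor o o 4) (dv : N.d v = 0) :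
    Tw (glue N) :=
  Tw.ext (Tw.one (Sum.inl o)) ((Tw.one (Sum.inr o)).shift 3) (fun _ _ => glue.iN N v)
    (fun _ _ => cor_cast (glue.iN_mem_cor hv) (by simp)) (by
      rw [self_twD]
      ext i j
      simp [glue.d_iN, dv])

lemma wit_not_bd (hA : Deg0 A) (R : Res K A) {N : Bimod A A} {g : N.H →+ (Fr (n₀ R.q)).H}
    (h : IsHom N _ g) {o : A.O} (ho : A.e o ≠ 0) {v : N.H} (hv : v ∈ N.cor o o 4) (dv : N.d v = 0)
    {u : (Fr R.q).H} (hu : R.aug u = A.e o) (e : g v = iw R.q 0 _ _ u) :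
    ¬ ((glue (Fr (n₀ R.q))).self.tw ((glue.mapF h).tw (wit hv dv))
      ((glue.mapF h).tw (wit hv dv))).Bd (-3)
      (((glue.mapF h).tw (wit hv dv)).δ.map (theta R.q)) := by
  rintro ⟨k, hk, ek⟩
  have e1 := congrArg (fun m => glue.pN _ (m (Sum.inr ()) (Sum.inl ())))
    ((self_twD _ _ k).symm.trans ek)
  have k1 : (glue.p₁ _).f (k (Sum.inl ()) (Sum.inl ())) = 0 :=
    hA.zero (hk (Sum.inl ()) (Sum.inl ())).1.1 (by simp)
  have k2 : (glue.p₂ _).f (k (Sum.inr ()) (Sum.inr ())) = 0 :=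
    hA.zero (hk (Sum.inr ()) (Sum.inr ())).1.2.1 (by simp)
  have e2 : (Fr (n₀ R.q)).d (glue.pN _ (k (Sum.inr ()) (Sum.inl ()))) =
      ia R.q 0 (zero_mem _) (map_zero _) u := by
    change glue.pN _ ((glue _).d (k (Sum.inr ()) (Sum.inl ())) +
      ∑ j : Unit ⊕ Unit, (glue.map h).f (Matrix.fromBlocks 0 0 (fun _ _ => glue.iN N v) 0
        (Sum.inr ()) j) * k j (Sum.inl ()) +
      ∑ j : Unit ⊕ Unit, k (Sum.inr ()) j * (glue.map h).f
        (Matrix.fromBlocks 0 0 (fun _ _ => glue.iN N v) 0 j (Sum.inl ()))) =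
      glue.pN _ (theta R.q ((glue.map h).f (glue.iN N v))) at e1
    simpa [glue.map_apply, k1, k2, theta_apply, e] using e1
  have e3 := congrArg (fun z => R.aug (pa R.q 0 (zero_mem _) (map_zero _) z)) e2
  simp only [pa_d, pa_ia, hu, ← R.aug_isHom.comm] at e3
  exact ho (e3.symm.trans (hA.d _))

theorem alg (s3 : S3Stmt) : AlgStmt := by
  rintro K _ _ A _ _ hA ⟨o, ho⟩ B
  have hη : (fun i => lift B.R.q (Fr B.R.q) B.κ' (B.κ i)) ∈ bhGr B.R.q (Fr B.R.q) 4 :=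
    (lift_isLin B.κ').bhGr (k := 2) (n := 2) (fun _ _ => lift_mem B.κ'_mem) B.κ_mem
  have dη : bhD B.R.q (Fr B.R.q) (fun i => lift B.R.q (Fr B.R.q) B.κ' (B.κ i)) = 0 :=
    ((lift_isLin B.κ').bhD (d_lift B.κ') B.κ).trans (funext fun i => by simp [B.κ_d, B.κ'_d])
  obtain ⟨N, g, g', h, h', qg, qg', ss, j, hj, ej⟩ :=
    zig K A B.R.q B.D B.D' B.κ B.κ' B.κ'_mem B.κ'_d B.S B.T hη dη
  obtain ⟨u, hu, du, w, -, eu⟩ := B.R.qis.surj 0 (A.e o) (A.e_mem o) (A.d_e o)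
  have eu' : B.R.aug u = A.e o := A.self.cx.eq_of_add (eu.symm.trans (hA.d w))
  have hu' : B.R.aug ((Fr B.R.q).pr o o u) = A.e o := by
    rw [B.R.aug_isHom.pr, eu']; exact (A.e_mem_cor o).2
  have ne : Nonempty B.R.q.I := by
    by_contra hn
    rw [not_nonempty_iff] at hn
    exact ho (eu'.symm.trans (Finset.sum_of_isEmpty _))
  have card : 2 ≤ Fintype.card ((B.R.q.I ⊕ B.R.q.I) ⊕ B.R.q.I) := by
    have := Fintype.card_pos (α := B.R.q.I)
    simp only [Fintype.card_sum]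
    omega
  have hv : j ((Fr B.R.q).pr o o u) ∈ N.cor o o 4 := hj.mem_cor ((Fr B.R.q).pr_mem_cor o o hu)
  have dv : N.d (j ((Fr B.R.q).pr o o u)) = 0 := (hj.comm _).trans (by
    rw [(Fr B.R.q).d_pr, show (Fr B.R.q).d u = 0 from du, map_zero, map_zero])
  refine ⟨_, _, N, g, g', h, h', card, card, qg, qg', ss, wit hv dv, ?_⟩
  intro V _ _ _ hV X₀ φ₀ h₀ d₀ qR qL Z φ hφ dφ inj
  obtain ⟨P₀, -⟩ := s3 K A hA B.R (n₀ B.R.q)
  obtain ⟨P₁, hP⟩ := s3 K A hA B.R (nT B.R.q _ hη dη)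
  obtain ⟨ξ, hξ, dξ, key⟩ := der K _ P₀ (-3) _ (theta_isDer B.R.q) (d_theta _) (theta_smul _)
  obtain ⟨X, eX⟩ : ∃ X, X = (glue.mapF h).tw (wit hv dv) := ⟨_, rfl⟩
  have nb := wit_not_bd hA B.R h ho hv dv hu' (ej _)
  revert φ
  rw [← eX] at nb ⊢
  intro φ hφ dφ inj
  obtain ⟨p, hp, dp, bp⟩ := (P₀.aug_isHom.tw_qis P₀.qis X X).surj 0 X.idm X.idm_mem X.twD_idm
  have b1 := nf K _ _ P₀ P₁ (-3) (glue_fr_honest hA _)
    (hP (-3) (fun i => by have := B.neg i; omega) (hh4 K A hA B.R B.neg B.h0 B.h3 _ hη dη B.nb))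
    ξ hξ dξ V hV X₀ φ₀ h₀ d₀ qR qL X Z φ hφ dφ p hp dp
  have hw : p.map (lift P₀.q _ ξ) ∈ (glue (Fr (n₀ B.R.q))).self.twGr X X (0 + -3) :=
    (lift_isLin ξ).map_mem (fun _ _ => lift_mem hξ) hp
  have dw : (glue (Fr (n₀ B.R.q))).self.twD X X (p.map (lift P₀.q _ ξ)) = 0 := by
    rw [(lift_isLin ξ).twD (g := 0) (fun v => by rw [d_lift, dξ, lift_zero]; rfl),
      show (Fr P₀.q).twD X X p = 0 from dp]
    ext; simp
  have b2 := (inj _ hw dw b1).add (key X p hp dp bp)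
  exact nb ((congrArg (Cx.Bd _ (-3))
    (Cx.add_add_cancel ((glue (Fr (n₀ B.R.q))).self.tw X X) _ _)).mp b2)

end FMD
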