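import Pool.Agent.MP_0e6a9f_ag.H19.Et

/-! External tensor products of twisted complexes and of semifree bimodules. -/

open MulOpposite

noncomputable section
namespace FMD
open _root_.FMD.DGR _root_.FMD.Bimod

variable (K : Type) [Field K]

section Tens
variable {E E' : DGR} [Algebra K E.B] [E.KL K] [Algebra K E'.B] [E'.KL K]

/-- The Kronecker product of matrices. -/
def kron {I J I' J' : Type} (f : Matrix I J E.B) (g : Matrix I' J' E'.B) :
    Matrix (I × I') (J × J') (tens K E E').B := fun i j => tm K E E' (f i.1 j.1) (g i.2 j.2)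

variable {K}

lemma kron_mul {I J L I' J' L' : Type} [Fintype J] [Fintype J'] (f : Matrix I J E.B)
    (f' : Matrix J L E.B) (g : Matrix I' J' E'.B) (g' : Matrix J' L' E'.B) :
    kron K f g * kron K f' g' = kron K (f * f') (g * g') := by
  ext i j
  simp only [kron, Matrix.mul_apply, tm_mul, Fintype.sum_prod_type, sum_tm, tm_sum]
  exact Finset.sum_comm

lemma kron_d {I J I' J' : Type} (f : Matrix I J E.B) (g : Matrix I' J' E'.B) :
    (kron K f g).map (tens K E E').d = kron K (f.map E.d) g + kron K f (g.map E'.d) := rfl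

lemma idm_map_d (x : Tw E) : x.idm.map E.d = 0 := by
  ext i j
  by_cases h : i = j <;> simp [Tw.idm, h, E.d_e]

variable (K) in
/-- The external tensor product of twisted complexes. -/
@[reducible] def Tw.tens (x : Tw E) (y : Tw E') : Tw (tens K E E') where
  I := x.I × y.I
  ob i := (x.ob i.1, y.ob i.2)
  deg i := x.deg i.1 + y.deg i.2
  ht i := x.ht i.1 + y.ht i.2
  δ := kron K x.δ y.idm + kron K x.idm y.δ
  δ_mem i j := add_mem (tm_mem_cor (x.δ_mem i.1 j.1) (y.idm_mem i.2 j.2) (by ring))
    (tm_mem_cor (x.idm_mem i.1 j.1) (y.δ_mem i.2 j.2) (by ring))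
  δ_ht i j h := by
    have h1 : tm K E E' (x.δ i.1 j.1) (y.idm i.2 j.2) = 0 := by
      by_cases e : i.2 = j.2
      · rw [x.δ_ht _ _ fun h' => h (by rw [e]; omega), zero_tm]
      · rw [Tw.idm, Matrix.diagonal_apply_ne _ e, tm_zero]
    have h2 : tm K E E' (x.idm i.1 j.1) (y.δ i.2 j.2) = 0 := by
      by_cases e : i.1 = j.1
      · rw [y.δ_ht _ _ fun h' => h (by rw [e]; omega), tm_zero]
      · rw [Tw.idm, Matrix.diagonal_apply_ne _ e, zero_tm]
    exact (congrArg₂ (· + ·) h1 h2).trans (add_zero _)
  mc := by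
    have z : ∀ f : Matrix x.I x.I E.B, kron K f (0 : Matrix y.I y.I E'.B) = 0 := fun f => by
      ext i j; exact tm_zero _
    have z' : ∀ g : Matrix y.I y.I E'.B, kron K (0 : Matrix x.I x.I E.B) g = 0 := fun f => by
      ext i j; exact zero_tm _
    rw [Matrix.map_add _ (map_add _), kron_d, kron_d, idm_map_d, idm_map_d, z, z', x.mc, y.mc,
      Matrix.add_mul, Matrix.mul_add, Matrix.mul_add, kron_mul, kron_mul, kron_mul, kron_mul,
      Tw.idm_mul x.idm_mem, Tw.idm_mul y.idm_mem, Tw.idm_mul x.δ_twGr, Tw.mul_idm x.δ_twGr,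
      Tw.idm_mul y.δ_twGr, Tw.mul_idm y.δ_twGr, add_zero, zero_add, add_assoc,
      ← add_assoc (kron K x.δ y.δ), (DGR.tens K E E').self.mat_two, zero_add]

end Tens

variable (A A' : DGR) [Algebra K A.B] [A.KL K] [Algebra K A'.B] [A'.KL K]

section Em
variable (C C' : DGR) [Algebra K C.B] [C.KL K] [Algebra K C'.B] [C'.KL K]

/-- The element `a ⊗ b` of the enveloping ring: it acts by `m ↦ a m b`. -/
def em (a : C'.B) (b : C.B) : (env K C C').B := tm K C' C.op a (op b)

variable {K C C'}

lemma em_def (a : C'.B) (b : C.B) : em K C C' a b = tm K C' C.op a (op b) := rfl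

lemma tm_eq_em (a : C'.B) (b : C.Bᵐᵒᵖ) : tm K C' C.op a b = em K C C' a b.unop := rfl

@[simp] lemma zero_em (b : C.B) : em K C C' 0 b = 0 := zero_tm _

@[simp] lemma em_zero (a : C'.B) : em K C C' a 0 = 0 := tm_zero (C' := C.op) a

lemma add_em (a a' : C'.B) (b : C.B) : em K C C' (a + a') b = em K C C' a b + em K C C' a' b :=
  add_tm _ _ _

lemma em_add (a : C'.B) (b b' : C.B) : em K C C' a (b + b') = em K C C' a b + em K C C' a b' :=
  tm_add (C' := C.op) a (op b) (op b')

lemma smul_em (c : K) (a : C'.B) (b : C.B) : em K C C' (c • a) b = c • em K C C' a b := rfl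

lemma em_smul (c : K) (a : C'.B) (b : C.B) : em K C C' a (c • b) = c • em K C C' a b :=
  tm_smul (C' := C.op) c a (op b)

lemma sum_em {ι : Type*} (s : Finset ι) (a : ι → C'.B) (b : C.B) :
    em K C C' (∑ i ∈ s, a i) b = ∑ i ∈ s, em K C C' (a i) b := sum_tm s a _

lemma em_sum {ι : Type*} (s : Finset ι) (a : C'.B) (b : ι → C.B) :
    em K C C' a (∑ i ∈ s, b i) = ∑ i ∈ s, em K C C' a (b i) := by
  rw [em_def, Finset.op_sum]; exact tm_sum (C' := C.op) s a _

lemma em_mul (a a' : C'.B) (b b' : C.B) :
    em K C C' a b * em K C C' a' b' = em K C C' (a * a') (b' * b) := tm_mul (C' := C.op) _ _ _ _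

lemma em_one : em K C C' 1 1 = 1 := rfl

lemma d_em (a : C'.B) (b : C.B) :
    (env K C C').d (em K C C' a b) = em K C C' (C'.d a) b + em K C C' a (C.d b) := rfl

lemma env_e (t : C'.O) (s : C.O) : (env K C C').e (t, s) = em K C C' (C'.e t) (C.e s) := rfl

lemma env_e' (o : (env K C C').O) : (env K C C').e o = em K C C' (C'.e o.1) (C.e o.2) := rfl

lemma em_mem {i j n : ℤ} {a : C'.B} {b : C.B} (ha : a ∈ C'.gr i) (hb : b ∈ C.gr j)
    (h : i + j = n) : em K C C' a b ∈ (env K C C').gr n := tm_mem (C' := C.op) ha hb h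

lemma env_gr_le {U : Type} [AddCommGroup U] (f : (env K C C').B →+ U) (S : AddSubgroup U)
    {n : ℤ} (h : ∀ i j a b, a ∈ C'.gr i → b ∈ C.gr j → i + j = n → f (em K C C' a b) ∈ S)
    {z : (env K C C').B} (hz : z ∈ (env K C C').gr n) : f z ∈ S :=
  tens_gr_le f S (fun i j a b => h i j a b.unop) hz

@[elab_as_elim] lemma env_ind {P : (env K C C').B → Prop} (z : (env K C C').B) (zero : P 0)
    (em : ∀ a b, P (em K C C' a b)) (add : ∀ x y, P x → P y → P (x + y)) : P z :=
  tens_ind z zero (fun a b => em a b.unop) add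

/-- Linear maps out of the enveloping ring. -/
def elift {U : Type} [AddCommGroup U] [Module K U] (f : C'.B →ₗ[K] C.B →ₗ[K] U) :
    (env K C C').B →ₗ[K] U :=
  tlift (C' := C.op) (f.compl₂ (opLinearEquiv K (M := C.B)).symm.toLinearMap)

@[simp] lemma elift_em {U : Type} [AddCommGroup U] [Module K U] (f : C'.B →ₗ[K] C.B →ₗ[K] U)
    (a : C'.B) (b : C.B) : elift f (em K C C' a b) = f a b := rfl

lemma act_em (M : Bimod C C') [Module K M.H] [IsScalarTower K C'.B M.H]
    [IsScalarTower K C.Bᵐᵒᵖ M.H] (a : C'.B) (b : C.B) (m : M.H) :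
    M.act K (em K C C' a b) m = a • op b • m := rfl

lemma act_self_em (a b m : C.B) : C.self.act K (em K C C a b) m = a * (m * b) := rfl

lemma envMap_em (f : C.B →ₐ[K] C'.B) (a b : C.B) :
    envMap f (em K C C a b) = em K C' C' (f a) (f b) := rfl

end Em

/-- The shuffle map. -/
def shuf : (tens K (env K A A) (env K A' A')).B →ₐ[K] (env K (tens K A A') (tens K A A')).B :=
  tliftA (envMap (inL K A A')) (envMap (inR K A A')) fun x y => by
    induction x using tens_ind with
    | zero => simp
    | add a b ha hb => rw [map_add]; exact ha.add_left hb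
    | tmul a b =>
      induction y using tens_ind with
      | zero => simp
      | add a b ha hb => rw [map_add]; exact ha.add_right hb
      | tmul a' b' =>
        simp only [Commute, SemiconjBy, envMap_tm, tm_mul, ← op_mul, inL_apply, inR_apply, mul_one,
          one_mul]

variable {K A A'}

lemma shuf_tm (x : (env K A A).B) (y : (env K A' A').B) :
    shuf K A A' (tm K _ _ x y) = envMap (inL K A A') x * envMap (inR K A A') y := rfl

lemma shuf_tm_tm (a : A.B) (b : A.Bᵐᵒᵖ) (a' : A'.B) (b' : A'.Bᵐᵒᵖ) :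
    shuf K A A' (tm K _ _ (tm K A A.op a b) (tm K A' A'.op a' b')) =
      tm K (tens K A A') (tens K A A').op (tm K A A' a a') (op (tm K A A' b.unop b'.unop)) := by
  simp only [shuf_tm, envMap_tm, tm_mul, ← op_mul, inL_apply, inR_apply, mul_one, one_mul]

lemma shuf_em (a b : A.B) (a' b' : A'.B) : shuf K A A' (tm K _ _ (em K A A a b) (em K A' A' a' b')) =
    em K (tens K A A') (tens K A A') (tm K A A' a a') (tm K A A' b b') := shuf_tm_tm _ _ _ _

variable (K A A') in
/-- The shuffle map as a DG functor. -/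
def shufF : DFun (tens K (env K A A) (env K A' A')) (env K (tens K A A') (tens K A A')) where
  f := (shuf K A A').toRingHom.toNonUnitalRingHom
  ob o := ((o.1.1, o.2.1), (o.1.2, o.2.2))
  map_e _ := shuf_tm_tm _ _ _ _
  mem {n z} hz := tens_gr_le (shuf K A A').toRingHom.toAddMonoidHom _ (fun i j x y hx hy e =>
    tens_gr_le (((shuf K A A').toLinearMap ∘ₗ (tmL K _ _).flip y).toAddMonoidHom) _
      (fun i' j' a b ha hb e' =>
        tens_gr_le (((shuf K A A').toLinearMap ∘ₗ tmL K _ _ (tm K A A.op a b)).toAddMonoidHom) _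
          (fun i'' j'' a' b' ha' hb' e'' => by
            change shuf K A A' (tm K _ _ (tm K A A.op a b) (tm K A' A'.op a' b')) ∈ _
            rw [shuf_tm_tm]
            exact tm_mem (tm_mem ha ha' rfl) (C' := (tens K A A').op) (j := j' + j'')
              (tm_mem (C := A) (C' := A') hb hb' rfl) (by omega)) hy) hx) hz
  comm z := by
    change (env K _ _).d (shuf K A A' z) = shuf K A A' ((tens K _ _).d z)
    induction z using tens_ind with
    | zero => simp
    | add a b ha hb => simp only [map_add, ha, hb]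
    | tmul x y =>
      induction x using tens_ind with
      | zero => simp
      | add a b ha hb => simp only [add_tm, map_add, ha, hb]
      | tmul a b =>
        induction y using tens_ind with
        | zero => simp
        | add a b ha hb => simp only [tm_add, map_add, ha, hb]
        | tmul a' b' =>
          have e : (tens K A A').op.d (op (tm K A A' b.unop b'.unop)) =
              op (tm K A A' (A.op.d b).unop b'.unop) + op (tm K A A' b.unop (A'.op.d b').unop) := rfl
          rw [shuf_tm_tm, d_tm, e, d_tm, d_tm, d_tm, d_tm, tm_add (C' := (tens K A A').op)]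
          simp only [add_tm, tm_add, map_add, shuf_tm_tm]
          abel

lemma shufF_apply (z) : (shufF K A A').f z = shuf K A A' z := rfl

/-- The external product of semifree bimodules. -/
abbrev boxT (q : Tw (env K A A)) (q' : Tw (env K A' A')) :
    Tw (env K (tens K A A') (tens K A A')) := (shufF K A A').tw (q.tens K q')

variable {q : Tw (env K A A)} {q' : Tw (env K A' A')}

/-- The external product of elements. -/
def box (u : (Fr q).H) (v : (Fr q').H) : (Fr (boxT q q')).H :=
  Fr.mk _ fun i => shuf K A A' (tm K _ _ (Fr.val q u i.1) (Fr.val q' v i.2))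

lemma val_box (u : (Fr q).H) (v : (Fr q').H) (i : q.I × q'.I) : Fr.val _ (box u v) i =
    shuf K A A' (tm K _ _ (Fr.val q u i.1) (Fr.val q' v i.2)) := by
  rw [box, Fr.val_mk]
  change _ * (env K _ _).e ((shufF K A A').ob (q.ob i.1, q'.ob i.2)) = _
  rw [← (shufF K A A').map_e, shufF_apply, ← map_mul, tens_e, tm_mul, Fr.val_e, Fr.val_e]

/-- The external product of cochains with values in the diagonal bimodules. -/
def boxA (a : q.I → A.B) (a' : q'.I → A'.B) : (boxT q q').I → (tens K A A').B :=
  fun i => tm K A A' (a i.1) (a' i.2)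

/-- `κ ⊗ 1 + 1 ⊗ κ'`. -/
def boxK (κ : q.I → (Fr q).H) (κ' : q'.I → (Fr q').H) : (boxT q q').I → (Fr (boxT q q')).H :=
  fun i => box (κ i.1) (Fr.gen q' i.2) + box (Fr.gen q i.1) (κ' i.2)

end FMD
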