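import Pool.Agent.MP_0e6a9f_ag.H19.Box

/-! The canonical algebra with arms of length two. -/

set_option linter.unusedSectionVars false

open MulOpposite

noncomputable section
namespace FMD
open _root_.FMD.DGR _root_.FMD.Bimod

variable {K : Type} [Field K] {ι τ : Type} [Fintype ι] [DecidableEq ι] [Fintype τ] [DecidableEq τ]

/-- Coordinates: idempotents at `0`, `x i`, `w`; arrows `E i : 0 → x i`, `F i : x i → w`,
`T j : 0 → w`, with `F i * E i = ∑ j, l i j • T j`. -/
@[ext, nolint unusedArguments]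
structure CB (l : ι → τ → K) where
  z : K
  x : ι → K
  w : K
  E : ι → K
  F : ι → K
  T : τ → K

namespace CB
variable {l : ι → τ → K}

/-- The underlying vector space. -/
def equiv : CB l ≃ K × (ι → K) × K × (ι → K) × (ι → K) × (τ → K) where
  toFun a := (a.z, a.x, a.w, a.E, a.F, a.T)
  invFun a := ⟨a.1, a.2.1, a.2.2.1, a.2.2.2.1, a.2.2.2.2.1, a.2.2.2.2.2⟩

instance : AddCommGroup (CB l) := equiv.addCommGroup
instance : Module K (CB l) := equiv.module K
instance : One (CB l) := ⟨⟨1, 1, 1, 0, 0, 0⟩⟩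
instance : Mul (CB l) := ⟨fun a b => ⟨a.z * b.z, a.x * b.x, a.w * b.w, a.x * b.E + b.z • a.E,
  a.w • b.F + a.F * b.x, a.w • b.T + b.z • a.T + ∑ i, (a.F i * b.E i) • l i⟩⟩

section
variable (a b : CB l) (c : K)
@[simp] lemma add_z : (a + b).z = a.z + b.z := rfl
@[simp] lemma add_x : (a + b).x = a.x + b.x := rfl
@[simp] lemma add_w : (a + b).w = a.w + b.w := rfl
@[simp] lemma add_E : (a + b).E = a.E + b.E := rfl
@[simp] lemma add_F : (a + b).F = a.F + b.F := rfl
@[simp] lemma add_T : (a + b).T = a.T + b.T := rfl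
@[simp] lemma zero_z : (0 : CB l).z = 0 := rfl
@[simp] lemma zero_x : (0 : CB l).x = 0 := rfl
@[simp] lemma zero_w : (0 : CB l).w = 0 := rfl
@[simp] lemma zero_E : (0 : CB l).E = 0 := rfl
@[simp] lemma zero_F : (0 : CB l).F = 0 := rfl
@[simp] lemma zero_T : (0 : CB l).T = 0 := rfl
@[simp] lemma smul_z : (c • a).z = c * a.z := rfl
@[simp] lemma smul_x : (c • a).x = c • a.x := rfl
@[simp] lemma smul_w : (c • a).w = c * a.w := rfl
@[simp] lemma smul_E : (c • a).E = c • a.E := rfl
@[simp] lemma smul_F : (c • a).F = c • a.F := rfl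
@[simp] lemma smul_T : (c • a).T = c • a.T := rfl
@[simp] lemma one_z : (1 : CB l).z = 1 := rfl
@[simp] lemma one_x : (1 : CB l).x = 1 := rfl
@[simp] lemma one_w : (1 : CB l).w = 1 := rfl
@[simp] lemma one_E : (1 : CB l).E = 0 := rfl
@[simp] lemma one_F : (1 : CB l).F = 0 := rfl
@[simp] lemma one_T : (1 : CB l).T = 0 := rfl
@[simp] lemma mul_z : (a * b).z = a.z * b.z := rfl
@[simp] lemma mul_x : (a * b).x = a.x * b.x := rfl
@[simp] lemma mul_w : (a * b).w = a.w * b.w := rfl
@[simp] lemma mul_E : (a * b).E = a.x * b.E + b.z • a.E := rfl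
@[simp] lemma mul_F : (a * b).F = a.w • b.F + a.F * b.x := rfl
@[simp] lemma mul_T : (a * b).T = a.w • b.T + b.z • a.T + ∑ i, (a.F i * b.E i) • l i := rfl
end

instance : Ring (CB l) where
  __ := (inferInstance : AddCommGroup (CB l))
  mul_assoc a b c := by
    ext <;> simp [mul_add, add_mul, Finset.mul_sum, Finset.sum_add_distrib, mul_assoc, mul_comm,
      mul_left_comm, add_assoc, add_left_comm]
    abel
  one_mul a := by ext <;> simp
  mul_one a := by ext <;> simp
  left_distrib a b c := by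
    ext <;> simp [mul_add, add_mul, Finset.sum_add_distrib] <;> ring
  right_distrib a b c := by
    ext <;> simp [add_mul, Finset.sum_add_distrib] <;> ring
  zero_mul a := by ext <;> simp
  mul_zero a := by ext <;> simp

instance : Algebra K (CB l) := Algebra.ofModule
  (fun c a b => by ext <;> simp [mul_add, Finset.mul_sum, mul_assoc, mul_left_comm])
  fun c a b => by ext <;> simp [mul_add, Finset.mul_sum, mul_assoc, mul_left_comm]

variable (l)

/-- The idempotent at `0`. -/
def ez : CB l := ⟨1, 0, 0, 0, 0, 0⟩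
/-- The idempotent at `x i`. -/
def ex (i : ι) : CB l := ⟨0, Pi.single i 1, 0, 0, 0, 0⟩
/-- The idempotent at `w`. -/
def ew : CB l := ⟨0, 0, 1, 0, 0, 0⟩
/-- The arrow `0 → x i`. -/
def aE (i : ι) : CB l := ⟨0, 0, 0, Pi.single i 1, 0, 0⟩
/-- The arrow `x i → w`. -/
def aF (i : ι) : CB l := ⟨0, 0, 0, 0, Pi.single i 1, 0⟩
/-- The arrows `0 → w`. -/
def aT (t : τ → K) : CB l := ⟨0, 0, 0, 0, 0, t⟩

end CB

/-- The objects `0`, `x i`, `w`. -/
inductive COb (ι : Type) | z | x (i : ι) | w
  deriving DecidableEq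

instance : Fintype (COb ι) :=
  ⟨{COb.z, COb.w} ∪ Finset.univ.image COb.x, by rintro (_ | i | _) <;> simp⟩

lemma COb.sum_eq {M : Type} [AddCommMonoid M] (f : COb ι → M) :
    ∑ o, f o = f .z + f .w + ∑ i, f (.x i) := by
  change ∑ o ∈ {COb.z, COb.w} ∪ Finset.univ.image COb.x, f o = _
  rw [Finset.sum_union (by simp), Finset.sum_pair (by simp), 
    Finset.sum_image fun _ _ _ _ h => COb.x.inj h]

variable [CharP K 2] (l : ι → τ → K)

/-- The canonical algebra, in degree 0. -/
@[reducible] def Can : DGR where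
  B := CB l
  O := COb ι
  e o := match o with
    | .z => CB.ez l
    | .x i => CB.ex l i
    | .w => CB.ew l
  gr n := if n = 0 then ⊤ else ⊥
  d := 0
  two b := by rw [← two_smul K b, CharTwo.two_eq_zero, zero_smul]
  e_mul := by
    rintro (_ | i | _) (_ | j | _) <;> try (ext <;> simp [CB.ez, CB.ex, CB.ew]; done)
    by_cases h : i = j
    · subst h; ext <;> simp [CB.ex, Pi.single_apply]
    · rw [if_neg (by simpa using h)]
      ext k <;> simp [CB.ex, Pi.single_apply]
      rintro rfl; exact Ne.symm h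
  e_sum := by
    have h : ∀ (s : Finset ι), ∑ i ∈ s, CB.ex l i = ⟨0, ∑ i ∈ s, Pi.single i 1, 0, 0, 0, 0⟩ := by
      intro s
      induction s using Finset.induction_on with
      | empty => rfl
      | insert a s ha ih => rw [Finset.sum_insert ha, Finset.sum_insert ha, ih]; ext <;> simp [CB.ex]
    rw [COb.sum_eq, h]
    ext <;> simp [CB.ez, CB.ew, Pi.single_apply]
  e_mem _ := by simp
  d_e _ := rfl
  mul_mem {m n a b} ha hb := by
    by_cases hm : m = 0
    · by_cases hn : n = 0
      · simp [hm, hn]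
      · rw [if_neg hn, AddSubgroup.mem_bot] at hb; rw [hb, mul_zero]; exact zero_mem _
    · rw [if_neg hm, AddSubgroup.mem_bot] at ha; rw [ha, zero_mul]; exact zero_mem _
  d_mem _ := zero_mem _
  d_d _ := rfl
  d_mul _ _ := by simp

lemma can_deg0 : Deg0 (Can l) :=
  ⟨fun _ => by simp, fun {n b} (h : b ∈ (if n = 0 then ⊤ else ⊥ : AddSubgroup (CB l))) hn => by
    rwa [if_neg hn, AddSubgroup.mem_bot] at h⟩

instance : (Can l).KL K := ⟨fun _ => (can_deg0 l).mem _, fun _ => rfl⟩

/-- The four lines `t₀`, `t₁`, `t₀ + t₁`, `t₀ + p t₁`. -/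
def lp (p : K) : Fin 4 → Fin 2 → K := ![![1, 0], ![0, 1], ![1, 1], ![1, p]]

/-- The canonical algebra of type `(2, 2, 2, 2; p)`. -/
abbrev Cp (p : K) : DGR := Can (lp p)

end FMD
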