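import Pool.Agent.MP_0e6a9f_ag.H19.Spec

/-! Right modules of columns, the total complex, trilinear pairings on twisted complexes. -/

open MulOpposite

noncomputable section
namespace FMD
open _root_.FMD.DGR hiding op
open _root_.FMD.Bimod

lemma Cx.Qis.of_inj {C C' C'' : Cx} {g : C'.V →+ C''.V} {f : C.V →+ C'.V} (hf : Cx.IsMap C C' f)
    (hg : Cx.IsMap C' C'' g) (hi : ∀ n, Cx.InjAt C' C'' g n) (h : Cx.Qis C C'' (g.comp f)) :
    Cx.Qis C C' f where
  toIsMap := hf
  surj n w hw h0 := by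
    obtain ⟨y, hy, hy', hb⟩ := h.surj n (g w) (hg.mem hw) (hg.cyc hw h0)
    refine ⟨y, hy, hy', hi n _ (add_mem (hf.mem hy) hw) ?_ (by simpa using hb)⟩
    rw [map_add, hf.cyc hy hy', h0, add_zero]
  inj n z hz h0 hb := h.inj n z hz h0 (hg.bd hb)

variable {C C' : DGR}

/-- The matrix of the corners of an element. -/
def totM (H : Bimod C C') : H.H →+ Matrix C'.O C.O H.H :=
  AddMonoidHom.mk' (fun v => Matrix.of fun b a => H.pr a b v) fun _ _ => by ext; simp

lemma pr_pr' (H : Bimod C C') (a a' : C.O) (b b' : C'.O) (v : H.H) :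
    H.pr a b (H.pr a' b' v) = if a = a' ∧ b = b' then H.pr a b v else 0 := by
  rw [pr_apply, pr_apply, ← smul_comm (C'.e b'), smul_smul, smul_smul (op _), ← op_mul, C.e_mul,
    C'.e_mul]
  by_cases h : a = a' <;> by_cases h' : b = b' <;> simp [h, h', pr_apply, eq_comm]

lemma totM_apply (H : Bimod C C') (v : H.H) (b : C'.O) (a : C.O) : totM H v b a = H.pr a b v := rfl

lemma twD_tot (H : Bimod C C') (x : Tw C') (w : Matrix x.I C.O H.H) :
    H.twD (Tw.tot C) x w = w.map H.d + H.lmul x.δ w :=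
  (twD_apply H (Tw.tot C) x w).trans (by rw [show H.rmul w (Tw.tot C).δ = 0 from H.rmul_zero w,
    add_zero])

lemma twD_tot' (H : Bimod C C') (x : Tw C) (w : Matrix C'.O x.I H.H) :
    H.twD x (Tw.tot C') w = w.map H.d + H.rmul w x.δ :=
  (twD_apply H x (Tw.tot C') w).trans (by rw [show H.lmul (Tw.tot C').δ w = 0 from H.zero_lmul w,
    add_zero])

lemma totM_qis (H : Bimod C C') : Cx.Qis H.cx (H.tw (Tw.tot C) (Tw.tot C')) (totM H) :=
  Cx.Qis.of_bij ⟨fun hv b a => cor_cast (H.pr_mem_cor a b hv) (by simp), fun {_ v} _ =>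
      (twD_tot H (Tw.tot C') _).trans (by
        rw [show H.lmul (Tw.tot C').δ _ = 0 from H.zero_lmul _, add_zero]
        ext b a; exact H.d_pr a b v)⟩
    (fun _ v _ h => by
      rw [← H.sum_pr v]
      exact Finset.sum_eq_zero fun a _ => Finset.sum_eq_zero fun b _ => congrFun (congrFun h b) a)
    fun n (w : Matrix C'.O C.O H.H) hw => ⟨∑ a, ∑ b, w b a,
      sum_mem fun a _ => sum_mem fun b _ => H.mem_cast (hw b a).1 (by simp), by
      ext b a
      have : ∀ a' b', H.pr a b (w b' a') = if a = a' ∧ b = b' then w b a else 0 := fun a' b' => by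
        have e : H.pr a' b' (w b' a') = w b' a' := (hw b' a').2
        rw [← e, pr_pr']
        split_ifs with h
        · obtain ⟨rfl, rfl⟩ := h; exact e
        · rfl
      rw [totM_apply]
      simp [this, ite_and]⟩

section Tri
variable {D : DGR} (R : Bimod D D) (V : Bimod C D) (P : Bimod C C)

/-- A balanced trilinear map. -/
structure Tri (μ : R.H →+ V.H →+ P.H →+ V.H) : Prop where
  l : ∀ (b : D.B) F v p, μ (b • F) v p = b • μ F v p
  m : ∀ (b : D.B) F v p, μ (op b • F) v p = μ F (b • v) p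
  m' : ∀ (c : C.B) F v p, μ F (op c • v) p = μ F v (c • p)
  r : ∀ (c : C.B) F v p, μ F v (op c • p) = op c • μ F v p
  d : ∀ F v p, V.d (μ F v p) = μ (R.d F) v p + μ F (V.d v) p + μ F v (P.d p)
  mem : ∀ {i j k F v p}, F ∈ R.gr i → v ∈ V.gr j → p ∈ P.gr k → μ F v p ∈ V.gr (i + j + k)

variable {R V P} (μ : R.H →+ V.H →+ P.H →+ V.H) {I J L M I' J' : Type}

/-- The pairing of matrices. -/
def pair [Fintype J] [Fintype L] (F : Matrix I J R.H) (φ : Matrix J L V.H) (p : Matrix L M P.H) :
    Matrix I M V.H := fun i k => ∑ j, ∑ l, μ (F i j) (φ j l) (p l k)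

variable [Fintype J] [Fintype L]

lemma pair_add₁ (F F' : Matrix I J R.H) (φ : Matrix J L V.H) (p : Matrix L M P.H) :
    pair μ (F + F') φ p = pair μ F φ p + pair μ F' φ p := by
  ext; simp [pair, Finset.sum_add_distrib]

lemma pair_add₂ (F : Matrix I J R.H) (φ φ' : Matrix J L V.H) (p : Matrix L M P.H) :
    pair μ F (φ + φ') p = pair μ F φ p + pair μ F φ' p := by
  ext; simp [pair, Finset.sum_add_distrib]

lemma pair_add₃ (F : Matrix I J R.H) (φ : Matrix J L V.H) (p p' : Matrix L M P.H) :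
    pair μ F φ (p + p') = pair μ F φ p + pair μ F φ p' := by
  ext; simp [pair, Finset.sum_add_distrib]

variable {μ} (h : Tri R V P μ)
include h

lemma Tri.lmul [Fintype I] (g : Matrix I' I D.B) (F : Matrix I J R.H) (φ : Matrix J L V.H)
    (p : Matrix L M P.H) : V.lmul g (pair μ F φ p) = pair μ (R.lmul g F) φ p := by
  ext i k
  simp only [pair, Bimod.lmul, Finset.smul_sum, map_sum, AddMonoidHom.finsetSum_apply, h.l]
  rw [Finset.sum_comm]
  exact Finset.sum_congr rfl fun _ _ => Finset.sum_comm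

lemma Tri.mid [Fintype J'] (F : Matrix I J' R.H) (g : Matrix J' J D.B) (φ : Matrix J L V.H)
    (p : Matrix L M P.H) : pair μ (R.rmul F g) φ p = pair μ F (V.lmul g φ) p := by
  ext i k
  simp only [pair, Bimod.lmul, Bimod.rmul, map_sum, AddMonoidHom.finsetSum_apply, h.m]
  rw [Finset.sum_congr rfl fun _ _ => Finset.sum_comm, Finset.sum_comm]
  exact Finset.sum_congr rfl fun _ _ => Finset.sum_comm

lemma Tri.mid' [Fintype J'] (F : Matrix I J R.H) (φ : Matrix J J' V.H) (f : Matrix J' L C.B)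
    (p : Matrix L M P.H) : pair μ F (V.rmul φ f) p = pair μ F φ (P.lmul f p) := by
  ext i k
  simp only [pair, Bimod.lmul, Bimod.rmul, map_sum, AddMonoidHom.finsetSum_apply, h.m']
  exact Finset.sum_congr rfl fun _ _ => Finset.sum_comm

lemma Tri.rmul [Fintype M] (F : Matrix I J R.H) (φ : Matrix J L V.H) (p : Matrix L M P.H)
    (f : Matrix M I' C.B) : V.rmul (pair μ F φ p) f = pair μ F φ (P.rmul p f) := by
  ext i k
  simp only [pair, Bimod.rmul, Finset.smul_sum, map_sum, h.r]
  rw [Finset.sum_comm]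
  exact Finset.sum_congr rfl fun _ _ => Finset.sum_comm

omit [Fintype J] [Fintype L] in
lemma Tri.twD {X X' : Tw C} {Z Z' : Tw D} (F : Matrix Z'.I Z.I R.H) (φ : Matrix Z.I X.I V.H)
    (p : Matrix X.I X'.I P.H) : V.twD X' Z' (pair μ F φ p) = pair μ (R.twD Z Z' F) φ p +
      pair μ F (V.twD X Z φ) p + pair μ F φ (P.twD X' X p) := by
  have e : (pair μ F φ p).map V.d =
      pair μ (F.map R.d) φ p + pair μ F (φ.map V.d) p + pair μ F φ (p.map P.d) := by
    ext; simp [pair, h.d, Finset.sum_add_distrib]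
  simp only [twD_apply, pair_add₁, pair_add₂, pair_add₃, e, h.lmul, h.rmul, h.mid, h.mid']
  have e1 := V.mat_two (pair μ F (V.lmul Z.δ φ) p)
  have e2 := V.mat_two (pair μ F φ (P.lmul X.δ p))
  linear_combination (norm := abel) -e1 - e2

omit [Fintype J] [Fintype L] in
lemma Tri.twGr {X X' : Tw C} {Z Z' : Tw D} {F : Matrix Z'.I Z.I R.H} {φ : Matrix Z.I X.I V.H}
    {p : Matrix X.I X'.I P.H} {i j k : ℤ} (hF : F ∈ R.twGr Z Z' i) (hφ : φ ∈ V.twGr X Z j)
    (hp : p ∈ P.twGr X' X k) : pair μ F φ p ∈ V.twGr X' Z' (i + j + k) := fun a b =>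
  sum_mem fun c _ => sum_mem fun d _ => V.mem_cor
    (V.mem_cast (h.mem (hF a c).1 (hφ c d).1 (hp d b).1) (by ring))
    (by rw [← h.l, cor_l (hF a c)]) (by rw [← h.r, cor_r (hp d b)])

end Tri

variable (K : Type) [Field K] [CharP K 2]

/-- The ground field as a category with one object. -/
@[reducible] def pt : DGR where
  B := K
  O := Unit
  e _ := 1
  gr n := if n = 0 then ⊤ else ⊥
  d := 0
  two := CharTwo.add_self_eq_zero
  e_mul _ _ := by simp
  e_sum := by simp
  e_mem _ := by simp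
  d_e _ := rfl
  mul_mem {m n a b} ha hb := by
    by_cases hm : m = 0
    · by_cases hn : n = 0
      · simp [hm, hn]
      · rw [if_neg hn, AddSubgroup.mem_bot] at hb; rw [hb, mul_zero]; exact zero_mem _
    · rw [if_neg hm, AddSubgroup.mem_bot] at ha; rw [ha, zero_mul]; exact zero_mem _
  d_mem _ := zero_mem _
  d_d _ := rfl
  d_mul _ _ := by simp

lemma pt_deg0 : Deg0 (pt K) :=
  ⟨fun _ => by simp, fun {n b} (h : b ∈ (if n = 0 then ⊤ else ⊥ : AddSubgroup K)) hn => by
    rwa [if_neg hn, AddSubgroup.mem_bot] at h⟩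

instance : (pt K).KL K := ⟨fun _ => (pt_deg0 K).mem _, fun _ => rfl⟩

variable [Algebra K C.B] [Algebra K C'.B] [C'.KL K]
  (H : Bimod C C') [Module K H.H] [IsScalarTower K C'.B H.H] [IsScalarTower K C.Bᵐᵒᵖ H.H]

/-- Columns whose `i`-th entry is fixed by the idempotent of `ob i`. -/
def colS (x : Tw C') : Submodule C.Bᵐᵒᵖ (x.I → H.H) where
  carrier := {v | ∀ i, C'.e (x.ob i) • v i = v i}
  add_mem' ha hb i := by rw [Pi.add_apply, smul_add, ha i, hb i]
  zero_mem' _ := smul_zero _
  smul_mem' c v hv i := by rw [Pi.smul_apply, smul_comm, hv i]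

/-- The differential on columns. -/
def colD (x : Tw C') : colS H x →+ colS H x :=
  AddMonoidHom.mk' (fun v => ⟨fun i => H.d (v.1 i) + ∑ k, x.δ i k • v.1 k, fun i => by
    have h := H.d_l (C'.e (x.ob i)) (v.1 i)
    rw [v.2 i, C'.d_e, zero_smul, zero_add] at h
    rw [smul_add, ← h, Finset.smul_sum]
    simp only [smul_smul, (C'.mem_self_cor.1 (x.δ_mem i _)).2.1]⟩) fun a b => by
      ext j; simp [Finset.sum_add_distrib]; abel

lemma colD_val (x : Tw C') (v : colS H x) (i : x.I) :
    (colD H x v).1 i = H.d (v.1 i) + ∑ k, x.δ i k • v.1 k := rfl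

/-- The right module `H(-, x)`. -/
def Col (x : Tw C') : Bimod C (pt K) where
  H := colS H x
  gr n :=
    { carrier := {v | ∀ i, v.1 i ∈ H.gr (n + x.deg i)}
      add_mem' := fun ha hb i => add_mem (ha i) (hb i)
      zero_mem' := fun _ => zero_mem _
      neg_mem' := fun ha i => neg_mem (ha i) }
  d := colD H x
  d_mem hv i := add_mem (H.mem_cast (H.d_mem (hv i)) (by ring))
    (sum_mem fun k _ => H.mem_cast (H.l_mem (x.δ_mem i k).1 (hv k)) (by ring))
  d_d v := by
    ext i
    have h : ∀ k, C'.d (x.δ i k) = ∑ l, x.δ i l * x.δ l k := fun k => congrFun (congrFun x.mc i) k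
    have e : ∑ k, ∑ l, (x.δ i l * x.δ l k) • v.1 k = ∑ l, ∑ k, (x.δ i l * x.δ l k) • v.1 k :=
      Finset.sum_comm
    simp only [colD_val, map_add, map_sum, H.d_d, H.d_l, h, Finset.sum_add_distrib, smul_add,
      Finset.sum_smul, Finset.smul_sum, smul_smul, e, zero_add]
    rw [add_comm (∑ l, ∑ k, _), H.two]
    rfl
  l_mem {m n b v} hb hv i := by
    by_cases hm : m = 0
    · exact H.mem_cast (Bimod.smul_mem (K := K) b (hv i)) (by omega)
    · rw [(pt_deg0 K).zero hb hm, zero_smul]; exact zero_mem _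
  r_mem hb hv i := H.mem_cast (H.r_mem hb (hv i)) (by ring)
  d_l b v := by
    ext i; simp [colD_val, H.d_smul, Finset.smul_sum, smul_comm b]
  d_r b v := by
    ext i; simp [colD_val, H.d_r, Finset.smul_sum, smul_comm (x.δ i _)]; abel

namespace Col
variable (x : Tw C')

instance : Module K (Col K H x).H := (Col K H x).modL
instance : IsScalarTower K (pt K).B (Col K H x).H := ⟨fun a b v => mul_smul a b v⟩
instance : IsScalarTower K C.Bᵐᵒᵖ (Col K H x).H :=
  inferInstanceAs (IsScalarTower K C.Bᵐᵒᵖ (colS H x))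

/-- The entries. -/
def val : (Col K H x).H →ₗ[K] (x.I → H.H) := (colS H x).subtype.restrictScalars K

/-- The column cut out of a family. -/
def mk (v : x.I → H.H) : (Col K H x).H :=
  ⟨fun i => C'.e (x.ob i) • v i, fun i => by rw [smul_smul, e_mul_self]⟩

variable {K H x}

lemma ext {u v : (Col K H x).H} (h : ∀ i, val K H x u i = val K H x v i) : u = v :=
  Subtype.ext (funext h)

lemma val_e (v : (Col K H x).H) (i) : C'.e (x.ob i) • val K H x v i = val K H x v i := v.2 i

lemma val_mk (v : x.I → H.H) (i) : val K H x (mk K H x v) i = C'.e (x.ob i) • v i := rfl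

lemma val_r (c : C.Bᵐᵒᵖ) (v : (Col K H x).H) (i) : val K H x (c • v) i = c • val K H x v i := rfl

lemma val_d (v : (Col K H x).H) (i) : val K H x ((Col K H x).d v) i =
    H.d (val K H x v i) + ∑ k, x.δ i k • val K H x v k := rfl

lemma mem_gr {n : ℤ} {v : (Col K H x).H} :
    v ∈ (Col K H x).gr n ↔ ∀ i, val K H x v i ∈ H.gr (n + x.deg i) := Iff.rfl

lemma honest (h : H.Honest) : (Col K H x).Honest := by
  obtain ⟨p, h1, h2, h3⟩ := h.exists_proj
  have he : ∀ o m v, C'.e o • p m v = p m (C'.e o • v) := fun o m =>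
    h.ind (by simp) (fun n v hv => by
      rw [h2 m n v hv, h2 m n _ (H.mem_cast (H.l_mem (C'.e_mem o) hv) (zero_add n))]
      split_ifs <;> simp) fun u v hu hv => by simp [hu, hv]
  refine honest_of_proj (fun n => AddMonoidHom.mk' (fun v => ⟨fun i => p (n + x.deg i)
    (val K H x v i), fun i => by rw [he, val_e]⟩) fun a b => ext fun i =>
      map_add (p (n + x.deg i)) (val K H x a i) (val K H x b i)) (fun n v i => h1 _ _) (fun m n v hv => ?_)
    fun v => ?_
  · refine ext fun i => (h2 _ _ _ (hv i)).trans ?_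
    by_cases e : m = n <;> simp [e]
    rfl
  · choose S hS using fun i => h3 (val K H x v i)
    refine ⟨Finset.univ.biUnion fun i => (S i).image (· - x.deg i), ext fun i => ?_⟩
    rw [map_sum, Finset.sum_apply, ← hS i ((Finset.univ.biUnion fun i =>
      (S i).image (· - x.deg i)).image (· + x.deg i)) fun n hn => Finset.mem_image.2
        ⟨n - x.deg i, Finset.mem_biUnion.2 ⟨i, Finset.mem_univ _, Finset.mem_image_of_mem _ hn⟩,
          by ring⟩, Finset.sum_image fun _ _ _ _ h => add_right_cancel h]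
    rfl

variable (K H x) in
/-- The matrix of a column. -/
def toM : (Col K H x).H →+ Matrix x.I C.O H.H :=
  AddMonoidHom.mk' (fun v => Matrix.of fun i a => op (C.e a) • val K H x v i) fun _ _ => by
    ext; simp

lemma toM_qis : Cx.Qis (Col K H x).cx (H.tw (Tw.tot C) x) (toM K H x) := by
  have s : ∀ v : H.H, ∑ a, op (C.e a) • v = v := fun v => by
    rw [← Finset.sum_smul, ← Finset.op_sum, C.e_sum, op_one, one_smul]
  refine Cx.Qis.of_bij ⟨fun {n v} hv i a => H.mem_cor
    (H.mem_cast (H.r_mem (C.e_mem a) (hv i)) (by simp)) ?_ ?_, fun {_ v} _ => ?_⟩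
    (fun _ v _ h => ext (K := K) fun i => ?_)
    fun n (w : Matrix x.I C.O H.H) hw => ⟨mk K H x fun i => ∑ a, w i a, fun i => ?_, ?_⟩
  · change _ • op (C.e a) • val K H x v i = op (C.e a) • _
    rw [smul_comm, val_e]
  · change op (C.e a) • op (C.e a) • val K H x v i = op (C.e a) • _
    rw [smul_smul, ← op_mul, e_mul_self]
  · refine (twD_tot H x _).trans ?_
    ext i a
    simp [toM, val_d, H.d_r, C.d_e, lmul, Finset.smul_sum, smul_comm (x.δ i _)]
  · rw [← s (val K H x v i)]
    exact Finset.sum_eq_zero fun a _ => congrFun (congrFun h i) a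
  · exact H.mem_cast (H.l_mem (C'.e_mem _) (sum_mem fun a _ =>
      H.mem_cast (n := n + x.deg i) (hw i a).1 (sub_zero _))) (zero_add _)
  · ext i a
    have : ∀ a', op (C.e a) • w i a' = if a' = a then w i a else 0 := fun a' => by
      have e : op (C.e a') • w i a' = w i a' := cor_r (hw i a')
      rw [← e, smul_smul, ← op_mul, C.e_mul]
      split_ifs with h
      · rw [e, h]
      · simp
    have e : C'.e (x.ob i) • w i a = w i a := cor_l (hw i a)
    change op (C.e a) • C'.e (x.ob i) • ∑ a, w i a = w i a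
    rw [← smul_comm, Finset.smul_sum]
    simp [this, e]

end Col
end FMD
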