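import Pool.Agent.MP_0e6a9f_ag.H36.Alg

/-! Linear DG categories, the enveloping category, its action on central bimodules. -/

open MulOpposite TensorProduct

noncomputable section
namespace FMD

variable (K : Type) [Field K]

/-- The scalars are closed of degree 0. -/
class DGR.KL (C : DGR) [Algebra K C.B] : Prop where
  alg_mem : ∀ c : K, algebraMap K C.B c ∈ C.gr 0
  d_alg : ∀ c : K, C.d (algebraMap K C.B c) = 0

namespace DGR
variable (C C' : DGR)

lemma mem_cast {m n : ℤ} {v : C.B} (hv : v ∈ C.gr m) (h : m = n) : v ∈ C.gr n := h ▸ hv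

lemma one_mem : (1 : C.B) ∈ C.gr 0 := C.e_sum ▸ sum_mem fun a _ => C.e_mem a

lemma d_one : C.d 1 = 0 := by rw [← C.e_sum, map_sum]; simp [C.d_e]

lemma mem_self_cor {a b : C.O} {n : ℤ} {x : C.B} :
    x ∈ C.self.cor a b n ↔ x ∈ C.gr n ∧ C.e b * x = x ∧ x * C.e a = x :=
  ⟨fun h => ⟨h.1, Bimod.cor_l h, Bimod.cor_r h⟩, fun h => C.self.mem_cor h.1 h.2.1 h.2.2⟩

lemma e_mem_cor (a : C.O) : C.e a ∈ C.self.cor a a 0 :=
  C.mem_self_cor.2 ⟨C.e_mem a, C.e_mul_self a, C.e_mul_self a⟩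

/-- The opposite category. -/
@[reducible] def op : DGR where
  B := C.Bᵐᵒᵖ
  O := C.O
  e a := MulOpposite.op (C.e a)
  gr n := (C.gr n).comap (MulOpposite.opAddEquiv (α := C.B)).symm.toAddMonoidHom
  d := (MulOpposite.opAddEquiv (α := C.B)).toAddMonoidHom.comp
    (C.d.comp (MulOpposite.opAddEquiv (α := C.B)).symm.toAddMonoidHom)
  two b := unop_injective (C.two _)
  e_mul a b := by
    rw [← op_mul, C.e_mul]
    by_cases h : a = b
    · simp [h]
    · simp [h, Ne.symm h]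
  e_sum := by rw [← Finset.op_sum, C.e_sum, op_one]
  e_mem a := C.e_mem a
  d_e a := congrArg MulOpposite.op (C.d_e a)
  mul_mem {m n _ _} ha hb := C.mem_cast (C.mul_mem hb ha) (add_comm n m)
  d_mem := C.d_mem
  d_d b := congrArg MulOpposite.op (C.d_d _)
  d_mul a b := unop_injective ((C.d_mul b.unop a.unop).trans (add_comm _ _))

lemma op_d (b : C.B) : C.op.d (MulOpposite.op b) = MulOpposite.op (C.d b) := rfl

lemma op_mem {n : ℤ} {b : C.B} : MulOpposite.op b ∈ C.op.gr n ↔ b ∈ C.gr n := Iff.rfl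

variable [Algebra K C.B] [C.KL K]

variable {K C} in
lemma smul_mem (c : K) {n : ℤ} {b : C.B} (hb : b ∈ C.gr n) : c • b ∈ C.gr n := by
  rw [Algebra.smul_def]
  exact C.mem_cast (C.mul_mem (KL.alg_mem c) hb) (zero_add n)

variable {K} in
lemma d_smul (c : K) (b : C.B) : C.d (c • b) = c • C.d b := by
  rw [Algebra.smul_def, C.d_mul, KL.d_alg, zero_mul, zero_add, Algebra.smul_def]

/-- The differential as a linear map. -/
def dK : C.B →ₗ[K] C.B where
  toFun := C.d
  map_add' := C.d.map_add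
  map_smul' := C.d_smul

@[simp] lemma dK_apply (b : C.B) : C.dK K b = C.d b := rfl

instance : C.op.KL K :=
  ⟨fun c => KL.alg_mem (C := C) c, fun c => congrArg MulOpposite.op (KL.d_alg (C := C) c)⟩

variable [Algebra K C'.B] [C'.KL K]

/-- The span of the pure tensors of total degree `n`. -/
def tgr {V W : Type} [AddCommGroup V] [AddCommGroup W] [Module K V] [Module K W]
    (g : ℤ → AddSubgroup V) (g' : ℤ → AddSubgroup W) (n : ℤ) : AddSubgroup (V ⊗[K] W) :=
  AddSubgroup.closure {z | ∃ i j x y, x ∈ g i ∧ y ∈ g' j ∧ i + j = n ∧ z = x ⊗ₜ[K] y}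

section
variable {K} {V W : Type} [AddCommGroup V] [AddCommGroup W] [Module K V] [Module K W]
  {g : ℤ → AddSubgroup V} {g' : ℤ → AddSubgroup W}

lemma tmul_mem_tgr {i j n : ℤ} {x : V} {y : W} (hx : x ∈ g i) (hy : y ∈ g' j) (h : i + j = n) :
    x ⊗ₜ[K] y ∈ tgr K g g' n := AddSubgroup.subset_closure ⟨i, j, x, y, hx, hy, h, rfl⟩

/-- An additive map sends `tgr` into a subgroup as soon as it does so on pure tensors. -/
lemma tgr_le {U : Type} [AddCommGroup U] (f : V ⊗[K] W →+ U) (S : AddSubgroup U) {n : ℤ}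
    (h : ∀ i j x y, x ∈ g i → y ∈ g' j → i + j = n → f (x ⊗ₜ[K] y) ∈ S) {z : V ⊗[K] W}
    (hz : z ∈ tgr K g g' n) : f z ∈ S :=
  (AddSubgroup.closure_le (S.comap f)).2
    (by rintro _ ⟨i, j, x, y, hx, hy, e, rfl⟩; exact h i j x y hx hy e) hz
end

/-- The tensor product of two linear DG categories. -/
def tens : DGR where
  B := C.B ⊗[K] C'.B
  O := C.O × C'.O
  e a := C.e a.1 ⊗ₜ C'.e a.2
  gr := tgr K C.gr C'.gr
  d := ((C.dK K).rTensor C'.B + (C'.dK K).lTensor C.B).toAddMonoidHom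
  two z := by
    induction z with
    | zero => simp
    | tmul x y => rw [← add_tmul, C.two, zero_tmul]
    | add x y hx hy => rw [add_add_add_comm, hx, hy, add_zero]
  e_mul a b := by
    rw [Algebra.TensorProduct.tmul_mul_tmul, C.e_mul, C'.e_mul]
    by_cases h1 : a.1 = b.1 <;> by_cases h2 : a.2 = b.2 <;> simp [h1, h2, Prod.ext_iff]
  e_sum := by
    rw [Fintype.sum_prod_type]
    simp only [← tmul_sum, ← sum_tmul, C.e_sum, C'.e_sum]
    rfl
  e_mem a := tmul_mem_tgr (C.e_mem _) (C'.e_mem _) rfl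
  d_e a := by simp [C.d_e, C'.d_e]
  mul_mem {m n a b} ha hb :=
    tgr_le (AddMonoidHom.mulRight b) _ (fun i j x y hx hy e =>
      tgr_le (AddMonoidHom.mulLeft (x ⊗ₜ[K] y)) _ (fun i' j' x' y' hx' hy' e' => by
        change (x ⊗ₜ[K] y) * (x' ⊗ₜ[K] y') ∈ _
        rw [Algebra.TensorProduct.tmul_mul_tmul]
        exact tmul_mem_tgr (C.mul_mem hx hx') (C'.mul_mem hy hy') (by omega)) hb) ha
  d_mem {n b} hb := tgr_le _ _ (fun i j x y hx hy e =>
    add_mem (tmul_mem_tgr (C.d_mem hx) hy (by omega))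
      (tmul_mem_tgr hx (C'.d_mem hy) (by omega))) hb
  d_d z := by
    induction z with
    | zero => simp
    | tmul x y => simp [C.d_d, C'.d_d, ← add_tmul, C.two]
    | add x y hx hy => rw [map_add, map_add, hx, hy, add_zero]
  d_mul a b := by
    induction a with
    | zero => simp
    | add x y hx hy => rw [add_mul, map_add, hx, hy, map_add, add_mul, add_mul]; abel
    | tmul x y =>
      induction b with
      | zero => simp
      | add x y hx hy => rw [mul_add, map_add, hx, hy, map_add, mul_add, mul_add]; abel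
      | tmul x' y' => simp [C.d_mul, C'.d_mul, add_tmul, tmul_add, add_mul, mul_add]; abel

instance : Algebra K (tens K C C').B := inferInstanceAs (Algebra K (C.B ⊗[K] C'.B))

/-- Pure tensors. -/
def tm (x : C.B) (y : C'.B) : (tens K C C').B := x ⊗ₜ[K] y

/-- Pure tensors as a bilinear map. -/
def tmL : C.B →ₗ[K] C'.B →ₗ[K] (tens K C C').B := TensorProduct.mk K C.B C'.B

variable {K C C'}

@[simp] lemma tmL_apply (x : C.B) (y : C'.B) : tmL K C C' x y = tm K C C' x y := rfl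

@[simp] lemma zero_tm (y : C'.B) : tm K C C' 0 y = 0 := zero_tmul _ y

@[simp] lemma tm_zero (x : C.B) : tm K C C' x 0 = 0 := tmul_zero _ x

lemma add_tm (x x' : C.B) (y : C'.B) : tm K C C' (x + x') y = tm K C C' x y + tm K C C' x' y :=
  add_tmul x x' y

lemma tm_add (x : C.B) (y y' : C'.B) : tm K C C' x (y + y') = tm K C C' x y + tm K C C' x y' :=
  tmul_add x y y'

lemma smul_tm (c : K) (x : C.B) (y : C'.B) : tm K C C' (c • x) y = c • tm K C C' x y := rfl

lemma tm_smul (c : K) (x : C.B) (y : C'.B) : tm K C C' x (c • y) = c • tm K C C' x y :=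
  tmul_smul c x y

lemma sum_tm {ι : Type*} (s : Finset ι) (x : ι → C.B) (y : C'.B) :
    tm K C C' (∑ i ∈ s, x i) y = ∑ i ∈ s, tm K C C' (x i) y := sum_tmul s x y

lemma tm_sum {ι : Type*} (s : Finset ι) (x : C.B) (y : ι → C'.B) :
    tm K C C' x (∑ i ∈ s, y i) = ∑ i ∈ s, tm K C C' x (y i) := tmul_sum x s y

lemma tm_mul (x x' : C.B) (y y' : C'.B) :
    tm K C C' x y * tm K C C' x' y' = tm K C C' (x * x') (y * y') :=
  Algebra.TensorProduct.tmul_mul_tmul x x' y y'

lemma tm_one : tm K C C' 1 1 = 1 := rfl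

lemma d_tm (x : C.B) (y : C'.B) :
    (tens K C C').d (tm K C C' x y) = tm K C C' (C.d x) y + tm K C C' x (C'.d y) := rfl

lemma tens_e (a : C.O) (b : C'.O) : (tens K C C').e (a, b) = tm K C C' (C.e a) (C'.e b) := rfl

lemma tens_e' (o : (tens K C C').O) : (tens K C C').e o = tm K C C' (C.e o.1) (C'.e o.2) := rfl

lemma tm_mem {i j n : ℤ} {x : C.B} {y : C'.B} (hx : x ∈ C.gr i) (hy : y ∈ C'.gr j)
    (h : i + j = n) : tm K C C' x y ∈ (tens K C C').gr n := tmul_mem_tgr hx hy h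

lemma tm_mem_cor {i j n : ℤ} {a a' : C.O} {b b' : C'.O} {x : C.B} {y : C'.B}
    (hx : x ∈ C.self.cor a a' i) (hy : y ∈ C'.self.cor b b' j) (h : i + j = n) :
    tm K C C' x y ∈ (tens K C C').self.cor (a, b) (a', b') n := by
  rw [mem_self_cor] at hx hy ⊢
  rw [tens_e, tens_e, tm_mul, tm_mul, hx.2.1, hx.2.2, hy.2.1, hy.2.2]
  exact ⟨tm_mem hx.1 hy.1 h, rfl, rfl⟩

lemma tens_gr_le {U : Type} [AddCommGroup U] (f : (tens K C C').B →+ U) (S : AddSubgroup U)
    {n : ℤ} (h : ∀ i j x y, x ∈ C.gr i → y ∈ C'.gr j → i + j = n → f (tm K C C' x y) ∈ S)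
    {z : (tens K C C').B} (hz : z ∈ (tens K C C').gr n) : f z ∈ S := tgr_le f S h hz

@[elab_as_elim] lemma tens_ind {P : (tens K C C').B → Prop} (z : (tens K C C').B) (zero : P 0)
    (tmul : ∀ x y, P (tm K C C' x y)) (add : ∀ x y, P x → P y → P (x + y)) : P z :=
  TensorProduct.induction_on z zero tmul add

lemma tens_ext {U : Type} [AddCommGroup U] {f g : (tens K C C').B →+ U}
    (h : ∀ x y, f (tm K C C' x y) = g (tm K C C' x y)) (z : (tens K C C').B) : f z = g z :=
  tens_ind z (by simp) h fun x y hx hy => by rw [map_add, map_add, hx, hy]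

lemma algebraMap_tens (c : K) :
    algebraMap K (tens K C C').B c = tm K C C' (algebraMap K C.B c) 1 := rfl

/-- Linear maps out of the tensor product. -/
def tlift {U : Type} [AddCommGroup U] [Module K U] (f : C.B →ₗ[K] C'.B →ₗ[K] U) :
    (tens K C C').B →ₗ[K] U := TensorProduct.lift f

@[simp] lemma tlift_tm {U : Type} [AddCommGroup U] [Module K U] (f : C.B →ₗ[K] C'.B →ₗ[K] U)
    (x : C.B) (y : C'.B) : tlift f (tm K C C' x y) = f x y := rfl

/-- Algebra maps out of the tensor product. -/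
def tliftA {U : Type} [Ring U] [Algebra K U] (f : C.B →ₐ[K] U) (g : C'.B →ₐ[K] U)
    (h : ∀ x y, Commute (f x) (g y)) : (tens K C C').B →ₐ[K] U :=
  Algebra.TensorProduct.lift f g h

@[simp] lemma tliftA_tm {U : Type} [Ring U] [Algebra K U] (f : C.B →ₐ[K] U) (g : C'.B →ₐ[K] U)
    (h : ∀ x y, Commute (f x) (g y)) (x : C.B) (y : C'.B) :
    tliftA f g h (tm K C C' x y) = f x * g y := rfl

variable (K C C')

/-- The first factor. -/
def inL : C.B →ₐ[K] (tens K C C').B := Algebra.TensorProduct.includeLeft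

/-- The second factor. -/
def inR : C'.B →ₐ[K] (tens K C C').B := Algebra.TensorProduct.includeRight

variable {K C C'} in
lemma inL_apply (x : C.B) : inL K C C' x = tm K C C' x 1 := rfl

variable {K C C'} in
lemma inR_apply (y : C'.B) : inR K C C' y = tm K C C' 1 y := rfl

instance : (tens K C C').KL K :=
  ⟨fun c => tm_mem (KL.alg_mem c) C'.one_mem rfl, fun c => by
    rw [algebraMap_tens, d_tm, KL.d_alg, C'.d_one]; simp⟩

/-- The enveloping category: left modules over it are the central `C'`-`C`-bimodules. -/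
abbrev env : DGR := tens K C' C.op

end DGR

open _root_.FMD.DGR

namespace Bimod
variable {C C' : DGR}

/-- An additive map that commutes with both actions. -/
structure IsLin (H H' : Bimod C C') (f : H.H →+ H'.H) : Prop where
  l : ∀ (b : C'.B) h, f (b • h) = b • f h
  r : ∀ (b : C.B) h, f (op b • h) = op b • f h

lemma IsHom.isLin {H H' : Bimod C C'} {f : H.H →+ H'.H} (hf : IsHom H H' f) : IsLin H H' f :=
  ⟨hf.l, hf.r⟩

lemma IsLin.pr {H H' : Bimod C C'} {f : H.H →+ H'.H} (hf : IsLin H H' f) (a : C.O) (b : C'.O)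
    (h : H.H) : f (H.pr a b h) = H'.pr a b (f h) := by rw [pr_apply, pr_apply, hf.l, hf.r]

lemma IsLin.mem_cor {H H' : Bimod C C'} {f : H.H →+ H'.H} (hf : IsLin H H' f) {a : C.O}
    {b : C'.O} {n k : ℤ} {h : H.H} (hh : h ∈ H.cor a b n) (hk : f h ∈ H'.gr k) :
    f h ∈ H'.cor a b k := ⟨hk, by rw [← hf.pr, hh.2]⟩

lemma IsLin.comp {H H' H'' : Bimod C C'} {g : H'.H →+ H''.H} {f : H.H →+ H'.H}
    (hg : IsLin H' H'' g) (hf : IsLin H H' f) : IsLin H H'' (g.comp f) :=
  ⟨fun b h => (congrArg g (hf.l b h)).trans (hg.l _ _),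
    fun b h => (congrArg g (hf.r b h)).trans (hg.r _ _)⟩

lemma IsLin.add {H H' : Bimod C C'} {f g : H.H →+ H'.H} (hf : IsLin H H' f)
    (hg : IsLin H H' g) : IsLin H H' (f + g) :=
  ⟨fun b h => by simp [hf.l, hg.l], fun b h => by simp [hf.r, hg.r]⟩

lemma IsLin.id (H : Bimod C C') : IsLin H H (AddMonoidHom.id _) := ⟨fun _ _ => rfl, fun _ _ => rfl⟩

lemma IsLin.zero (H H' : Bimod C C') : IsLin H H' 0 := ⟨fun _ _ => by simp, fun _ _ => by simp⟩

lemma IsHom.id (H : Bimod C C') : IsHom H H (AddMonoidHom.id _) :=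
  ⟨fun h => h, fun _ => rfl, fun _ _ => rfl, fun _ _ => rfl⟩

lemma IsHom.comp {H H' H'' : Bimod C C'} {g : H'.H →+ H''.H} {f : H.H →+ H'.H}
    (hg : IsHom H' H'' g) (hf : IsHom H H' f) : IsHom H H'' (g.comp f) :=
  ⟨fun h => hg.mem (hf.mem h), fun h => (hg.comm _).trans (congrArg g (hf.comm h)),
    (hg.isLin.comp hf.isLin).l, (hg.isLin.comp hf.isLin).r⟩

variable [Algebra K C.B] [Algebra K C'.B] [C.KL K] [C'.KL K]
  (M : Bimod C C') [Module K M.H] [IsScalarTower K C'.B M.H] [IsScalarTower K C.Bᵐᵒᵖ M.H]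

variable {K M} in
omit [Algebra K C.B] [C.KL K] [IsScalarTower K C.Bᵐᵒᵖ M.H] in
lemma smul_mem (c : K) {n : ℤ} {m : M.H} (hm : m ∈ M.gr n) : c • m ∈ M.gr n := by
  rw [← algebraMap_smul C'.B]
  exact M.mem_cast (M.l_mem (KL.alg_mem c) hm) (zero_add n)

variable {K} in
omit [Algebra K C.B] [C.KL K] [IsScalarTower K C.Bᵐᵒᵖ M.H] in
lemma d_smul (c : K) (m : M.H) : M.d (c • m) = c • M.d m := by
  rw [← algebraMap_smul C'.B, M.d_l, KL.d_alg, zero_smul, zero_add, algebraMap_smul]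

variable {K M} in
omit [C.KL K] in
lemma smul_mem_cor (c : K) {a : C.O} {b : C'.O} {n : ℤ} {m : M.H} (hm : m ∈ M.cor a b n) :
    c • m ∈ M.cor a b n :=
  M.mem_cor (smul_mem c hm.1) (by rw [smul_comm, cor_l hm]) (by rw [smul_comm, cor_r hm])

/-- The action of the enveloping ring. -/
def act : (env K C C').B →ₐ[K] Module.End K M.H :=
  tliftA (C := C') (C' := C.op) (Algebra.lsmul K K M.H) (Algebra.lsmul K K M.H)
    fun x y => LinearMap.ext fun m => smul_comm x y m

variable {K}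

lemma act_tm (a : C'.B) (b : C.Bᵐᵒᵖ) (m : M.H) :
    M.act K (tm K C' C.op a b) m = a • b • m := rfl

lemma act_e (o : (env K C C').O) (m : M.H) :
    M.act K ((env K C C').e o) m = M.pr o.2 o.1 m := rfl

lemma act_act (x y : (env K C C').B) (m : M.H) :
    M.act K x (M.act K y m) = M.act K (x * y) m := by rw [map_mul]; rfl

lemma act_mem {i j : ℤ} {x : (env K C C').B} {m : M.H} (hx : x ∈ (env K C C').gr i)
    (hm : m ∈ M.gr j) : M.act K x m ∈ M.gr (i + j) :=
  tens_gr_le ((LinearMap.applyₗ m).comp (M.act K).toLinearMap).toAddMonoidHom _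
    (fun i' j' a b ha hb e => M.mem_cast (M.l_mem ha (M.r_mem (b := b.unop) hb hm)) (by omega)) hx

lemma d_act (x : (env K C C').B) (m : M.H) :
    M.d (M.act K x m) = M.act K ((env K C C').d x) m + M.act K x (M.d m) := by
  induction x using tens_ind with
  | zero => simp
  | add x y hx hy => simp only [map_add, LinearMap.add_apply, hx, hy]; abel
  | tmul a b =>
    rw [d_tm, map_add, LinearMap.add_apply, act_tm, act_tm, act_tm, act_tm, M.d_l,
      ← op_unop b, M.d_r, smul_add, op_d]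
    abel

lemma act_mem_cor {o o' : (env K C C').O} {i j : ℤ} {x : (env K C C').B} {m : M.H}
    (hx : x ∈ (env K C C').self.cor o o' i) (hm : m ∈ M.gr j) :
    M.act K x m ∈ M.cor o'.2 o'.1 (i + j) :=
  ⟨M.act_mem hx.1 hm, by rw [← act_e (K := K), act_act]; exact congrArg (M.act K · m) (cor_l hx)⟩

variable {M} {M' : Bimod C C'} [Module K M'.H] [IsScalarTower K C'.B M'.H]
  [IsScalarTower K C.Bᵐᵒᵖ M'.H]

lemma IsLin.act {f : M.H →+ M'.H} (hf : IsLin M M' f) (x : (env K C C').B) (m : M.H) :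
    f (M.act K x m) = M'.act K x (f m) := by
  induction x using tens_ind with
  | zero => simp
  | add x y hx hy => simp only [map_add, LinearMap.add_apply, hx, hy]
  | tmul a b => rw [act_tm, act_tm, hf.l, ← op_unop b, hf.r]

omit [Algebra K C.B] [C.KL K] [C'.KL K] [IsScalarTower K C.Bᵐᵒᵖ M.H]
  [IsScalarTower K C.Bᵐᵒᵖ M'.H] in
lemma IsLin.smul {f : M.H →+ M'.H} (hf : IsLin M M' f) (c : K) (m : M.H) :
    f (c • m) = c • f m := by rw [← algebraMap_smul C'.B, hf.l, algebraMap_smul]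

end Bimod
end FMD
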