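import Pool.Agent.MP_0e6a9f_ag.H19.HomK

/-! The square zero extension of the enveloping ring attached to a derivation of the field. -/

open MulOpposite TensorProduct

noncomputable section
namespace FMD
open _root_.FMD.DGR _root_.FMD.Bimod

variable {K : Type} [Field K]

/-- `A[ε]`, on which `c : K` acts by `c + ε D c`. -/
@[nolint unusedArguments]
def Aph (_ : Derivation ℤ K K) (A : Type) [Ring A] : Type := DualNumber A

namespace Aph
variable (D : Derivation ℤ K K) (A : Type) [Ring A] [Algebra K A]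

instance : Ring (Aph D A) := inferInstanceAs (Ring (DualNumber A))

/-- The twisted scalars. -/
def phi : K →+* Aph D A where
  toFun c := ((algebraMap K A c, algebraMap K A (D c)) : A × A)
  map_one' := TrivSqZeroExt.ext (map_one _) (by
    change algebraMap K A (D 1) = 0
    rw [D.map_one_eq_zero, map_zero])
  map_mul' a b := TrivSqZeroExt.ext (map_mul _ _ _) (by
    change algebraMap K A (D (a * b)) = algebraMap K A a * algebraMap K A (D b) +
      algebraMap K A (D a) * algebraMap K A b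
    rw [D.leibniz, ← map_mul, ← map_mul, ← map_add, smul_eq_mul, smul_eq_mul, mul_comm b])
  map_zero' := TrivSqZeroExt.ext (map_zero _) (by
    change algebraMap K A (D 0) = 0
    rw [map_zero, map_zero])
  map_add' a b := TrivSqZeroExt.ext (map_add _ _ _) (by
    change algebraMap K A (D (a + b)) = algebraMap K A (D a) + algebraMap K A (D b)
    rw [map_add, map_add])

instance : Algebra K (Aph D A) := (phi D A).toAlgebra' fun c x =>
  TrivSqZeroExt.ext (Algebra.commutes c x.1) (by
    change algebraMap K A c * x.2 + algebraMap K A (D c) * x.1 =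
      x.1 * algebraMap K A (D c) + x.2 * algebraMap K A c
    rw [Algebra.commutes, Algebra.commutes, add_comm])

/-- The constants. -/
def inl : A →+* Aph D A := TrivSqZeroExt.inlHom A A

/-- Reduction modulo `ε`. -/
def fst : Aph D A →ₐ[K] A where
  toFun x := x.1
  map_one' := rfl
  map_mul' _ _ := rfl
  map_zero' := rfl
  map_add' _ _ := rfl
  commutes' _ := rfl

/-- Multiplication by `ε`. -/
def inr : A →ₗ[K] Aph D A where
  toFun a := ((0, a) : A × A)
  map_add' _ _ := TrivSqZeroExt.ext (add_zero _).symm rfl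
  map_smul' c a := TrivSqZeroExt.ext (mul_zero _).symm (by
    change c • a = algebraMap K A c * a + algebraMap K A (D c) * 0
    rw [mul_zero, add_zero, Algebra.smul_def])

variable {D A}

lemma mul_inr (x : Aph D A) (a : A) : x * inr D A a = inr D A (fst D A x * a) :=
  TrivSqZeroExt.ext (mul_zero _) (by
    change x.1 * a + x.2 * 0 = x.1 * a
    rw [mul_zero, add_zero])

lemma inr_mul (a : A) (x : Aph D A) : inr D A a * x = inr D A (a * fst D A x) :=
  TrivSqZeroExt.ext (zero_mul _) (by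
    change 0 * x.2 + a * x.1 = a * x.1
    rw [zero_mul, zero_add])

lemma eq_add (x : Aph D A) : x = inl D A x.1 + inr D A x.2 :=
  TrivSqZeroExt.ext (add_zero _).symm (zero_add _).symm

lemma exact : Function.Exact (inr D A) (fst D A).toLinearMap := fun x =>
  ⟨fun h => ⟨x.2, TrivSqZeroExt.ext (Eq.symm h) rfl⟩, by rintro ⟨a, rfl⟩; rfl⟩

variable (D) in
/-- Functoriality. -/
def map {A' : Type} [Ring A'] [Algebra K A'] (f : A →ₐ[K] A') : Aph D A →ₐ[K] Aph D A' where
  toFun x := ((f x.1, f x.2) : A' × A')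
  map_one' := TrivSqZeroExt.ext (map_one f) (map_zero f)
  map_mul' x y := TrivSqZeroExt.ext (map_mul f _ _) (by
    change f (x.1 * y.2 + x.2 * y.1) = f x.1 * f y.2 + f x.2 * f y.1
    rw [map_add, map_mul, map_mul])
  map_zero' := TrivSqZeroExt.ext (map_zero f) (map_zero f)
  map_add' _ _ := TrivSqZeroExt.ext (map_add f _ _) (map_add f _ _)
  commutes' _ := TrivSqZeroExt.ext (f.commutes _) (f.commutes _)

end Aph

variable (A A' : DGR) [Algebra K A.B] [A.KL K] [Algebra K A'.B] [A'.KL K]

variable {A A'} in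
/-- The map of enveloping rings induced by an algebra map. -/
def envMap (f : A.B →ₐ[K] A'.B) : (env K A A).B →ₐ[K] (env K A' A').B :=
  Algebra.TensorProduct.map f (AlgHom.op f)

variable {A A'} in
lemma envMap_tm (f : A.B →ₐ[K] A'.B) (a : A.B) (b : A.Bᵐᵒᵖ) :
    envMap f (tm K A A.op a b) = tm K A' A'.op (f a) (op (f b.unop)) := rfl

variable (D : Derivation ℤ K K)

/-- The square zero extension of the enveloping ring. -/
def Et : Type := Aph D A.B ⊗[K] A.Bᵐᵒᵖ

namespace Et

instance : Ring (Et A D) := inferInstanceAs (Ring (Aph D A.B ⊗[K] A.Bᵐᵒᵖ))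

/-- The left copy of `A`. -/
def L : A.B →+* Et A D :=
  (Algebra.TensorProduct.includeLeftRingHom : Aph D A.B →+* Aph D A.B ⊗[K] A.Bᵐᵒᵖ).comp
    (Aph.inl D A.B)

/-- The right copy of `A`. -/
def R : A.Bᵐᵒᵖ →+* Et A D :=
  (Algebra.TensorProduct.includeRight : A.Bᵐᵒᵖ →ₐ[K] Aph D A.B ⊗[K] A.Bᵐᵒᵖ).toRingHom

/-- Reduction modulo `ε`. -/
def pr : Et A D →+* (env K A A).B :=
  (Algebra.TensorProduct.map (Aph.fst D A.B) (AlgHom.id K A.Bᵐᵒᵖ)).toRingHom

/-- Multiplication by `ε`. -/
def eps : (env K A A).B →+ Et A D := ((Aph.inr D A.B).rTensor A.Bᵐᵒᵖ).toAddMonoidHom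

/-- The idempotents. -/
def e (o : (env K A A).O) : Et A D := L A D (A.e o.1) * R A D (op (A.e o.2))

variable {A A'} in
/-- Functoriality. -/
def map (f : A.B →ₐ[K] A'.B) : Et A D →+* Et A' D :=
  (Algebra.TensorProduct.map (Aph.map D f) (AlgHom.op f)).toRingHom

variable {A A' D}

omit [A.KL K] in
lemma L_mul_R (a : A.B) (b : A.Bᵐᵒᵖ) :
    L A D a * R A D b = (Aph.inl D A.B a ⊗ₜ[K] b : Aph D A.B ⊗[K] A.Bᵐᵒᵖ) :=
  (Algebra.TensorProduct.tmul_mul_tmul (Aph.inl D A.B a) 1 1 b).trans (by rw [mul_one, one_mul])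

omit [A.KL K] in
lemma commute (a : A.B) (b : A.Bᵐᵒᵖ) : Commute (L A D a) (R A D b) :=
  (L_mul_R a b).trans ((Algebra.TensorProduct.tmul_mul_tmul 1 (Aph.inl D A.B a) b 1).trans
    (by rw [mul_one, one_mul])).symm

lemma pr_L (a : A.B) : pr A D (L A D a) = tm K A A.op a 1 := rfl

lemma pr_R (b : A.Bᵐᵒᵖ) : pr A D (R A D b) = tm K A A.op 1 b := rfl

lemma pr_LR (a : A.B) (b : A.Bᵐᵒᵖ) : pr A D (L A D a * R A D b) = tm K A A.op a b := by
  rw [map_mul, pr_L, pr_R, tm_mul, mul_one, one_mul]

lemma pr_e (o : (env K A A).O) : pr A D (e A D o) = (env K A A).e o := pr_LR _ _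

lemma e_mul_self (o : (env K A A).O) : e A D o * e A D o = e A D o := by
  rw [e, (commute _ _).symm.mul_mul_mul_comm, ← map_mul, ← map_mul, ← op_mul, A.e_mul_self,
    A.e_mul_self]

@[elab_as_elim] lemma ind {P : Et A D → Prop} (z : Et A D)
    (lr : ∀ a b, P (L A D a * R A D b)) (ep : ∀ y, P (eps A D y))
    (add : ∀ x y, P x → P y → P (x + y)) : P z :=
  TensorProduct.induction_on (motive := P) z (map_zero (eps A D) ▸ ep 0) (fun x b => by
    rw [Aph.eq_add x, add_tmul]
    exact add _ _ (L_mul_R (D := D) x.1 b ▸ lr _ _) (ep (tm K A A.op x.2 b))) add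

omit [A.KL K] in
@[elab_as_elim] lemma ind' {P : Et A D → Prop} (z : Et A D) (zero : P 0)
    (tmul : ∀ a b, P (a ⊗ₜ[K] b : Aph D A.B ⊗[K] A.Bᵐᵒᵖ))
    (add : ∀ x y, P x → P y → P (x + y)) : P z := TensorProduct.induction_on z zero tmul add

lemma mul_eps (x : Et A D) (y : (env K A A).B) : x * eps A D y = eps A D (pr A D x * y) := by
  induction x using ind' with
  | zero => simp
  | add a b ha hb => simp only [add_mul, map_add, ha, hb]
  | tmul a b =>
    induction y using tens_ind with
    | zero => rw [map_zero, mul_zero, mul_zero, map_zero]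
    | add u v hu hv => rw [map_add, mul_add, hu, hv, mul_add, map_add]
    | tmul u v =>
      refine (Algebra.TensorProduct.tmul_mul_tmul a (Aph.inr D A.B u) b v).trans ?_
      rw [Aph.mul_inr]
      exact (congrArg (eps A D) (tm_mul (C' := A.op) (Aph.fst D A.B a) u b v)).symm

lemma eps_mul (y : (env K A A).B) (x : Et A D) : eps A D y * x = eps A D (y * pr A D x) := by
  induction x using ind' with
  | zero => simp
  | add a b ha hb => simp only [mul_add, map_add, ha, hb]
  | tmul a b =>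
    induction y using tens_ind with
    | zero => rw [map_zero, zero_mul, zero_mul, map_zero]
    | add u v hu hv => rw [map_add, add_mul, hu, hv, add_mul, map_add]
    | tmul u v =>
      refine (Algebra.TensorProduct.tmul_mul_tmul (Aph.inr D A.B u) a v b).trans ?_
      rw [Aph.inr_mul]
      exact (congrArg (eps A D) (tm_mul (C' := A.op) u (Aph.fst D A.B a) v b)).symm

lemma eps_injective : Function.Injective (eps A D) :=
  Module.Flat.rTensor_preserves_injective_linearMap (M := A.Bᵐᵒᵖ) (Aph.inr D A.B)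
    fun _ _ h => congrArg Prod.snd h

lemma pr_surjective : Function.Surjective (pr A D) := fun y => tens_ind y ⟨0, map_zero _⟩
  (fun a b => ⟨_, pr_LR a b⟩) (by rintro _ _ ⟨a, rfl⟩ ⟨b, rfl⟩; exact ⟨a + b, map_add _ _ _⟩)

lemma pr_eq_zero {x : Et A D} : pr A D x = 0 ↔ ∃ y, eps A D y = x :=
  rTensor_exact A.Bᵐᵒᵖ (Aph.exact (D := D) (A := A.B)) (fun a => ⟨Aph.inl D A.B a, rfl⟩) x

lemma pr_eps (y : (env K A A).B) : pr A D (eps A D y) = 0 := pr_eq_zero.2 ⟨y, rfl⟩

/-- The two actions of a scalar differ by `ε D c`. -/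
lemma R_alg (c : K) : R A D (op (algebraMap K A.B c)) =
    L A D (algebraMap K A.B c) + eps A D (algebraMap K (env K A A).B (D c)) := by
  have h := (Algebra.TensorProduct.includeRight :
    A.Bᵐᵒᵖ →ₐ[K] Aph D A.B ⊗[K] A.Bᵐᵒᵖ).commutes c
  refine Eq.trans h ?_
  rw [Algebra.TensorProduct.algebraMap_apply, Aph.eq_add (algebraMap K (Aph D A.B) c), add_tmul]
  rfl

omit [A.KL K] in
lemma two (x : Et A D) : x + x = 0 := by
  rw [← one_mul x, ← add_mul, ← map_one (L A D), ← map_add, A.two, map_zero, zero_mul]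

omit [A.KL K] [A'.KL K] in
lemma map_L (f : A.B →ₐ[K] A'.B) (a : A.B) : map D f (L A D a) = L A' D (f a) := by
  refine (Algebra.TensorProduct.map_tmul _ _ (Aph.inl D A.B a) 1).trans ?_
  rw [map_one]
  exact congrArg (· ⊗ₜ[K] (1 : A'.Bᵐᵒᵖ)) (TrivSqZeroExt.ext rfl (map_zero f))

omit [A.KL K] [A'.KL K] in
lemma map_R (f : A.B →ₐ[K] A'.B) (b : A.Bᵐᵒᵖ) : map D f (R A D b) = R A' D (op (f b.unop)) := by
  refine (Algebra.TensorProduct.map_tmul _ _ 1 b).trans ?_
  rw [map_one]
  rfl

lemma map_eps (f : A.B →ₐ[K] A'.B) (y : (env K A A).B) :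
    map D f (eps A D y) = eps A' D (envMap f y) := by
  induction y using tens_ind with
  | zero => simp
  | add u v hu hv => simp only [map_add, hu, hv]
  | tmul u v =>
    refine (Algebra.TensorProduct.map_tmul _ _ (Aph.inr D A.B u) v).trans ?_
    exact congrArg (· ⊗ₜ[K] (op (f v.unop))) (TrivSqZeroExt.ext (map_zero f) rfl)

lemma pr_map (f : A.B →ₐ[K] A'.B) (x : Et A D) : pr A' D (map D f x) = envMap f (pr A D x) := by
  induction x using ind with
  | lr a b => rw [map_mul, map_L, map_R, pr_LR, pr_LR, envMap_tm]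
  | ep y => rw [map_eps, pr_eps, pr_eps, map_zero]
  | add u v hu hv => simp only [map_add, hu, hv]

end Et

variable {A} in
/-- A lift of the differential of `q` over the square zero extension, with square `ε κ`. -/
structure Lift (q : Tw (env K A A)) (κ : q.I → (Fr q).H) where
  δ : Matrix q.I q.I (Et A D)
  pr : ∀ i j, Et.pr A D (δ i j) = q.δ i j
  l : ∀ i j, Et.e A D (q.ob i) * δ i j = δ i j
  r : ∀ i j, δ i j * Et.e A D (q.ob j) = δ i j
  deg : ∀ i j, q.deg j ≠ q.deg i + 1 → δ i j = 0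
  sq : δ * δ = (Fr.mat κ).map (Et.eps A D)

end FMD
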