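import Pool.Agent.MP_0e6a9f_ag.H19.Glue

/-! Semifree bimodules on extensions and shifts; resolutions; the bimodule `Qa + Qb + Qw`. -/

open MulOpposite

noncomputable section
namespace FMD
open _root_.FMD.DGR _root_.FMD.Bimod

variable {K : Type} [Field K] {C C' : DGR} [Algebra K C.B] [Algebra K C'.B] [C.KL K] [C'.KL K]

namespace Fr
variable {x y : Tw (env K C C')}

/-- The matrix of a family of rows. -/
def mat (m : y.I → (Fr x).H) : Matrix y.I x.I (env K C C').B := fun i j => val x (m i) j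

lemma val_lift (m : y.I → (Fr x).H) (v : (Fr y).H) (j : x.I) :
    val x (lift y (Fr x) m v) j = ∑ i, val y v i * mat m i j := by
  simp only [lift_apply, map_sum, Finset.sum_apply, val_act, mat]

lemma mat_mem {n : ℤ} {m : y.I → (Fr x).H} (hm : m ∈ bhGr y (Fr x) n) :
    mat m ∈ (env K C C').self.twGr x y n := fun i j =>
  (env K C C').mem_self_cor.2 ⟨(hm i).1 j, by
    have := congrArg (val x · j) (hm i).2
    simp only [← act_e (K := K), val_act] at this
    exact this, val_e _ _⟩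

lemma twD_mat (m : y.I → (Fr x).H) :
    (env K C C').self.twD x y (mat m) = mat (bhD y (Fr x) m) := by
  rw [self_twD]
  ext i j
  simp only [mat, bhD_apply, map_add, map_sum, Pi.add_apply, Finset.sum_apply, val_d,
    val_act, Matrix.add_apply, Matrix.map_apply, Matrix.mul_apply]
  abel

/-- The rows of a matrix. -/
def rows (f : Matrix y.I x.I (env K C C').B) (i : y.I) : (Fr x).H := mk x (f i)

lemma mat_rows {n : ℤ} {f : Matrix y.I x.I (env K C C').B}
    (hf : f ∈ (env K C C').self.twGr x y n) : mat (rows f) = f := by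
  ext i j; exact ((env K C C').mem_self_cor.1 (hf i j)).2.2

lemma rows_mem {n : ℤ} {f : Matrix y.I x.I (env K C C').B}
    (hf : f ∈ (env K C C').self.twGr x y n) : rows f ∈ bhGr y (Fr x) n := fun i => by
  have e : ∀ j, val x (rows f i) j = f i j := fun j => congrFun (congrFun (mat_rows hf) i) j
  exact ⟨Fr.mem_gr.2 fun j => (e j).symm ▸ (hf i j).1, ext fun j => by
    rw [← act_e (K := K), val_act, e]; exact ((env K C C').mem_self_cor.1 (hf i j)).2.1⟩

lemma mat_injective : Function.Injective (mat : (y.I → (Fr x).H) → _) :=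
  fun _ _ h => funext fun i => ext fun j => congrFun (congrFun h i) j

variable (x) in
/-- `Fr (x[k])` is `Fr x` with all degrees raised by `k`. -/
def sh (k : ℤ) : (Fr x).H ≃+ (Fr (x.shift k)).H := AddEquiv.refl _

lemma sh_mem {k n : ℤ} {v : (Fr x).H} : sh x k v ∈ (Fr (x.shift k)).gr (n + k) ↔ v ∈ (Fr x).gr n :=
  forall_congr' fun i => by
    rw [show n + k - (x.shift k).deg i = n - x.deg i by dsimp only; ring]; rfl

section Ext
variable {f : Matrix y.I x.I (env K C C').B} {hf : f ∈ (env K C C').self.twGr x y 1}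
  {hd : (env K C C').self.twD x y f = 0}

variable (hf hd)

/-- The subcomplex. -/
def inl : (Fr x).H →+ (Fr (x.ext y f hf hd)).H :=
  AddMonoidHom.mk' (fun v => ⟨Sum.elim (val x v) 0, by
    rintro (i | i); exacts [val_e v i, zero_mul _]⟩) fun a b => ext (by
      rintro (i | i); exacts [rfl, (add_zero (0 : (env K C C').B)).symm])

/-- The complement. -/
def inr : (Fr y).H →+ (Fr (x.ext y f hf hd)).H :=
  AddMonoidHom.mk' (fun v => ⟨Sum.elim 0 (val y v), by
    rintro (i | i); exacts [zero_mul _, val_e v i]⟩) fun a b => ext (by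
      rintro (i | i); exacts [(add_zero (0 : (env K C C').B)).symm, rfl])

/-- The component in the subcomplex. -/
def fst : (Fr (x.ext y f hf hd)).H →+ (Fr x).H :=
  AddMonoidHom.mk' (fun v => ⟨fun i => val _ v (Sum.inl i), fun i => val_e v (Sum.inl i)⟩)
    fun _ _ => rfl

/-- The projection to the quotient. -/
def snd : (Fr (x.ext y f hf hd)).H →+ (Fr y).H :=
  AddMonoidHom.mk' (fun v => ⟨fun i => val _ v (Sum.inr i), fun i => val_e v (Sum.inr i)⟩)
    fun _ _ => rfl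

variable {hf hd}

@[simp] lemma fst_inl (v) : fst hf hd (inl hf hd v) = v := rfl
@[simp] lemma snd_inl (v) : snd hf hd (inl hf hd v) = 0 := rfl
@[simp] lemma fst_inr (v) : fst hf hd (inr hf hd v) = 0 := rfl
@[simp] lemma snd_inr (v) : snd hf hd (inr hf hd v) = v := rfl

lemma ext_ext {u v : (Fr (x.ext y f hf hd)).H} (h₁ : fst hf hd u = fst hf hd v)
    (h₂ : snd hf hd u = snd hf hd v) : u = v := ext (by
  rintro (i | i); exacts [congrArg (val x · i) h₁, congrArg (val y · i) h₂])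

lemma inl_add_inr (v) : inl hf hd (fst hf hd v) + inr hf hd (snd hf hd v) = v :=
  ext_ext (by simp) (by simp)

lemma ext_mem {n : ℤ} {v : (Fr (x.ext y f hf hd)).H} : v ∈ (Fr (x.ext y f hf hd)).gr n ↔
    fst hf hd v ∈ (Fr x).gr n ∧ snd hf hd v ∈ (Fr y).gr n := Sum.forall

lemma fst_isLin : IsLin _ _ (fst hf hd) := ⟨fun _ _ => rfl, fun _ _ => rfl⟩
lemma snd_isLin : IsLin _ _ (snd hf hd) := ⟨fun _ _ => rfl, fun _ _ => rfl⟩

lemma inl_isLin : IsLin _ _ (inl hf hd) :=
  ⟨fun _ _ => ext_ext rfl (by simp [snd_isLin.l]), fun _ _ => ext_ext rfl (by simp [snd_isLin.r])⟩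

lemma inr_isLin : IsLin _ _ (inr hf hd) :=
  ⟨fun _ _ => ext_ext (by simp [fst_isLin.l]) rfl, fun _ _ => ext_ext (by simp [fst_isLin.r]) rfl⟩

lemma snd_d (v) : snd hf hd ((Fr (x.ext y f hf hd)).d v) = (Fr y).d (snd hf hd v) := ext fun j => by
  change val _ ((Fr (x.ext y f hf hd)).d v) (Sum.inr j) = _
  rw [val_d, val_d, Fintype.sum_sum_type]
  simp only [Matrix.fromBlocks_apply₁₂, Matrix.zero_apply, mul_zero, Finset.sum_const_zero,
    zero_add, Matrix.fromBlocks_apply₂₂]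
  rfl

lemma fst_d (v) : fst hf hd ((Fr (x.ext y f hf hd)).d v) =
    (Fr x).d (fst hf hd v) + lift y (Fr x) (rows f) (snd hf hd v) := ext fun j => by
  change val _ ((Fr (x.ext y f hf hd)).d v) (Sum.inl j) = _
  rw [map_add, Pi.add_apply, val_lift, mat_rows hf, val_d, val_d, Fintype.sum_sum_type, add_assoc]
  rfl

lemma inl_gen (i) : inl hf hd (gen x i) = gen (x.ext y f hf hd) (Sum.inl i) := ext (by
  rintro (j | j)
  · rw [val_gen]; exact (val_gen i j).trans (by simp)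
  · rw [val_gen]; rfl)

lemma inr_gen (i) : inr hf hd (gen y i) = gen (x.ext y f hf hd) (Sum.inr i) := ext (by
  rintro (j | j)
  · rw [val_gen]; rfl
  · rw [val_gen]; exact (val_gen i j).trans (by simp))

lemma inl_isHom : IsHom _ _ (inl hf hd) :=
  ⟨fun h => ext_mem.2 ⟨h, zero_mem _⟩, fun v => ext_ext (by simp [fst_d]) (by simp [snd_d]),
    inl_isLin.l, inl_isLin.r⟩

lemma snd_isHom : IsHom _ _ (snd hf hd) :=
  ⟨fun h => (ext_mem.1 h).2, fun v => (snd_d v).symm, snd_isLin.l, snd_isLin.r⟩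

lemma ext_ses : Cx.SES (Fr x).cx (Fr (x.ext y f hf hd)).cx (Fr y).cx (inl hf hd) (snd hf hd) :=
  ⟨inl_isHom.isMap, snd_isHom.isMap, fun _ _ _ h => congrArg (fst hf hd) h, fun _ _ _ => rfl,
    fun _ v hv h => ⟨fst hf hd v, (ext_mem.1 hv).1, ext_ext rfl (Eq.symm h)⟩,
    fun _ w hw => ⟨inr hf hd w, ext_mem.2 ⟨zero_mem _, hw⟩, rfl⟩⟩

variable (M : Bimod C C') [Module K M.H] [IsScalarTower K C'.B M.H] [IsScalarTower K C.Bᵐᵒᵖ M.H]

lemma bhD_ext_inl (m : x.I ⊕ y.I → M.H) (i : x.I) :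
    bhD (x.ext y f hf hd) M m (Sum.inl i) = bhD x M (fun j => m (Sum.inl j)) i := by
  rw [bhD_apply, bhD_apply, Fintype.sum_sum_type]
  simp

lemma bhD_ext_inr (m : x.I ⊕ y.I → M.H) (i : y.I) :
    bhD (x.ext y f hf hd) M m (Sum.inr i) =
      bhD y M (fun j => m (Sum.inr j)) i + ∑ j, M.act K (f i j) (m (Sum.inl j)) := by
  rw [bhD_apply, bhD_apply, Fintype.sum_sum_type, add_assoc, add_comm (∑ j : x.I, _)]
  rfl

end Ext
end Fr

/-- A category concentrated in degree 0. -/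
structure Deg0 (A : DGR) : Prop where
  mem : ∀ b, b ∈ A.gr 0
  zero : ∀ {n b}, b ∈ A.gr n → n ≠ 0 → b = 0

lemma Deg0.d {A : DGR} (h : Deg0 A) (b : A.B) : A.d b = 0 :=
  h.zero (A.d_mem (h.mem b)) (by norm_num)

lemma Deg0.op {A : DGR} (h : Deg0 A) : Deg0 A.op :=
  ⟨fun b => h.mem b.unop, fun hb hn => unop_injective (h.zero hb hn)⟩

lemma Deg0.tens (h : Deg0 C) (h' : Deg0 C') : Deg0 (tens K C C') :=
  ⟨fun b => tens_ind b (zero_mem _) (fun x y => tm_mem (h.mem x) (h'.mem y) rfl)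
      fun _ _ => add_mem,
    fun hb hn => tens_gr_le (AddMonoidHom.id _) ⊥ (fun i j x y hx hy e => by
      by_cases hi : i = 0
      · simp [h'.zero hy (by omega)]
      · simp [h.zero hx hi]) hb⟩

variable (K C) in
/-- A finite semifree resolution of the diagonal bimodule. -/
structure Res where
  q : Tw (env K C C)
  a : q.I → C.B
  a_mem : a ∈ bhGr q C.self 0
  a_d : bhD q C.self a = 0
  qis : Cx.Qis (Fr q).cx C.self.cx (lift q C.self a)

/-- The augmentation. -/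
abbrev Res.aug (R : Res K C) : (Fr R.q).H →+ C.B := lift R.q C.self R.a

lemma Res.aug_isHom (R : Res K C) : IsHom (Fr R.q) C.self R.aug := lift_isHom R.a_mem R.a_d

section NT
variable (q : Tw (env K C C')) (η : q.I → (Fr q).H) (hη : η ∈ bhGr q (Fr q) 4)
  (hd : bhD q (Fr q) η = 0)

/-- The generators `q b` (degree `-3`) and `q w` (degree `4`). -/
abbrev bw : Tw (env K C C') := (q.shift (-3)).sum (q.shift 4)

include hη in
lemma nT_mem : Matrix.fromCols (Fr.mat η) 0 ∈ (env K C C').self.twGr (bw q) q 1 := by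
  rintro i (j | j)
  exacts [cor_cast (Fr.mat_mem hη i j) (by dsimp; ring), zero_mem _]

include hd in
lemma nT_d : (env K C C').self.twD (bw q) q (Matrix.fromCols (Fr.mat η) 0) = 0 := by
  have h := Fr.twD_mat η
  rw [hd, self_twD] at h
  rw [self_twD, Matrix.fromCols_mul_fromBlocks, Matrix.mul_fromCols]
  ext i (j | j)
  · refine Eq.trans ?_ (congrFun (congrFun h i) j)
    simp
    rfl
  · simp

/-- The bimodule `Qa + Qb + Qw` with `d (p a) = (d p) a + η p b`. -/
abbrev nT : Tw (env K C C') := (bw q).ext q _ (nT_mem q η hη) (nT_d q η hd)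

/-- `p ↦ p a`. -/
def ia : (Fr q).H →+ (Fr (nT q η hη hd)).H := Fr.inr (nT_mem q η hη) (nT_d q η hd)
/-- `p ↦ p b`. -/
def ib : (Fr q).H →+ (Fr (nT q η hη hd)).H :=
  (Fr.inl (nT_mem q η hη) (nT_d q η hd)).comp ((Fr.inl (x := q.shift (-3)) (y := q.shift 4)
    (zero_mem _) (map_zero _)).comp (Fr.sh q (-3)).toAddMonoidHom)
/-- `p ↦ p w`. -/
def iw : (Fr q).H →+ (Fr (nT q η hη hd)).H :=
  (Fr.inl (nT_mem q η hη) (nT_d q η hd)).comp ((Fr.inr (x := q.shift (-3)) (y := q.shift 4)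
    (zero_mem _) (map_zero _)).comp (Fr.sh q 4).toAddMonoidHom)
/-- The coefficient of `a`. -/
def pa : (Fr (nT q η hη hd)).H →+ (Fr q).H := Fr.snd (nT_mem q η hη) (nT_d q η hd)
/-- The coefficient of `b`. -/
def pb : (Fr (nT q η hη hd)).H →+ (Fr q).H :=
  (Fr.sh q (-3)).symm.toAddMonoidHom.comp ((Fr.fst (x := q.shift (-3)) (y := q.shift 4)
    (zero_mem _) (map_zero _)).comp (Fr.fst (nT_mem q η hη) (nT_d q η hd)))
/-- The coefficient of `w`. -/
def pw : (Fr (nT q η hη hd)).H →+ (Fr q).H :=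
  (Fr.sh q 4).symm.toAddMonoidHom.comp ((Fr.snd (x := q.shift (-3)) (y := q.shift 4)
    (zero_mem _) (map_zero _)).comp (Fr.fst (nT_mem q η hη) (nT_d q η hd)))

variable {q η hη hd}

@[simp] lemma pa_ia (v) : pa q η hη hd (ia q η hη hd v) = v := rfl
@[simp] lemma pb_ia (v) : pb q η hη hd (ia q η hη hd v) = 0 := rfl
@[simp] lemma pw_ia (v) : pw q η hη hd (ia q η hη hd v) = 0 := rfl
@[simp] lemma pa_ib (v) : pa q η hη hd (ib q η hη hd v) = 0 := rfl
@[simp] lemma pb_ib (v) : pb q η hη hd (ib q η hη hd v) = v := rfl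
@[simp] lemma pw_ib (v) : pw q η hη hd (ib q η hη hd v) = 0 := rfl
@[simp] lemma pa_iw (v) : pa q η hη hd (iw q η hη hd v) = 0 := rfl
@[simp] lemma pb_iw (v) : pb q η hη hd (iw q η hη hd v) = 0 := rfl
@[simp] lemma pw_iw (v) : pw q η hη hd (iw q η hη hd v) = v := rfl

lemma nT_ext {u v : (Fr (nT q η hη hd)).H} (ha : pa q η hη hd u = pa q η hη hd v)
    (hb : pb q η hη hd u = pb q η hη hd v) (hw : pw q η hη hd u = pw q η hη hd v) : u = v :=
  Fr.ext_ext (Fr.ext_ext hb hw) ha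

lemma nT_gr {n : ℤ} {v : (Fr (nT q η hη hd)).H} : v ∈ (Fr (nT q η hη hd)).gr n ↔
    pa q η hη hd v ∈ (Fr q).gr n ∧ pb q η hη hd v ∈ (Fr q).gr (n + 3) ∧
      pw q η hη hd v ∈ (Fr q).gr (n - 4) := by
  rw [Fr.ext_mem, Fr.ext_mem, and_comm, ← Fr.sh_mem (k := -3) (n := n + 3),
    ← Fr.sh_mem (k := 4) (n := n - 4), show n + 3 + -3 = n by ring, sub_add_cancel]
  rfl

lemma pa_isLin : IsLin _ _ (pa q η hη hd) := ⟨fun _ _ => rfl, fun _ _ => rfl⟩
lemma pb_isLin : IsLin _ _ (pb q η hη hd) := ⟨fun _ _ => rfl, fun _ _ => rfl⟩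
lemma pw_isLin : IsLin _ _ (pw q η hη hd) := ⟨fun _ _ => rfl, fun _ _ => rfl⟩

lemma ia_isLin : IsLin _ _ (ia q η hη hd) := Fr.inr_isLin

lemma ib_isLin : IsLin _ _ (ib q η hη hd) :=
  ⟨fun _ _ => nT_ext (by simp [pa_isLin.l]) rfl (by simp [pw_isLin.l]),
    fun _ _ => nT_ext (by simp [pa_isLin.r]) rfl (by simp [pw_isLin.r])⟩

lemma iw_isLin : IsLin _ _ (iw q η hη hd) :=
  ⟨fun _ _ => nT_ext (by simp [pa_isLin.l]) (by simp [pb_isLin.l]) rfl,
    fun _ _ => nT_ext (by simp [pa_isLin.r]) (by simp [pb_isLin.r]) rfl⟩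

lemma pa_d (v) : pa q η hη hd ((Fr _).d v) = (Fr q).d (pa q η hη hd v) := Fr.snd_d v

lemma pb_d (v) : pb q η hη hd ((Fr _).d v) =
    (Fr q).d (pb q η hη hd v) + lift q (Fr q) η (pa q η hη hd v) := Fr.ext fun j => by
  change Fr.val _ ((Fr (nT q η hη hd)).d v) (Sum.inl (Sum.inl j)) = _
  rw [map_add, Pi.add_apply, Fr.val_lift, Fr.val_d, Fr.val_d, Fintype.sum_sum_type,
    Fintype.sum_sum_type, add_assoc ((env K C C').d _)]
  simp only [Matrix.fromBlocks_apply₁₁, Matrix.fromBlocks_apply₂₁, Matrix.zero_apply, mul_zero,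
    Finset.sum_const_zero, add_zero, Matrix.fromCols_apply_inl]
  rfl

lemma pw_d (v) : pw q η hη hd ((Fr _).d v) = (Fr q).d (pw q η hη hd v) := Fr.ext fun j => by
  change Fr.val _ ((Fr (nT q η hη hd)).d v) (Sum.inl (Sum.inr j)) = _
  rw [Fr.val_d, Fr.val_d, Fintype.sum_sum_type, Fintype.sum_sum_type]
  simp only [Matrix.fromBlocks_apply₁₁, Matrix.fromBlocks_apply₂₁, Matrix.zero_apply, mul_zero,
    Finset.sum_const_zero, add_zero, Matrix.fromCols_apply_inr, Matrix.fromBlocks_apply₁₂,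
    Matrix.fromBlocks_apply₂₂, zero_add]
  rfl

end NT
end FMD
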