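import Pool.Agent.MP_0e6a9f_ag.H19.TwOps

/-! Semifree central bimodules: rows over the enveloping category; maps out of them. -/

open MulOpposite TensorProduct

noncomputable section
namespace FMD
open _root_.FMD.DGR _root_.FMD.Bimod

/-- Rows whose `i`-th entry is fixed by the idempotent of `ob i`. -/
def Row (E : DGR) {I : Type} (ob : I → E.O) : Submodule E.B (I → E.B) where
  carrier := {x | ∀ i, x i * E.e (ob i) = x i}
  add_mem' ha hb i := by rw [Pi.add_apply, add_mul, ha i, hb i]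
  zero_mem' _ := zero_mul _
  smul_mem' c x hx i := by rw [Pi.smul_apply, smul_eq_mul, mul_assoc, hx i]

/-- The differential on rows. -/
def rowD {E : DGR} (y : Tw E) : Row E y.ob →+ Row E y.ob :=
  AddMonoidHom.mk' (fun x => ⟨fun j => E.d (x.1 j) + ∑ i, x.1 i * y.δ i j, fun j => by
    have h := E.d_mul (x.1 j) (E.e (y.ob j))
    rw [x.2 j, E.d_e, mul_zero, add_zero] at h
    rw [add_mul, ← h, Finset.sum_mul]
    simp only [mul_assoc, (E.mem_self_cor.1 (y.δ_mem _ j)).2.2]⟩) fun a b => by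
      ext j; simp [add_mul, Finset.sum_add_distrib]; abel

lemma rowD_val {E : DGR} (y : Tw E) (x : Row E y.ob) (j : y.I) :
    (rowD y x).1 j = E.d (x.1 j) + ∑ i, x.1 i * y.δ i j := rfl

lemma rowD_smul {E : DGR} (y : Tw E) (c : E.B) (x : Row E y.ob) :
    rowD y (c • x) = E.d c • x + c • rowD y x := by
  ext j
  simp [rowD_val, E.d_mul, mul_add, Finset.mul_sum, mul_assoc, add_assoc]

lemma rowD_rowD {E : DGR} (y : Tw E) (x : Row E y.ob) : rowD y (rowD y x) = 0 := by
  ext j
  have h : ∀ i, E.d (y.δ i j) = ∑ k, y.δ i k * y.δ k j := fun i => congrFun (congrFun y.mc i) j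
  have e : ∑ i, x.1 i * ∑ k, y.δ i k * y.δ k j = ∑ k, (∑ i, x.1 i * y.δ i k) * y.δ k j := by
    simp only [Finset.mul_sum, Finset.sum_mul, mul_assoc]; exact Finset.sum_comm
  simp only [rowD_val, map_add, map_sum, E.d_d, E.d_mul, h, add_mul, Finset.sum_add_distrib, e,
    zero_add, E.two]
  rfl

variable {K : Type} [Field K] {C C' : DGR} [Algebra K C.B] [Algebra K C'.B] [C.KL K] [C'.KL K]

/-- The semifree bimodule with generators `y.I` and differential `y.δ`. -/
def Fr (y : Tw (env K C C')) : Bimod C C' :=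
  letI : Module C'.B (Row _ y.ob) := Module.compHom _ (inL K C' C.op).toRingHom
  letI : Module C.Bᵐᵒᵖ (Row _ y.ob) := Module.compHom _ (inR K C' C.op).toRingHom
  { H := Row _ y.ob
    comm := ⟨fun a b m => by
      change tm K C' C.op a 1 • tm K C' C.op 1 b • m = tm K C' C.op 1 b • tm K C' C.op a 1 • m
      simp [smul_smul, tm_mul]⟩
    gr := fun n =>
      { carrier := {x | ∀ i, x.1 i ∈ (env K C C').gr (n - y.deg i)}
        add_mem' := fun ha hb i => add_mem (ha i) (hb i)
        zero_mem' := fun _ => zero_mem _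
        neg_mem' := fun ha i => neg_mem (ha i) }
    d := rowD y
    d_mem := fun hx j => add_mem (DGR.mem_cast _ (DGR.d_mem _ (hx j)) (by ring))
      (sum_mem fun i _ => DGR.mem_cast _ (DGR.mul_mem _ (hx i) (y.δ_mem i j).1) (by ring))
    d_d := rowD_rowD y
    l_mem := fun hb hx i => DGR.mem_cast _
      (DGR.mul_mem (env K C C') (tm_mem hb C.op.one_mem rfl) (hx i)) (by ring)
    r_mem := fun hb hx i => DGR.mem_cast _
      (DGR.mul_mem (env K C C') (tm_mem C'.one_mem (C.op_mem.2 hb) rfl) (hx i)) (by ring)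
    d_l := fun b x => (rowD_smul y (tm K C' C.op b 1) x).trans (by
      rw [d_tm, C.op.d_one, tm_zero, add_zero]; rfl)
    d_r := fun b x => (rowD_smul y (tm K C' C.op 1 (op b)) x).trans (by
      rw [d_tm, C'.d_one, zero_tm, zero_add, add_comm]; rfl) }

namespace Fr
variable (y : Tw (env K C C'))

instance : Module K (Fr y).H := inferInstanceAs (Module K (Row _ y.ob))

/-- The coordinates. -/
def val : (Fr y).H →ₗ[K] (y.I → (env K C C').B) := (Row _ y.ob).subtype.restrictScalars K

variable {y}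

lemma ext {u v : (Fr y).H} (h : ∀ i, val y u i = val y v i) : u = v := Subtype.ext (funext h)

lemma val_e (v : (Fr y).H) (i : y.I) : val y v i * (env K C C').e (y.ob i) = val y v i := v.2 i

lemma val_l (b : C'.B) (v : (Fr y).H) (i : y.I) :
    val y (b • v) i = tm K C' C.op b 1 * val y v i := rfl

lemma val_r (b : C.Bᵐᵒᵖ) (v : (Fr y).H) (i : y.I) :
    val y (b • v) i = tm K C' C.op 1 b * val y v i := rfl

lemma val_d (v : (Fr y).H) (j : y.I) :
    val y ((Fr y).d v) j = (env K C C').d (val y v j) + ∑ i, val y v i * y.δ i j := rfl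

lemma mem_gr {n : ℤ} {v : (Fr y).H} :
    v ∈ (Fr y).gr n ↔ ∀ i, val y v i ∈ (env K C C').gr (n - y.deg i) := Iff.rfl

instance : IsScalarTower K C'.B (Fr y).H := ⟨fun c b v => ext fun i => by
  rw [val_l, (val y).map_smul, Pi.smul_apply, val_l, smul_tm, smul_mul_assoc]⟩

instance : IsScalarTower K C.Bᵐᵒᵖ (Fr y).H := ⟨fun c b v => ext fun i => by
  rw [val_r, (val y).map_smul, Pi.smul_apply, val_r, tm_smul (C' := C.op), smul_mul_assoc]⟩

lemma val_act (x : (env K C C').B) (v : (Fr y).H) (i : y.I) :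
    val y ((Fr y).act K x v) i = x * val y v i := by
  induction x using tens_ind with
  | zero => simp
  | add a b ha hb => simp only [map_add, LinearMap.add_apply, Pi.add_apply, ha, hb, add_mul]
  | tmul a b => rw [act_tm, val_l, val_r, ← mul_assoc, tm_mul, mul_one, one_mul]

variable (y) in
/-- The row cut out of an arbitrary family. -/
def mk (x : y.I → (env K C C').B) : (Fr y).H :=
  ⟨fun i => x i * (env K C C').e (y.ob i), fun i => by rw [mul_assoc, e_mul_self]⟩

lemma val_mk (x : y.I → (env K C C').B) (i : y.I) :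
    val y (mk y x) i = x i * (env K C C').e (y.ob i) := rfl

variable (y) in
/-- The generators. -/
def gen (i : y.I) : (Fr y).H := mk y (Pi.single i 1)

lemma val_gen (i j : y.I) :
    val y (gen y i) j = if j = i then (env K C C').e (y.ob i) else 0 := by
  rw [gen, val_mk]
  by_cases h : j = i <;> simp [h]

lemma sum_gen (v : (Fr y).H) : ∑ i, (Fr y).act K (val y v i) (gen y i) = v := ext fun j => by
  simp only [map_sum, Finset.sum_apply, val_act, val_gen, mul_ite, mul_zero, Finset.sum_ite_eq,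
    Finset.mem_univ, if_true, val_e]

lemma gen_mem (i : y.I) : gen y i ∈ (Fr y).cor (y.ob i).2 (y.ob i).1 (y.deg i) :=
  ⟨fun j => by
    change val y (gen y i) j ∈ (env K C C').gr _
    rw [val_gen]
    split_ifs with h
    · exact DGR.mem_cast _ (DGR.e_mem _ _) (by rw [h, sub_self])
    · exact zero_mem _,
   ext fun j => by
    rw [← act_e (K := K), val_act, val_gen]
    split_ifs
    · exact e_mul_self _ _
    · exact mul_zero _⟩

lemma d_gen (i : y.I) : (Fr y).d (gen y i) = ∑ j, (Fr y).act K (y.δ i j) (gen y j) := by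
  rw [← sum_gen ((Fr y).d (gen y i))]
  refine Finset.sum_congr rfl fun j _ => ?_
  congr 2
  rw [val_d]
  simp only [val_gen, apply_ite (env K C C').d, DGR.d_e, map_zero, ite_self, zero_add, ite_mul,
    zero_mul, Finset.sum_ite_eq', Finset.mem_univ, if_true]
  exact (((env K C C').mem_self_cor).1 (y.δ_mem i j)).2.1

end Fr

variable (y : Tw (env K C C'))
  (M : Bimod C C') [Module K M.H] [IsScalarTower K C'.B M.H] [IsScalarTower K C.Bᵐᵒᵖ M.H]

/-- Values on the generators, of degree `n`. -/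
def bhGr (n : ℤ) : AddSubgroup (y.I → M.H) where
  carrier := {m | ∀ i, m i ∈ M.cor (y.ob i).2 (y.ob i).1 (n + y.deg i)}
  add_mem' ha hb i := add_mem (ha i) (hb i)
  zero_mem' _ := zero_mem _
  neg_mem' ha i := neg_mem (ha i)

/-- The differential on the values on the generators. -/
def bhD : (y.I → M.H) →+ (y.I → M.H) :=
  AddMonoidHom.mk' (fun m i => M.d (m i) + ∑ j, M.act K (y.δ i j) (m j)) fun a b => by
    ext i; simp [Finset.sum_add_distrib]; abel

lemma bhD_apply (m : y.I → M.H) (i : y.I) :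
    bhD y M m i = M.d (m i) + ∑ j, M.act K (y.δ i j) (m j) := rfl

lemma bhD_bhD (m : y.I → M.H) : bhD y M (bhD y M m) = 0 := by
  ext i
  have h : ∀ j, (env K C C').d (y.δ i j) = ∑ k, y.δ i k * y.δ k j :=
    fun j => congrFun (congrFun y.mc i) j
  have e : ∑ j, ∑ k, M.act K (y.δ i k * y.δ k j) (m j) =
      ∑ k, ∑ j, M.act K (y.δ i k * y.δ k j) (m j) := Finset.sum_comm
  simp only [bhD_apply, map_add, map_sum, M.d_d, M.d_act, h, Finset.sum_add_distrib,
    LinearMap.sum_apply, act_act, e, zero_add]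
  rw [add_comm (∑ k, ∑ j, _), M.two]
  rfl

lemma bhD_smul (c : K) (m : y.I → M.H) : bhD y M (c • m) = c • bhD y M m := by
  ext i; simp [bhD_apply, M.d_smul, Finset.smul_sum]

/-- The complex of bimodule maps `Fr y → M`. -/
@[reducible] def BH : Cx where
  V := y.I → M.H
  gr := bhGr y M
  d := bhD y M
  two _ := funext fun _ => M.two _
  d_mem h i := add_mem (cor_cast (M.d_mem_cor (h i)) (by ring))
    (sum_mem fun j _ => cor_cast (M.act_mem_cor (y.δ_mem i j) (h j).1) (by ring))
  d_d _ := bhD_bhD y M _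

/-- The bimodule map with given values on the generators. -/
def lift (m : y.I → M.H) : (Fr y).H →+ M.H :=
  AddMonoidHom.mk' (fun v => ∑ i, M.act K (Fr.val y v i) (m i)) fun a b => by
    simp [Finset.sum_add_distrib]

variable {y M}

lemma lift_apply (m : y.I → M.H) (v : (Fr y).H) :
    lift y M m v = ∑ i, M.act K (Fr.val y v i) (m i) := rfl

lemma lift_add (m m' : y.I → M.H) (v : (Fr y).H) :
    lift y M (m + m') v = lift y M m v + lift y M m' v := by
  simp [lift_apply, Finset.sum_add_distrib]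

lemma lift_smul (c : K) (m : y.I → M.H) (v : (Fr y).H) :
    lift y M (c • m) v = c • lift y M m v := by simp [lift_apply, Finset.smul_sum]

@[simp] lemma lift_zero (v : (Fr y).H) : lift y M 0 v = 0 := by simp [lift_apply]

lemma lift_act (m : y.I → M.H) (x : (env K C C').B) (v : (Fr y).H) :
    lift y M m ((Fr y).act K x v) = M.act K x (lift y M m v) := by
  simp only [lift_apply, map_sum, Fr.val_act, act_act]

lemma lift_isLin (m : y.I → M.H) : IsLin (Fr y) M (lift y M m) :=
  ⟨fun b v => by simpa [act_tm] using lift_act m (tm K C' C.op b 1) v,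
    fun b v => by simpa [act_tm] using lift_act m (tm K C' C.op 1 (op b)) v⟩

lemma lift_gen' (m : y.I → M.H) (i : y.I) :
    lift y M m (Fr.gen y i) = M.pr (y.ob i).2 (y.ob i).1 (m i) := by
  simp only [lift_apply, Fr.val_gen, apply_ite (M.act K), map_zero, DFunLike.ite_apply,
    LinearMap.zero_apply, Finset.sum_ite_eq', Finset.mem_univ, if_true, act_e]

lemma lift_gen {n : ℤ} {m : y.I → M.H} (hm : m ∈ bhGr y M n) (i : y.I) :
    lift y M m (Fr.gen y i) = m i := (lift_gen' m i).trans (hm i).2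

lemma lift_mem {n k : ℤ} {m : y.I → M.H} (hm : m ∈ bhGr y M k) {v : (Fr y).H}
    (hv : v ∈ (Fr y).gr n) : lift y M m v ∈ M.gr (n + k) :=
  sum_mem fun i _ => M.mem_cast (M.act_mem (hv i) (hm i).1) (by ring)

lemma d_lift (m : y.I → M.H) (v : (Fr y).H) :
    M.d (lift y M m v) = lift y M m ((Fr y).d v) + lift y M (bhD y M m) v := by
  have e : ∑ j, ∑ i, M.act K (Fr.val y v i * y.δ i j) (m j) =
      ∑ i, ∑ j, M.act K (Fr.val y v i * y.δ i j) (m j) := Finset.sum_comm
  simp only [lift_apply, map_sum, M.d_act, Fr.val_d, bhD_apply, map_add, LinearMap.add_apply,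
    LinearMap.sum_apply, Finset.sum_add_distrib, act_act, e]
  rw [add_assoc, add_comm (∑ i, M.act K _ (M.d _)), ← add_assoc (∑ i, ∑ j, _), M.two, zero_add]

lemma lift_isHom {m : y.I → M.H} (hm : m ∈ bhGr y M 0) (hd : bhD y M m = 0) :
    IsHom (Fr y) M (lift y M m) :=
  ⟨fun hv => M.mem_cast (lift_mem hm hv) (add_zero _), fun v => by
    rw [d_lift, hd, lift_zero, add_zero], (lift_isLin m).l, (lift_isLin m).r⟩

lemma lift_gen_id (v : (Fr y).H) : lift y (Fr y) (Fr.gen y) v = v := Fr.sum_gen v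

lemma gen_bhGr : Fr.gen y ∈ bhGr y (Fr y) 0 := fun i => cor_cast (Fr.gen_mem i) (zero_add _).symm

lemma bhD_gen : bhD y (Fr y) (Fr.gen y) = 0 := funext fun i => by
  rw [bhD_apply, Fr.d_gen, (Fr y).two]; rfl

variable {M' : Bimod C C'} [Module K M'.H] [IsScalarTower K C'.B M'.H]
  [IsScalarTower K C.Bᵐᵒᵖ M'.H]

lemma Bimod.IsLin.lift {f : M.H →+ M'.H} (hf : IsLin M M' f) (m : y.I → M.H) (v : (Fr y).H) :
    f (lift y M m v) = lift y M' (fun i => f (m i)) v := by
  simp only [lift_apply, map_sum, hf.act]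

/-- A bimodule map out of `Fr y` is the lift of its values on the generators. -/
lemma Bimod.IsLin.eq_lift {f : (Fr y).H →+ M.H} (hf : IsLin (Fr y) M f) (v : (Fr y).H) :
    f v = FMD.lift y M (fun i => f (Fr.gen y i)) v := by
  rw [← hf.lift, lift_gen_id]

lemma Bimod.IsLin.fr_ext {f g : (Fr y).H →+ M.H} (hf : IsLin (Fr y) M f) (hg : IsLin (Fr y) M g)
    (h : ∀ i, f (Fr.gen y i) = g (Fr.gen y i)) (v : (Fr y).H) : f v = g v := by
  rw [hf.eq_lift, hg.eq_lift, funext h]

/-- The differential of a composite with a bimodule map `f` such that `[d, f] = g`. -/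
lemma Bimod.IsLin.bhD {f : M.H →+ M'.H} {g : M.H → M'.H} (hf : IsLin M M' f)
    (h : ∀ v, M'.d (f v) = f (M.d v) + g v) (m : y.I → M.H) :
    bhD y M' (fun i => f (m i)) = (fun i => f (bhD y M m i)) + fun i => g (m i) := by
  ext i
  simp only [bhD_apply, Pi.add_apply, h, map_add, map_sum, hf.act]
  abel

omit [Module K M.H] [IsScalarTower K C'.B M.H] [IsScalarTower K C.Bᵐᵒᵖ M.H] [Module K M'.H]
  [IsScalarTower K C'.B M'.H] [IsScalarTower K C.Bᵐᵒᵖ M'.H] in
lemma Bimod.IsLin.bhGr {f : M.H →+ M'.H} (hf : IsLin M M' f) {k : ℤ}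
    (hk : ∀ n v, v ∈ M.gr n → f v ∈ M'.gr (n + k)) {n : ℤ} {m : y.I → M.H}
    (hm : m ∈ bhGr y M n) : (fun i => f (m i)) ∈ bhGr y M' (n + k) :=
  fun i => hf.mem_cor (hm i) (M'.mem_cast (hk _ _ (hm i).1) (by ring))

lemma Bimod.IsHom.bh {f : M.H →+ M'.H} (hf : IsHom M M' f) (y : Tw (env K C C')) :
    Cx.IsMap (BH y M) (BH y M') (f.compLeft y.I) :=
  ⟨fun hm i => hf.mem_cor (hm i), fun {_ m} _ =>
    (hf.isLin.bhD (g := 0) (fun v => by rw [hf.comm, Pi.zero_apply, add_zero]) m).trans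
      (add_zero _)⟩

variable (y M) in
/-- The filtration lemma. -/
lemma bh_acycAt (n : ℤ) (h : ∀ i, (M.corCx (y.ob i).2 (y.ob i).1).AcycAt (n + y.deg i)) :
    (BH y M).AcycAt n := by
  classical
  obtain ⟨b, hb⟩ := (Set.finite_range y.ht).bddAbove
  refine Cx.acycAt_of_filt _ n (fun k z => ∀ i, y.ht i < k → z i = 0) (b + 1)
    (fun _ _ _ h => absurd h (by omega))
    (fun z _ hz => funext fun i => hz i (Nat.lt_succ_of_le (hb ⟨i, rfl⟩))) ?_
  intro k z hz h0 hF
  have low : ∀ u : y.I → M.H, (∀ i, y.ht i < k → u i = 0) →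
      ∀ i, y.ht i ≤ k → bhD y M u i = M.d (u i) := by
    intro u hu i hi
    rw [bhD_apply, Finset.sum_eq_zero, add_zero]
    intro l _
    by_cases hl : y.ht l < y.ht i
    · rw [hu l (by omega), map_zero]
    · rw [y.δ_ht i l hl, map_zero, LinearMap.zero_apply]
  have key : ∀ i, ∃ w ∈ M.cor (y.ob i).2 (y.ob i).1 (n - 1 + y.deg i),
      (y.ht i < k → w = 0) ∧ (y.ht i ≤ k → M.d w = z i) := by
    intro i
    by_cases hi : y.ht i = k
    · obtain ⟨w, hw, h1⟩ := h i (z i) (hz i) ((low z hF i hi.le).symm.trans (congrFun h0 i))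
      exact ⟨w, cor_cast hw (by ring), fun h => absurd h (by omega), fun _ => h1⟩
    · exact ⟨0, zero_mem _, fun _ => rfl, fun h => by rw [map_zero, hF i (by omega)]⟩
  choose w hw h1 h2 using key
  refine ⟨w, hw, fun i hi => ?_⟩
  change z i + bhD y M w i = 0
  rw [low w h1 i (by omega), h2 i (by omega), M.two]

variable (y) in
lemma bh_acyc (h : M.cx.Acyc) : (BH y M).Acyc :=
  fun n => bh_acycAt y M n fun _ => M.corCx_acycAt (h _) _ _

/-- Maps out of a semifree bimodule keep quasi-isomorphisms. -/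
lemma Bimod.IsHom.bh_qis {f : M.H →+ M'.H} (hf : IsHom M M' f) (h : Cx.Qis M.cx M'.cx f)
    (y : Tw (env K C C')) : Cx.Qis (BH y M) (BH y M') (f.compLeft y.I) := by
  have key := bh_acyc y (M := cone hf) ((Cx.qis_iff_cone hf.isMap).1 h)
  have p1 : IsLin (cone hf) M (AddMonoidHom.fst M.H M'.H) := ⟨fun _ _ => rfl, fun _ _ => rfl⟩
  have p2 : IsLin (cone hf) M' (AddMonoidHom.snd M.H M'.H) := ⟨fun _ _ => rfl, fun _ _ => rfl⟩
  refine (Cx.qis_iff_cone (hf.bh y)).2 fun n => Cx.Qis.acyc_right (C := BH y (cone hf))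
    (C' := Cx.cone (hf.bh y)) (f := ((AddMonoidHom.fst M.H M'.H).compLeft y.I).prod
      ((AddMonoidHom.snd M.H M'.H).compLeft y.I))
    (Cx.Qis.of_bij ⟨fun hv => ⟨fun i => p1.mem_cor (hv i) (M.mem_cast (hv i).1.1 (by ring)),
      fun i => p2.mem_cor (hv i) (hv i).1.2⟩, fun {n v} _ => ?_⟩ ?_ ?_) (key n)
  · refine Prod.ext ((p1.bhD (g := 0) (fun v => (add_zero _).symm) v).trans (add_zero _)) ?_
    have := p2.bhD (g := fun v : M.H × M'.H => f v.1) (fun v => by
      change M'.d v.2 = f v.1 + M'.d v.2 + f v.1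
      rw [add_right_comm, M'.two, zero_add]) v
    change (fun i => f (v i).1) + bhD y M' (fun i => AddMonoidHom.snd _ _ (v i)) = _
    rw [this, add_comm, (BH y M').add_add_cancel']
    rfl
  · intro n v _ h0
    obtain ⟨h1, h2⟩ := Prod.ext_iff.1 h0
    exact funext fun i => Prod.ext (congrFun h1 i) (congrFun h2 i)
  · rintro n ⟨u, v⟩ ⟨hu, hv⟩
    exact ⟨fun i => (u i, v i), fun i => ⟨⟨M.mem_cast (hu i).1 (by ring), (hv i).1⟩,
      Prod.ext (hu i).2 (hv i).2⟩, rfl⟩

end FMD
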