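import Pool.Agent.MP_0e6a9f_ag.H19.Free

/-! The gluing of two DG categories along a bimodule. -/

open MulOpposite

noncomputable section
namespace FMD
open _root_.FMD.DGR _root_.FMD.Bimod

section Res
variable {C C' D D' : DGR} {φ : DHom C D} {φ' : DHom C' D'} {ob : C.O → D.O} {ob' : C'.O → D'.O}
  (h : ∀ a, φ.f (C.e a) = D.e (ob a)) (h' : ∀ a, φ'.f (C'.e a) = D'.e (ob' a)) (M : Bimod D D')

include h h' in
lemma res_cor (a : C.O) (b : C'.O) (n : ℤ) (m : M.H) :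
    m ∈ (res φ φ' M).cor a b n ↔ m ∈ M.cor (ob a) (ob' b) n := by
  change _ ∧ φ'.f (C'.e b) • op (φ.f (C.e a)) • m = m ↔ _
  rw [h, h']; rfl

lemma res_twGr (x : Tw C) (y : Tw C') (n : ℤ) (m : Matrix y.I x.I M.H) :
    m ∈ (res φ φ' M).twGr x y n ↔ m ∈ M.twGr ((φ.toFun ob h).tw x) ((φ'.toFun ob' h').tw y) n :=
  forall₂_congr fun _ _ => res_cor h h' M _ _ _ _

lemma res_twD (x : Tw C) (y : Tw C') (m : Matrix y.I x.I M.H) :
    (res φ φ' M).twD x y m = M.twD ((φ.toFun ob h).tw x) ((φ'.toFun ob' h').tw y) m := rfl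

lemma res_tw_qis (x : Tw C) (y : Tw C') : Cx.Qis ((res φ φ' M).tw x y)
    (M.tw ((φ.toFun ob h).tw x) ((φ'.toFun ob' h').tw y)) (AddMonoidHom.id _) :=
  Cx.Qis.of_bij ⟨fun hv => (res_twGr h h' M x y _ _).1 hv, fun _ => rfl⟩ (fun _ _ _ h => h)
    fun _ w hw => ⟨w, (res_twGr h h' M x y _ _).2 hw, rfl⟩

lemma DHom.isHom (φ : DHom C D) : IsHom C.self (res φ φ D.self) φ.f.toAddMonoidHom :=
  ⟨φ.mem, φ.comm, fun b x => map_mul φ.f b x, fun b x => map_mul φ.f x b⟩

/-- A quasi-isomorphism of DG categories stays one on twisted complexes. -/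
lemma DHom.tw_qis (hq : Cx.Qis C.self.cx D.self.cx φ.f.toAddMonoidHom) (x y : Tw C) :
    Cx.Qis (C.self.tw x y) (D.self.tw ((φ.toFun ob h).tw x) ((φ.toFun ob h).tw y))
      ((φ.toFun ob h).twMap y.I x.I) :=
  (res_tw_qis h h D.self x y).comp (φ.isHom.tw_qis hq x y)

end Res

variable {A₁ A₂ : DGR}

/-- Triangular matrices. -/
def GB (N : Bimod A₁ A₂) : Type := A₁.B × A₂.B × N.H

instance (N : Bimod A₁ A₂) : Ring (GB N) :=
  { (inferInstance : AddCommGroup (A₁.B × A₂.B × N.H)) with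
    mul x y := (x.1 * y.1, x.2.1 * y.2.1, x.2.1 • y.2.2 + op y.1 • x.2.2)
    one := (1, 1, 0)
    mul_assoc x y z := Prod.ext (mul_assoc _ _ _) (Prod.ext (mul_assoc _ _ _) (by
      change (x.2.1 * y.2.1) • z.2.2 + op z.1 • (x.2.1 • y.2.2 + op y.1 • x.2.2) =
        x.2.1 • (y.2.1 • z.2.2 + op z.1 • y.2.2) + op (y.1 * z.1) • x.2.2
      simp only [smul_add, mul_smul, op_mul, smul_comm x.2.1, add_assoc]))
    one_mul x := Prod.ext (one_mul _) (Prod.ext (one_mul _) (by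
      change (1 : A₂.B) • x.2.2 + op x.1 • (0 : N.H) = x.2.2
      simp))
    mul_one x := Prod.ext (mul_one _) (Prod.ext (mul_one _) (by
      change x.2.1 • (0 : N.H) + op (1 : A₁.B) • x.2.2 = x.2.2
      simp))
    left_distrib x y z := Prod.ext (mul_add _ _ _) (Prod.ext (mul_add _ _ _) (by
      change x.2.1 • (y.2.2 + z.2.2) + op (y.1 + z.1) • x.2.2 =
        (x.2.1 • y.2.2 + op y.1 • x.2.2) + (x.2.1 • z.2.2 + op z.1 • x.2.2)
      simp only [smul_add, op_add, add_smul]; abel))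
    right_distrib x y z := Prod.ext (add_mul _ _ _) (Prod.ext (add_mul _ _ _) (by
      change (x.2.1 + y.2.1) • z.2.2 + op z.1 • (x.2.2 + y.2.2) =
        (x.2.1 • z.2.2 + op z.1 • x.2.2) + (y.2.1 • z.2.2 + op z.1 • y.2.2)
      simp only [smul_add, add_smul]; abel))
    zero_mul x := Prod.ext (zero_mul _) (Prod.ext (zero_mul _) (by
      change (0 : A₂.B) • x.2.2 + op x.1 • (0 : N.H) = 0
      simp))
    mul_zero x := Prod.ext (mul_zero _) (Prod.ext (mul_zero _) (by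
      change x.2.1 • (0 : N.H) + op (0 : A₁.B) • x.2.2 = 0
      simp)) }

/-- The gluing: objects `inl` from `A₁`, `inr` from `A₂`, maps from `inl` to `inr` in `N`. -/
def glue (N : Bimod A₁ A₂) : DGR where
  B := GB N
  O := A₁.O ⊕ A₂.O
  e := Sum.elim (fun o => (A₁.e o, 0, 0)) fun o => (0, A₂.e o, 0)
  gr n := (A₁.gr n).prod ((A₂.gr n).prod (N.gr n))
  d := A₁.d.prodMap (A₂.d.prodMap N.d)
  two x := Prod.ext (A₁.two _) (Prod.ext (A₂.two _) (N.two _))
  e_mul := by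
    have z : ∀ (a : A₂.B) (b : A₁.B), a • (0 : N.H) + op b • (0 : N.H) = 0 := by simp
    rintro (a | a) (b | b)
    · by_cases h : a = b
      · rw [h, if_pos rfl]
        exact Prod.ext (A₁.e_mul_self b) (Prod.ext (mul_zero _) (z _ _))
      · rw [if_neg fun e => h (Sum.inl_injective e)]
        exact Prod.ext ((A₁.e_mul a b).trans (if_neg h)) (Prod.ext (mul_zero _) (z _ _))
    · exact Prod.ext (mul_zero _) (Prod.ext (zero_mul _) (z _ _))
    · exact Prod.ext (zero_mul _) (Prod.ext (mul_zero _) (z _ _))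
    · by_cases h : a = b
      · rw [h, if_pos rfl]
        exact Prod.ext (mul_zero _) (Prod.ext (A₂.e_mul_self b) (z _ _))
      · rw [if_neg fun e => h (Sum.inr_injective e)]
        exact Prod.ext (mul_zero _) (Prod.ext ((A₂.e_mul a b).trans (if_neg h)) (z _ _))
  e_sum := by
    change (∑ a : A₁.O ⊕ A₂.O, Sum.elim (fun o => (A₁.e o, 0, 0)) (fun o => (0, A₂.e o, 0)) a :
      A₁.B × A₂.B × N.H) = (1, 1, 0)
    ext <;> simp [Fintype.sum_sum_type, Prod.fst_sum, Prod.snd_sum, A₁.e_sum, A₂.e_sum]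
  e_mem := by
    rintro (a | a)
    exacts [⟨A₁.e_mem a, zero_mem _, zero_mem _⟩, ⟨zero_mem _, A₂.e_mem a, zero_mem _⟩]
  d_e := by
    rintro (a | a)
    exacts [Prod.ext (A₁.d_e a) (Prod.ext (map_zero A₂.d) (map_zero N.d)),
      Prod.ext (map_zero A₁.d) (Prod.ext (A₂.d_e a) (map_zero N.d))]
  mul_mem {m n _ _} ha hb := ⟨A₁.mul_mem ha.1 hb.1, A₂.mul_mem ha.2.1 hb.2.1,
    add_mem (N.l_mem ha.2.1 hb.2.2) (N.r_mem hb.1 ha.2.2)⟩
  d_mem h := ⟨A₁.d_mem h.1, A₂.d_mem h.2.1, N.d_mem h.2.2⟩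
  d_d _ := Prod.ext (A₁.d_d _) (Prod.ext (A₂.d_d _) (N.d_d _))
  d_mul x y := Prod.ext (A₁.d_mul _ _) (Prod.ext (A₂.d_mul _ _) (by
    change N.d (x.2.1 • y.2.2 + op y.1 • x.2.2) = (A₂.d x.2.1 • y.2.2 + op y.1 • N.d x.2.2) +
      (x.2.1 • N.d y.2.2 + op (A₁.d y.1) • x.2.2)
    rw [map_add, N.d_l, N.d_r]; abel))

namespace glue
variable (N : Bimod A₁ A₂)

/-- The element with given components. -/
def mk (a : A₁.B) (b : A₂.B) (n : N.H) : (glue N).B := (a, b, n)

/-- The first component. -/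
def p₁ : DHom (glue N) A₁ :=
  ⟨{ toFun x := x.1, map_one' := rfl, map_mul' _ _ := rfl, map_zero' := rfl,
     map_add' _ _ := rfl }, fun h => h.1, fun _ => rfl⟩

/-- The second component. -/
def p₂ : DHom (glue N) A₂ :=
  ⟨{ toFun x := x.2.1, map_one' := rfl, map_mul' _ _ := rfl, map_zero' := rfl,
     map_add' _ _ := rfl }, fun h => h.2.1, fun _ => rfl⟩

/-- The component in the bimodule. -/
def pN : (glue N).B →+ N.H := AddMonoidHom.mk' (fun x => x.2.2) fun _ _ => rfl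

/-- The inclusion of the bimodule. -/
def iN : N.H →+ (glue N).B := AddMonoidHom.mk' (fun n => mk N 0 0 n) fun _ _ =>
  Prod.ext (add_zero _).symm (Prod.ext (add_zero _).symm rfl)

variable {N}

lemma ext {x y : (glue N).B} (h₁ : (p₁ N).f x = (p₁ N).f y) (h₂ : (p₂ N).f x = (p₂ N).f y)
    (h : pN N x = pN N y) : x = y := Prod.ext h₁ (Prod.ext h₂ h)

@[simp] lemma p₁_mk (a b n) : (p₁ N).f (mk N a b n) = a := rfl
@[simp] lemma p₂_mk (a b n) : (p₂ N).f (mk N a b n) = b := rfl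
@[simp] lemma pN_mk (a b n) : pN N (mk N a b n) = n := rfl
@[simp] lemma p₁_iN (n) : (p₁ N).f (iN N n) = 0 := rfl
@[simp] lemma p₂_iN (n) : (p₂ N).f (iN N n) = 0 := rfl
@[simp] lemma pN_iN (n) : pN N (iN N n) = n := rfl
@[simp] lemma pN_one : pN N 1 = 0 := rfl

@[simp] lemma pN_mul (x y : (glue N).B) :
    pN N (x * y) = (p₂ N).f x • pN N y + op ((p₁ N).f y) • pN N x := rfl

@[simp] lemma p₁_d (x : (glue N).B) : (p₁ N).f ((glue N).d x) = A₁.d ((p₁ N).f x) := rfl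
@[simp] lemma p₂_d (x : (glue N).B) : (p₂ N).f ((glue N).d x) = A₂.d ((p₂ N).f x) := rfl
@[simp] lemma pN_d (x : (glue N).B) : pN N ((glue N).d x) = N.d (pN N x) := rfl

lemma e_inl (o : A₁.O) : (glue N).e (Sum.inl o) = mk N (A₁.e o) 0 0 := rfl
lemma e_inr (o : A₂.O) : (glue N).e (Sum.inr o) = mk N 0 (A₂.e o) 0 := rfl

@[simp] lemma pN_e (o : (glue N).O) : pN N ((glue N).e o) = 0 := by rcases o with o | o <;> rfl

lemma mem_gr {n : ℤ} {x : (glue N).B} : x ∈ (glue N).gr n ↔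
    (p₁ N).f x ∈ A₁.gr n ∧ (p₂ N).f x ∈ A₂.gr n ∧ pN N x ∈ N.gr n := Iff.rfl

lemma iN_mem {n : ℤ} {x : N.H} (h : x ∈ N.gr n) : iN N x ∈ (glue N).gr n :=
  ⟨zero_mem _, zero_mem _, h⟩

lemma d_iN (x : N.H) : (glue N).d (iN N x) = iN N (N.d x) := ext (by simp) (by simp) rfl

lemma mul_iN (x : (glue N).B) (n : N.H) : x * iN N n = iN N ((p₂ N).f x • n) :=
  ext (by simp) (by simp) (by simp)

lemma iN_mul (n : N.H) (x : (glue N).B) : iN N n * x = iN N (op ((p₁ N).f x) • n) :=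
  ext (by simp) (by simp) (by simp)

lemma iN_mem_cor {a : A₁.O} {b : A₂.O} {n : ℤ} {x : N.H} (h : x ∈ N.cor a b n) :
    iN N x ∈ (glue N).self.cor (Sum.inl a) (Sum.inr b) n :=
  (glue N).mem_self_cor.2 ⟨iN_mem h.1, by rw [mul_iN, e_inr, p₂_mk, cor_l h],
    by rw [iN_mul, e_inl, p₁_mk, cor_r h]⟩

variable (N)

/-- The first side. -/
def i₁ : DFun A₁ (glue N) where
  f :=
    { toFun a := mk N a 0 0
      map_mul' a b := ext (by simp) (by simp) (by simp)
      map_zero' := rfl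
      map_add' a b := ext (by simp) (by simp) (by simp) }
  ob := Sum.inl
  map_e _ := rfl
  mem h := ⟨h, zero_mem _, zero_mem _⟩
  comm a := ext rfl (map_zero A₂.d) (map_zero N.d)

/-- The second side. -/
def i₂ : DFun A₂ (glue N) where
  f :=
    { toFun a := mk N 0 a 0
      map_mul' a b := ext (by simp) (by simp) (by simp)
      map_zero' := rfl
      map_add' a b := ext (by simp) (by simp) (by simp) }
  ob := Sum.inr
  map_e _ := rfl
  mem h := ⟨zero_mem _, h, zero_mem _⟩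
  comm a := ext (map_zero A₁.d) rfl (map_zero N.d)

lemma i₁_apply (a : A₁.B) : (i₁ N).f a = mk N a 0 0 := rfl
lemma i₂_apply (a : A₂.B) : (i₂ N).f a = mk N 0 a 0 := rfl

/-- A bimodule over the two sides, placed in the corner from `inl` to `inr`. -/
abbrev corner (M : Bimod A₁ A₂) : Bimod (glue N) (glue N) := res (p₁ N) (p₂ N) M

lemma iN_isHom : IsHom (corner N N) (glue N).self (iN N) :=
  ⟨iN_mem (N := N), d_iN (N := N), fun b h => (mul_iN (N := N) b h).symm,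
    fun b h => (iN_mul (N := N) h b).symm⟩

lemma pN_isDer : IsDer (corner N N) 0 (pN N) :=
  ⟨fun h => N.mem_cast h.2.2 (add_zero _).symm, fun a b => (pN_mul a b).trans (add_comm _ _), pN_e⟩

variable {N} {N' : Bimod A₁ A₂} {g : N'.H →+ N.H}

/-- The functor induced by a map of bimodules. -/
def map (hg : IsHom N' N g) : DHom (glue N') (glue N) where
  f :=
    { toFun x := mk N ((p₁ N').f x) ((p₂ N').f x) (g (pN N' x))
      map_one' := ext (by simp) (by simp) (by simp)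
      map_mul' a b := ext (by simp) (by simp) (by simp [hg.l, hg.r])
      map_zero' := ext (by simp) (by simp) (by simp)
      map_add' a b := ext (by simp) (by simp) (by simp) }
  mem h := ⟨h.1, h.2.1, hg.mem h.2.2⟩
  comm x := ext rfl rfl (hg.comm _)

lemma map_apply (hg : IsHom N' N g) (x : (glue N').B) :
    (map hg).f x = mk N ((p₁ N').f x) ((p₂ N').f x) (g (pN N' x)) := rfl

lemma map_e (hg : IsHom N' N g) (o : (glue N').O) : (map hg).f ((glue N').e o) = (glue N).e o := by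
  rcases o with o | o <;> exact ext rfl rfl (map_zero g)

/-- The induced DG functor. -/
abbrev mapF (hg : IsHom N' N g) : DFun (glue N') (glue N) := (map hg).toFun id (map_e hg)

lemma map_qis (hg : IsHom N' N g) (h : Cx.Qis N'.cx N.cx g) :
    Cx.Qis (glue N').self.cx (glue N).self.cx (map hg).f.toAddMonoidHom where
  toIsMap := (map hg).isHom.isMap
  surj n w hw h0 := by
    obtain ⟨y, hy, hy', u, hu, e⟩ := h.surj n (pN N w) hw.2.2 (congrArg (pN N) h0)
    exact ⟨mk N' ((p₁ N).f w) ((p₂ N).f w) y, ⟨hw.1, hw.2.1, hy⟩,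
      ext (congrArg (p₁ N).f h0) (congrArg (p₂ N).f h0) hy', iN N u, iN_mem hu,
      ext ((map_zero A₁.d).trans (A₁.two _).symm) ((map_zero A₂.d).trans (A₂.two _).symm) e⟩
  inj n z hz h0 := by
    rintro ⟨w, hw, e⟩
    obtain ⟨u, hu, e'⟩ := h.inj n (pN N' z) hz.2.2 (congrArg (pN N') h0)
      ⟨pN N w, hw.2.2, congrArg (pN N) e⟩
    exact ⟨mk N' ((p₁ N).f w) ((p₂ N).f w) u, ⟨hw.1, hw.2.1, hu⟩,
      ext (congrArg (p₁ N).f e) (congrArg (p₂ N).f e) e'⟩

section
variable {K : Type} [Field K] [Algebra K A₁.B] [Algebra K A₂.B] (N)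
  [Module K N.H] [IsScalarTower K A₂.B N.H] [IsScalarTower K A₁.Bᵐᵒᵖ N.H]

instance : Algebra K (glue N).B :=
  letI : Module K (glue N).B := inferInstanceAs (Module K (A₁.B × A₂.B × N.H))
  Algebra.ofModule
    (fun c x y => Prod.ext (smul_mul_assoc c x.1 y.1) (Prod.ext (smul_mul_assoc c x.2.1 y.2.1) (by
      change (c • x.2.1) • y.2.2 + op y.1 • c • x.2.2 = c • (x.2.1 • y.2.2 + op y.1 • x.2.2)
      rw [smul_add, smul_assoc, smul_comm c (op y.1)])))
    fun c x y => Prod.ext (mul_smul_comm c x.1 y.1) (Prod.ext (mul_smul_comm c x.2.1 y.2.1) (by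
      change x.2.1 • c • y.2.2 + op (c • y.1) • x.2.2 = c • (x.2.1 • y.2.2 + op y.1 • x.2.2)
      rw [smul_add, op_smul, smul_assoc, smul_comm c x.2.1]))

variable {N}

@[simp] lemma p₁_smul (c : K) (x : (glue N).B) : (p₁ N).f (c • x) = c • (p₁ N).f x := rfl
@[simp] lemma p₂_smul (c : K) (x : (glue N).B) : (p₂ N).f (c • x) = c • (p₂ N).f x := rfl
@[simp] lemma pN_smul (c : K) (x : (glue N).B) : pN N (c • x) = c • pN N x := rfl

lemma algebraMap_eq (c : K) :
    algebraMap K (glue N).B c = mk N (algebraMap K A₁.B c) (algebraMap K A₂.B c) 0 := by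
  rw [Algebra.algebraMap_eq_smul_one]
  exact ext (by simp [Algebra.algebraMap_eq_smul_one]) (by simp [Algebra.algebraMap_eq_smul_one])
    (by simp)

instance [A₁.KL K] [A₂.KL K] : (glue N).KL K :=
  ⟨fun c => algebraMap_eq (N := N) c ▸ ⟨KL.alg_mem c, KL.alg_mem c, zero_mem _⟩, fun c =>
    algebraMap_eq (N := N) c ▸ ext (KL.d_alg c) (KL.d_alg c) (map_zero N.d)⟩

variable (M : Bimod A₁ A₂) [Module K M.H]

instance : Module K (corner N M).H := ‹Module K M.H›

instance [IsScalarTower K A₂.B M.H] : IsScalarTower K (glue N).B (corner N M).H :=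
  ⟨fun c b (m : M.H) => smul_assoc c ((p₂ N).f b) m⟩

instance [IsScalarTower K A₁.Bᵐᵒᵖ M.H] : IsScalarTower K (glue N).Bᵐᵒᵖ (corner N M).H :=
  ⟨fun c b (m : M.H) => smul_assoc c (op ((p₁ N).f b.unop)) m⟩

end
end glue
end FMD
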