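import Pool.Agent.MP_0e6a9f_ag.H19.FrExt

/-! Linear maps between bimodules over the ground field. -/

open MulOpposite

noncomputable section
namespace FMD
open _root_.FMD.DGR _root_.FMD.Bimod

/-- The grading is a direct sum decomposition. -/
abbrev Bimod.Honest {C C' : DGR} (W : Bimod C C') : Prop := DirectSum.IsInternal W.gr

variable {K : Type} [Field K] {C₁ C₂ C₃ C₄ : DGR}

section Hon
variable [Algebra K C₂.B] [C₂.KL K] (W : Bimod C₁ C₂) [Module K W.H] [IsScalarTower K C₂.B W.H]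

variable (K) in
/-- The graded pieces as subspaces. -/
def grK (n : ℤ) : Submodule K W.H :=
  { W.gr n with smul_mem' := fun c _ h => Bimod.smul_mem c h }

variable {W}

lemma Bimod.Honest.ind (h : W.Honest) {P : W.H → Prop} (h0 : P 0)
    (hg : ∀ n, ∀ v ∈ W.gr n, P v) (ha : ∀ u v, P u → P v → P (u + v)) (v : W.H) : P v := by
  obtain ⟨x, rfl⟩ := h.2 v
  induction x using DirectSum.induction_on with
  | zero => simpa using h0
  | of n x => simpa using hg n x x.2
  | add x y hx hy => simpa using ha _ _ hx hy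

/-- A linear map may be prescribed on each graded piece. -/
lemma Bimod.Honest.exists_lin (h : W.Honest) {U : Type} [AddCommGroup U] [Module K U]
    (G : ∀ n, grK K W n →ₗ[K] U) :
    ∃ F : W.H →ₗ[K] U, ∀ n v (hv : v ∈ W.gr n), F v = G n ⟨v, hv⟩ := by
  have h' : DirectSum.IsInternal (grK K W) := h
  let e := LinearEquiv.ofBijective (DirectSum.coeLinearMap (grK K W)) h'
  refine ⟨DirectSum.toModule K ℤ U G ∘ₗ e.symm, fun n v hv => ?_⟩
  have : e.symm v = DirectSum.lof K ℤ (fun n => grK K W n) n ⟨v, hv⟩ :=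
    e.symm_apply_eq.2 (DirectSum.coeLinearMap_lof (grK K W) n ⟨v, hv⟩).symm
  rw [LinearMap.comp_apply, LinearEquiv.coe_coe, this, DirectSum.toModule_lof]

variable (K W) in
/-- The differential as a linear map. -/
def Bimod.dK : W.H →ₗ[K] W.H := ⟨⟨W.d, W.d.map_add⟩, W.d_smul⟩

@[simp] lemma Bimod.dK_apply (v : W.H) : W.dK K v = W.d v := rfl

/-- An acyclic complex of vector spaces has a contraction on each graded piece. -/
lemma exists_contr (h : W.cx.Acyc) : ∃ s : ∀ n, grK K W n →ₗ[K] W.H,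
    (∀ n v, s n v ∈ W.gr (n - 1)) ∧
      ∀ n v (hv : v ∈ W.gr n), W.d (s n ⟨v, hv⟩) + s (n + 1) ⟨W.d v, W.d_mem hv⟩ = v := by
  have key : ∀ n, ∃ σ : W.H →ₗ[K] W.H, (∀ v, σ v ∈ W.gr (n - 1)) ∧
      ∀ v ∈ W.gr n, W.d v = 0 → W.d (σ v) = v := fun n => by
    let f := (W.dK K).domRestrict (grK K W (n - 1))
    obtain ⟨g, hg⟩ := f.rangeRestrict.exists_rightInverse_of_surjective f.range_rangeRestrict
    obtain ⟨r, hr⟩ := f.range.subtype.exists_leftInverse_of_injective f.range.ker_subtype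
    refine ⟨(grK K W (n - 1)).subtype ∘ₗ g ∘ₗ r, fun v => (g (r v)).2, fun v hv h0 => ?_⟩
    obtain ⟨w, hw, rfl⟩ := h n v hv h0
    have e1 := LinearMap.congr_fun hr ⟨W.d w, ⟨w, hw⟩, rfl⟩
    have e2 := LinearMap.congr_fun hg ⟨W.d w, ⟨w, hw⟩, rfl⟩
    exact (congrArg (fun z => W.d (g z)) e1).trans (congrArg Subtype.val e2)
  choose σ h1 h2 using key
  refine ⟨fun n => σ n ∘ₗ (LinearMap.id + σ (n + 1) ∘ₗ W.dK K) ∘ₗ (grK K W n).subtype,
    fun n v => h1 n _, fun n v hv => ?_⟩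
  have e := h2 (n + 1) _ (W.d_mem hv) (W.d_d v)
  change W.d (σ n (v + σ (n + 1) (W.d v))) + σ (n + 1) (W.d v + σ (n + 1 + 1) (W.d (W.d v))) = v
  rw [h2 n _ (add_mem hv (W.mem_cast (h1 _ _) (by ring))) (by rw [map_add, e, W.two]), W.d_d,
    map_zero, add_zero, add_assoc, W.two, add_zero]

/-- An honest acyclic complex of vector spaces is contractible. -/
lemma Bimod.Honest.contr (hW : W.Honest) (h : W.cx.Acyc) : ∃ s : W.H →ₗ[K] W.H,
    (∀ n, ∀ v ∈ W.gr n, s v ∈ W.gr (n - 1)) ∧ ∀ v, W.d (s v) + s (W.d v) = v := by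
  obtain ⟨s, h1, h2⟩ := exists_contr (K := K) h
  obtain ⟨F, hF⟩ := hW.exists_lin s
  refine ⟨F, fun n v hv => hF n v hv ▸ h1 n _, hW.ind (by simp) (fun n v hv => ?_)
    fun u v hu hv => ?_⟩
  · rw [hF n v hv, hF _ _ (W.d_mem hv), h2]
  · rw [map_add, map_add, map_add, map_add, add_add_add_comm, hu, hv]

end Hon

/-- Honesty from projections with finite total range. -/
lemma honest_of_proj {W : Bimod C₁ C₂} (p : ℤ → W.H →+ W.H) (h1 : ∀ n v, p n v ∈ W.gr n)
    (h2 : ∀ m n, ∀ v ∈ W.gr n, p m v = if m = n then v else 0)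
    (h3 : ∀ v, ∃ S : Finset ℤ, ∑ n ∈ S, p n v = v) : W.Honest := by
  refine ⟨(injective_iff_map_eq_zero _).2 fun x hx => DFinsupp.ext fun m => Subtype.ext ?_,
    fun v => ?_⟩
  · have : ∀ x : DirectSum ℤ fun n => W.gr n, p m (DirectSum.coeAddMonoidHom W.gr x) = x m := by
      intro x
      induction x using DirectSum.induction_on with
      | zero => simp
      | of n x =>
        rw [DirectSum.coeAddMonoidHom_of, h2 m n x x.2]
        split_ifs with h
        · subst h; rw [DirectSum.of_eq_same]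
        · rw [DirectSum.of_eq_of_ne _ _ _ h]; rfl
      | add x y hx hy => simp [hx, hy]
    rw [← this, hx, map_zero]; rfl
  · obtain ⟨S, hS⟩ := h3 v
    exact ⟨∑ n ∈ S, DirectSum.of (fun n => W.gr n) n ⟨p n v, h1 n v⟩, by simpa using hS⟩

lemma Bimod.Honest.exists_proj {W : Bimod C₁ C₂} (h : W.Honest) : ∃ p : ℤ → W.H →+ W.H,
    (∀ n v, p n v ∈ W.gr n) ∧ (∀ m n, ∀ v ∈ W.gr n, p m v = if m = n then v else 0) ∧
      ∀ v, ∃ S : Finset ℤ, ∀ S' ⊇ S, ∑ n ∈ S', p n v = v := by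
  let e := AddEquiv.ofBijective (DirectSum.coeAddMonoidHom W.gr) h
  have h2 : ∀ m n, ∀ v ∈ W.gr n, ((e.symm v m : W.gr m) : W.H) = if m = n then v else 0 := by
    intro m n v hv
    rw [show e.symm v = DirectSum.of (fun n => W.gr n) n ⟨v, hv⟩ from
      e.symm_apply_eq.2 (DirectSum.coeAddMonoidHom_of W.gr n ⟨v, hv⟩).symm]
    split_ifs with h
    · subst h; rw [DirectSum.of_eq_same]
    · rw [DirectSum.of_eq_of_ne _ _ _ h]; rfl
  refine ⟨fun m => AddMonoidHom.mk' (fun v => (e.symm v m : W.H)) fun a b => by simp,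
    fun n v => (e.symm v n).2, h2, h.ind ⟨∅, by simp⟩ (fun n v hv => ⟨{n}, fun S hS => ?_⟩) ?_⟩
  · simp [h2 _ n v hv, hS (Finset.mem_singleton_self n)]
  · rintro u v ⟨S, hS⟩ ⟨T, hT⟩
    refine ⟨S ∪ T, fun U hU => ?_⟩
    simp only [map_add, Finset.sum_add_distrib]
    rw [hS U (Finset.union_subset_left hU), hT U (Finset.union_subset_right hU)]

lemma Bimod.Honest.cone {W W' : Bimod C₁ C₂} (h : W.Honest) (h' : W'.Honest) {f : W.H →+ W'.H}
    (hf : IsHom W W' f) : (cone hf).Honest := by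
  obtain ⟨p, a1, a2, a3⟩ := h.exists_proj
  obtain ⟨p', b1, b2, b3⟩ := h'.exists_proj
  refine honest_of_proj (fun n => (p (n + 1)).prodMap (p' n)) (fun n v => ⟨a1 _ _, b1 _ _⟩)
    (fun m n v hv => ?_) fun v => ?_
  · change (p (m + 1) v.1, p' m v.2) = _
    rw [a2 _ _ _ hv.1, b2 _ _ _ hv.2]
    by_cases e : m = n <;> simp [e]
  · obtain ⟨S, hS⟩ := a3 v.1
    obtain ⟨T, hT⟩ := b3 v.2
    refine ⟨S.image (· - 1) ∪ T, Prod.ext ?_ ?_⟩
    · rw [Prod.fst_sum, ← hS ((S.image (· - 1) ∪ T).image (· + 1)) fun n hn =>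
        Finset.mem_image.2 ⟨n - 1, Finset.mem_union_left _ (Finset.mem_image_of_mem _ hn), by ring⟩,
        Finset.sum_image fun _ _ _ _ h => add_right_cancel h]
      rfl
    · rw [Prod.snd_sum]; exact hT _ Finset.subset_union_right

section Hom
variable [Algebra K C₂.B] [C₂.KL K] [Algebra K C₄.B] [C₄.KL K]
  (W : Bimod C₁ C₂) [Module K W.H] [IsScalarTower K C₂.B W.H]
  (W' : Bimod C₃ C₄) [Module K W'.H] [IsScalarTower K C₄.B W'.H]

variable (K)

/-- Linear maps of degree `n`. -/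
def homGr (n : ℤ) : AddSubgroup (W.H →ₗ[K] W'.H) where
  carrier := {F | ∀ m, ∀ v ∈ W.gr m, F v ∈ W'.gr (m + n)}
  add_mem' ha hb m v hv := add_mem (ha m v hv) (hb m v hv)
  zero_mem' _ _ _ := zero_mem _
  neg_mem' ha m v hv := neg_mem (ha m v hv)

/-- The differential on linear maps. -/
def homD : (W.H →ₗ[K] W'.H) →+ (W.H →ₗ[K] W'.H) :=
  AddMonoidHom.mk' (fun F => W'.dK K ∘ₗ F + F ∘ₗ W.dK K) fun a b => by ext; simp; abel

variable {K W W'} in
@[simp] lemma homD_apply (F : W.H →ₗ[K] W'.H) (v : W.H) :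
    homD K W W' F v = W'.d (F v) + F (W.d v) := rfl

lemma homD_homD (F : W.H →ₗ[K] W'.H) : homD K W W' (homD K W W' F) = 0 := by
  ext v; simp [W.d_d, W'.d_d, W'.two]

lemma homD_mem {n : ℤ} {F : W.H →ₗ[K] W'.H} (h : F ∈ homGr K W W' n) :
    homD K W W' F ∈ homGr K W W' (n + 1) := fun m v hv =>
  add_mem (W'.mem_cast (W'.d_mem (h m v hv)) (by ring))
    (W'.mem_cast (h _ _ (W.d_mem hv)) (by ring))

/-- The complex of linear maps. -/
@[reducible] def homCx : Cx where
  V := W.H →ₗ[K] W'.H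
  gr := homGr K W W'
  d := homD K W W'
  two _ := LinearMap.ext fun _ => W'.two _
  d_mem := homD_mem K W W'
  d_d _ := homD_homD K W W' _

variable {K W W'}

lemma homCx_acyc_right (hW : W.Honest) (h : W'.cx.Acyc) : (homCx K W W').Acyc := by
  intro n F hF h0
  obtain ⟨s, h1, h2⟩ := exists_contr (K := K) h
  obtain ⟨G, hG⟩ := hW.exists_lin fun m => s (m + n) ∘ₗ F.restrict (p := grK K W m)
    (q := grK K W' (m + n)) fun v hv => hF m v hv
  refine ⟨G, fun m v hv => W'.mem_cast (hG m v hv ▸ h1 _ _) (by ring),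
    LinearMap.ext (hW.ind (by simp) (fun m v hv => ?_) fun u v hu hv => by
      rw [map_add, map_add, hu, hv])⟩
  have e : F (W.d v) = W'.d (F v) := (W'.cx.eq_of_add (LinearMap.congr_fun h0 v)).symm
  have c : ∀ a b (h : a = b) x y (hx : x ∈ W'.gr a) (hy : y ∈ W'.gr b), x = y →
      s a ⟨x, hx⟩ = s b ⟨y, hy⟩ := by rintro a _ rfl x _ _ _ rfl; rfl
  change W'.d (G v) + G (W.d v) = F v
  rw [hG m v hv, hG _ _ (W.d_mem hv), ← h2 _ _ (hF m v hv)]
  exact congrArg _ (c _ _ (by ring) _ _ _ _ e)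

lemma homCx_acyc_left (hW : W.Honest) (h : W.cx.Acyc) : (homCx K W W').Acyc := by
  intro n F hF h0
  obtain ⟨s, h1, h2⟩ := hW.contr (K := K) h
  refine ⟨F ∘ₗ s, fun m v hv => W'.mem_cast (hF _ _ (h1 m v hv)) (by ring),
    LinearMap.ext fun v => ?_⟩
  change W'.d (F (s v)) + F (s (W.d v)) = F v
  have e : W'.d (F (s v)) = F (W.d (s v)) := W'.cx.eq_of_add (LinearMap.congr_fun h0 (s v))
  rw [e, ← map_add, h2]

end Hom

section PP
variable [Algebra K C₂.B] [C₂.KL K] [Algebra K C₄.B] [C₄.KL K]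
  {U U' : Bimod C₁ C₂} [Module K U.H] [IsScalarTower K C₂.B U.H] [Module K U'.H]
  [IsScalarTower K C₂.B U'.H] (W : Bimod C₃ C₄) [Module K W.H] [IsScalarTower K C₄.B W.H]

variable (K) in
/-- A bimodule map as a linear map. -/
def Bimod.IsLin.lin {f : U.H →+ U'.H} (hf : IsLin U U' f) : U.H →ₗ[K] U'.H :=
  ⟨⟨f, f.map_add⟩, hf.smul⟩

omit [C₂.KL K] in
@[simp] lemma Bimod.IsLin.lin_apply {f : U.H →+ U'.H} (hf : IsLin U U' f) (v : U.H) :
    hf.lin K v = f v := rfl

/-- Composition on the left. -/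
def post (g : U.H →ₗ[K] U'.H) : (W.H →ₗ[K] U.H) →+ (W.H →ₗ[K] U'.H) :=
  AddMonoidHom.mk' (fun F => g ∘ₗ F) fun _ _ => LinearMap.comp_add _ _ _

/-- Composition on the right. -/
def pre (g : U.H →ₗ[K] U'.H) : (U'.H →ₗ[K] W.H) →+ (U.H →ₗ[K] W.H) :=
  AddMonoidHom.mk' (fun F => F ∘ₗ g) fun _ _ => LinearMap.add_comp _ _ _

lemma post_qis (hW : W.Honest) {f : U.H →+ U'.H} (hf : IsHom U U' f) (h : Cx.Qis U.cx U'.cx f) :
    Cx.Qis (homCx K W U) (homCx K W U') (post W (hf.isLin.lin K)) := by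
  have hm : Cx.IsMap (homCx K W U) (homCx K W U') (post W (hf.isLin.lin K)) :=
    ⟨fun hF m v hv => hf.mem (hF m v hv), fun {_ F} _ => LinearMap.ext fun v => by
      change U'.d (f (F v)) + f (F (W.d v)) = f (U.d (F v) + F (W.d v))
      rw [map_add, hf.comm]⟩
  have key := homCx_acyc_right (K := K) (W' := cone hf) hW ((Cx.qis_iff_cone hf.isMap).1 h)
  refine (Cx.qis_iff_cone hm).2 fun n => ?_
  rintro ⟨F, G⟩ ⟨hF, hG⟩ h0
  obtain ⟨h1, h2⟩ := Prod.ext_iff.1 h0
  obtain ⟨H, hH, e⟩ := key n (F.prod G)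
    (fun m v hv => ⟨U.mem_cast (hF m v hv) (by ring), hG m v hv⟩)
    (LinearMap.ext fun v => Prod.ext (LinearMap.congr_fun h1 v)
      ((add_assoc _ _ _).trans (LinearMap.congr_fun h2 v)))
  exact ⟨(LinearMap.fst K _ _ ∘ₗ H, LinearMap.snd K _ _ ∘ₗ H),
    ⟨fun m v hv => U.mem_cast (hH m v hv).1 (by ring), fun m v hv => (hH m v hv).2⟩,
    Prod.ext (LinearMap.ext fun v => congrArg Prod.fst (LinearMap.congr_fun e v))
      (LinearMap.ext fun v => (add_assoc _ _ _).symm.trans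
        (congrArg Prod.snd (LinearMap.congr_fun e v)))⟩

lemma pre_qis (hU : U.Honest) (hU' : U'.Honest) {f : U.H →+ U'.H} (hf : IsHom U U' f)
    (h : Cx.Qis U.cx U'.cx f) :
    Cx.Qis (homCx K U' W) (homCx K U W) (pre W (hf.isLin.lin K)) := by
  have hm : Cx.IsMap (homCx K U' W) (homCx K U W) (pre W (hf.isLin.lin K)) :=
    ⟨fun hF m v hv => hF m _ (hf.mem hv), fun {_ F} _ => LinearMap.ext fun v => by
      change W.d (F (f v)) + F (f (U.d v)) = W.d (F (f v)) + F (U'.d (f v))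
      rw [hf.comm]⟩
  have key := homCx_acyc_left (K := K) (W := cone hf) (W' := W) (hU.cone hU' hf)
    ((Cx.qis_iff_cone hf.isMap).1 h)
  refine (Cx.qis_iff_cone hm).2 fun n => ?_
  rintro ⟨F, G⟩ ⟨hF, hG⟩ h0
  obtain ⟨h1, h2⟩ := Prod.ext_iff.1 h0
  obtain ⟨H, hH, e⟩ := key (n + 1) (G.coprod F)
    (fun m v hv => add_mem (W.mem_cast (hG _ _ hv.1) (by ring)) (hF m _ hv.2))
    (LinearMap.ext fun v => by
      have e1 : W.d (F v.2) + F (U'.d v.2) = 0 := LinearMap.congr_fun h1 v.2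
      have e2 : F (f v.1) + (W.d (G v.1) + G (U.d v.1)) = 0 := LinearMap.congr_fun h2 v.1
      change W.d (G v.1 + F v.2) + (G (U.d v.1) + F (f v.1 + U'.d v.2)) = 0
      rw [map_add, map_add]
      linear_combination (norm := abel) e1 + e2)
  refine ⟨(H ∘ₗ LinearMap.inr K _ _, H ∘ₗ LinearMap.inl K _ _),
    ⟨fun m v hv => W.mem_cast (hH m (0, v) ⟨zero_mem _, hv⟩) (by ring), fun m v hv =>
      W.mem_cast (hH (m - 1) (v, 0) ⟨U.mem_cast hv (by ring), zero_mem _⟩) (by ring)⟩,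
    Prod.ext (LinearMap.ext fun v => ?_) (LinearMap.ext fun v => ?_)⟩
  · have e1 : W.d (H (0, v)) + H (U.d 0, f 0 + U'.d v) = G 0 + F v := LinearMap.congr_fun e (0, v)
    rw [map_zero, map_zero, map_zero, zero_add, zero_add] at e1
    exact e1
  · have e1 : W.d (H (v, 0)) + H (U.d v, f v + U'.d 0) = G v + F 0 := LinearMap.congr_fun e (v, 0)
    rw [map_zero, map_zero, add_zero, add_zero] at e1
    change H (0, f v) + (W.d (H (v, 0)) + H (U.d v, 0)) = G v
    rw [← e1, add_left_comm, ← map_add, Prod.mk_add_mk, zero_add, add_zero]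

end PP

section Mod
variable (K) {C D D' : DGR} [Algebra K C.B]

section
variable [Algebra K D.B] [D.KL K] [Algebra K D'.B] [D'.KL K]

/-- Linear maps between right modules: `(c F c') v = F (v c) c'`. -/
def HomR (W : Bimod C D) [Module K W.H] [IsScalarTower K D.B W.H] [IsScalarTower K C.Bᵐᵒᵖ W.H]
    (W' : Bimod C D') [Module K W'.H] [IsScalarTower K D'.B W'.H] [IsScalarTower K C.Bᵐᵒᵖ W'.H] :
    Bimod C C :=
  letI : Module C.B (W.H →ₗ[K] W'.H) :=
    { smul c F := F ∘ₗ Algebra.lsmul K K W.H (op c)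
      one_smul _ := LinearMap.ext fun v => congrArg _ (one_smul _ v)
      mul_smul a b _ := LinearMap.ext fun v => congrArg _ (mul_smul (op b) (op a) v)
      smul_zero _ := rfl
      smul_add _ _ _ := rfl
      add_smul a b F := LinearMap.ext fun v =>
        (congrArg F (add_smul (op a) (op b) v)).trans (map_add F _ _)
      zero_smul F := LinearMap.ext fun v => (congrArg F (zero_smul _ v)).trans (map_zero F) }
  { H := W.H →ₗ[K] W'.H
    comm := ⟨fun _ _ _ => rfl⟩
    gr := homGr K W W'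
    d := homD K W W'
    d_mem := homD_mem K W W'
    d_d := homD_homD K W W'
    l_mem := fun hb hF m v hv => W'.mem_cast (hF _ _ (W.r_mem hb hv)) (by ring)
    r_mem := fun hb hF m v hv => W'.mem_cast (W'.r_mem hb (hF m v hv)) (by ring)
    d_l := fun b F => LinearMap.ext fun v => by
      change W'.d (F (op b • v)) + F (op b • W.d v) =
        F (op (C.d b) • v) + (W'.d (F (op b • v)) + F (W.d (op b • v)))
      rw [W.d_r, map_add, add_left_comm, add_comm (F (op b • _)) (F _), W'.cx.add_add_cancel]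
    d_r := fun b F => LinearMap.ext fun v => by
      change W'.d (op b • F v) + op b • F (W.d v) =
        op b • (W'.d (F v) + F (W.d v)) + op (C.d b) • F v
      rw [W'.d_r, smul_add, add_right_comm] }

variable (W : Bimod C D) [Module K W.H] [IsScalarTower K D.B W.H] [IsScalarTower K C.Bᵐᵒᵖ W.H]
  (W' : Bimod C D') [Module K W'.H] [IsScalarTower K D'.B W'.H] [IsScalarTower K C.Bᵐᵒᵖ W'.H]

instance : Module K (HomR K W W').H := inferInstanceAs (Module K (W.H →ₗ[K] W'.H))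

instance : IsScalarTower K C.B (HomR K W W').H := ⟨fun c b (F : W.H →ₗ[K] W'.H) =>
  LinearMap.ext fun v => (congrArg F (smul_assoc c (op b) v)).trans (F.map_smul _ _)⟩

instance : IsScalarTower K C.Bᵐᵒᵖ (HomR K W W').H := ⟨fun c b (F : W.H →ₗ[K] W'.H) =>
  LinearMap.ext fun v => smul_assoc c b (F v)⟩

/-- Evaluation. -/
def HomR.toLin : (HomR K W W').H ≃ₗ[K] (W.H →ₗ[K] W'.H) := LinearEquiv.refl K _

variable {K W W'}

lemma HomR.l_apply (c : C.B) (F : (HomR K W W').H) (v : W.H) :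
    HomR.toLin K W W' (c • F) v = HomR.toLin K W W' F (op c • v) := rfl

lemma HomR.r_apply (c : C.Bᵐᵒᵖ) (F : (HomR K W W').H) (v : W.H) :
    HomR.toLin K W W' (c • F) v = c • HomR.toLin K W W' F v := rfl

lemma HomR.d_apply (F : (HomR K W W').H) (v : W.H) : HomR.toLin K W W' ((HomR K W W').d F) v =
    W'.d (HomR.toLin K W W' F v) + HomR.toLin K W W' F (W.d v) := rfl
end

variable [C.KL K]

/-- Linear maps between left modules: `(c F c') v = c F (c' v)`. -/
def HomL (W : Bimod D C) [Module K W.H] [IsScalarTower K C.B W.H]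
    (W' : Bimod D' C) [Module K W'.H] [IsScalarTower K C.B W'.H] : Bimod C C :=
  letI : Module C.Bᵐᵒᵖ (W.H →ₗ[K] W'.H) :=
    { smul c F := F ∘ₗ Algebra.lsmul K K W.H c.unop
      one_smul _ := LinearMap.ext fun v => congrArg _ (one_smul _ v)
      mul_smul a b _ := LinearMap.ext fun v => congrArg _ (mul_smul b.unop a.unop v)
      smul_zero _ := rfl
      smul_add _ _ _ := rfl
      add_smul a b F := LinearMap.ext fun v =>
        (congrArg F (add_smul a.unop b.unop v)).trans (map_add F _ _)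
      zero_smul F := LinearMap.ext fun v => (congrArg F (zero_smul _ v)).trans (map_zero F) }
  { H := W.H →ₗ[K] W'.H
    comm := ⟨fun _ _ _ => rfl⟩
    gr := homGr K W W'
    d := homD K W W'
    d_mem := homD_mem K W W'
    d_d := homD_homD K W W'
    l_mem := fun hb hF m v hv => W'.mem_cast (W'.l_mem hb (hF m v hv)) (by ring)
    r_mem := fun hb hF m v hv => W'.mem_cast (hF _ _ (W.l_mem hb hv)) (by ring)
    d_l := fun b F => LinearMap.ext fun v => by
      change W'.d (b • F v) + b • F (W.d v) = C.d b • F v + b • (W'.d (F v) + F (W.d v))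
      rw [W'.d_l, smul_add, add_assoc]
    d_r := fun b F => LinearMap.ext fun v => by
      change W'.d (F (b • v)) + F (b • W.d v) =
        W'.d (F (b • v)) + F (W.d (b • v)) + F (C.d b • v)
      rw [W.d_l, map_add, add_assoc, add_right_comm, W'.two, zero_add] }

section
variable (W : Bimod D C) [Module K W.H] [IsScalarTower K C.B W.H]
  (W' : Bimod D' C) [Module K W'.H] [IsScalarTower K C.B W'.H]

instance : Module K (HomL K W W').H := inferInstanceAs (Module K (W.H →ₗ[K] W'.H))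

instance : IsScalarTower K C.B (HomL K W W').H := ⟨fun c b (F : W.H →ₗ[K] W'.H) =>
  LinearMap.ext fun v => smul_assoc c b (F v)⟩

instance : IsScalarTower K C.Bᵐᵒᵖ (HomL K W W').H := ⟨fun c b (F : W.H →ₗ[K] W'.H) =>
  LinearMap.ext fun v => (congrArg F (smul_assoc c b.unop v)).trans (F.map_smul _ _)⟩

/-- Evaluation. -/
def HomL.toLin : (HomL K W W').H ≃ₗ[K] (W.H →ₗ[K] W'.H) := LinearEquiv.refl K _

variable {K W W'}

lemma HomL.l_apply (c : C.B) (F : (HomL K W W').H) (v : W.H) :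
    HomL.toLin K W W' (c • F) v = c • HomL.toLin K W W' F v := rfl

lemma HomL.r_apply (c : C.Bᵐᵒᵖ) (F : (HomL K W W').H) (v : W.H) :
    HomL.toLin K W W' (c • F) v = HomL.toLin K W W' F (c.unop • v) := rfl

lemma HomL.d_apply (F : (HomL K W W').H) (v : W.H) : HomL.toLin K W W' ((HomL K W W').d F) v =
    W'.d (HomL.toLin K W W' F v) + HomL.toLin K W W' F (W.d v) := rfl
end

end Mod
end FMD
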