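import Pool.Agent.MP_0e6a9f_ag.H19.NfA

/-! A Hochschild class of the target dies on the image of a category without such classes. -/

set_option linter.unusedSectionVars false

open MulOpposite

noncomputable section
namespace FMD
open _root_.FMD.DGR hiding op
open _root_.FMD.Bimod

variable {K : Type} [Field K] [CharP K 2] {C D : DGR} [Algebra K C.B] [C.KL K]
  [Algebra K D.B] [D.KL K]

section Ut
variable (P : Bimod C C) [Module K P.H] [IsScalarTower K C.B P.H] [IsScalarTower K C.Bᵐᵒᵖ P.H]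
  (X : Tw C)

variable (K) in
/-- `p ↦ (x ↦ x p)`. -/
def ut : P.H →+ (HomR K (Col K C.self X) (Col K P X)).H :=
  AddMonoidHom.mk' (fun p => (HomR.toLin K _ _).symm
    { toFun x := ⟨fun l => Col.val K C.self X x l • p, fun l => by
        rw [smul_smul]; exact congrArg (· • p) (Col.val_e x l)⟩
      map_add' a b := Col.ext fun l => add_smul (Col.val K C.self X a l) _ p
      map_smul' c a := Col.ext fun l => smul_assoc c (Col.val K C.self X a l) p })
    fun a b => HomR.ext fun x => Col.ext fun l => smul_add (Col.val K C.self X x l) a b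

lemma val_ut (p : P.H) (x : (Col K C.self X).H) (l : X.I) :
    Col.val K P X (HomR.toLin K _ _ (ut K P X p) x) l = Col.val K C.self X x l • p := rfl

lemma ut_isHom : IsHom P (HomR K (Col K C.self X) (Col K P X)) (ut K P X) :=
  ⟨fun {n p} hp m x hx l => P.mem_cast (P.l_mem (hx l) hp) (by ring),
    fun p => HomR.ext fun x => Col.ext fun l => by
      simp only [HomR.d_apply, map_add, Pi.add_apply, Col.val_d, val_ut, P.d_l, add_smul,
        Finset.sum_smul, smul_smul, smul_eq_mul]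
      have e1 := P.two (C.d (Col.val K C.self X x l) • p)
      have e2 := P.two (∑ k, (X.δ l k * Col.val K C.self X x k) • p)
      linear_combination (norm := abel) e1 + e2,
    fun c p => HomR.ext fun x => Col.ext fun l => (mul_smul (Col.val K C.self X x l) c p).symm,
    fun c p => HomR.ext fun x => Col.ext fun l => smul_comm (Col.val K C.self X x l) (op c) p⟩

end Ut

variable (V : Bimod C D) [Module K V.H] [IsScalarTower K D.B V.H] [IsScalarTower K C.Bᵐᵒᵖ V.H]

variable (K) in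
/-- `V` as a right module. -/
def resK : Bimod C (pt K) :=
  res (DHom.id C) ⟨algebraMap K D.B, fun {n c} hc => by
    by_cases h : n = 0
    · exact h ▸ KL.alg_mem c
    · rw [(pt_deg0 K).zero hc h, map_zero]; exact zero_mem _,
    fun c => (KL.d_alg c).trans (map_zero _).symm⟩ V

instance : Module K (resK K V).H := ‹Module K V.H›

instance : @IsScalarTower K (pt K).B (resK K V).H _ (resK K V).modL.toSMul _ :=
  @IsScalarTower.mk _ _ _ _ (resK K V).modL.toSMul _ fun a b (v : V.H) =>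
    show algebraMap K D.B (a * b) • v = a • algebraMap K D.B b • v by
      rw [algebraMap_smul, algebraMap_smul, mul_smul]

variable (K) in
/-- The map of right modules given by a row. -/
def rm (X : Tw C) (ψ : Matrix D.O X.I V.H) : (Col K C.self X).H →ₗ[K] V.H :=
  (∑ o, LinearMap.proj o ∘ₗ Col.val K V (Tw.tot D)) ∘ₗ jm K V X (Tw.tot D) ψ

variable {V} {X : Tw C}

lemma rm_def (ψ : Matrix D.O X.I V.H) (x : (Col K C.self X).H) :
    rm K V X ψ x = ∑ o, Col.val K V (Tw.tot D) (jm K V X (Tw.tot D) ψ x) o := by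
  simp [rm]

variable {n : ℤ} {ψ : Matrix D.O X.I V.H} (h : ψ ∈ V.twGr X (Tw.tot D) n)

lemma rm_r (c : C.B) (x : (Col K C.self X).H) : rm K V X ψ (op c • x) = op c • rm K V X ψ x := by
  simp only [rm_def, jm_r, Finset.smul_sum]
  rfl

include h

lemma rm_apply (x : (Col K C.self X).H) :
    rm K V X ψ x = ∑ o, ∑ k, op (Col.val K C.self X x k) • ψ o k := by
  simp only [rm_def, val_jm h]

lemma rm_mem (k : ℤ) (x : (Col K C.self X).H) (hx : x ∈ (Col K C.self X).gr k) :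
    rm K V X ψ x ∈ V.gr (k + n) :=
  rm_def ψ x ▸ sum_mem fun o _ => V.mem_cast (jm_mem h hx o) (add_zero _)

lemma d_rm (x : (Col K C.self X).H) : V.d (rm K V X ψ x) =
    rm K V X ψ ((Col K C.self X).d x) + rm K V X (V.twD X (Tw.tot D) ψ) x := by
  rw [rm_def, rm_def, rm_def, ← Finset.sum_add_distrib, map_sum]
  refine Finset.sum_congr rfl fun o _ => ?_
  rw [← Pi.add_apply, ← map_add, ← d_jm h, Col.val_d]
  simp

omit h

variable {φ : Matrix D.O X.I V.H} (hφ : φ ∈ V.twGr X (Tw.tot D) 0)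
  (dφ : V.twD X (Tw.tot D) φ = 0)
include hφ dφ

lemma rm_isHom : IsHom (Col K C.self X) (resK K V) (rm K V X φ).toAddMonoidHom :=
  ⟨fun hx => V.mem_cast (rm_mem hφ _ _ hx) (add_zero _), fun x => (d_rm hφ x).trans (by
      rw [dφ, rm_apply (zero_mem (V.twGr X (Tw.tot D) 0))]; simp; rfl),
    fun c x => ((rm K V X φ).map_smul c x).trans (algebraMap_smul D.B c _).symm, rm_r⟩

lemma rm_qis (hq : Cx.Qis (C.self.tw (Tw.tot C) X) (V.tw (Tw.tot C) (Tw.tot D)) (V.rmulH φ C.O)) :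
    Cx.Qis (Col K C.self X).cx (resK K V).cx (rm K V X φ).toAddMonoidHom :=
  (totM_qis V).of_comp_left (rm_isHom hφ dφ).isMap ((hq.comp (Col.toM_qis (K := K))).congr
    fun _ x _ => Matrix.ext fun b a => by
      have : ∀ o k, D.e b • φ o k = if b = o then φ b k else 0 := fun o k => by
        have e : D.e o • φ o k = φ o k := cor_l (hφ o k)
        rw [← e, smul_smul, D.e_mul]
        split_ifs with h
        · subst h; exact e
        · exact zero_smul _ _
      change V.pr a b (rm K V X φ x) = ∑ k, op (Col.val K C.self X x k * C.e a) • φ b k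
      rw [rm_apply hφ, pr_apply, Finset.sum_comm]
      simp [Finset.smul_sum, smul_comm (D.e b), this, mul_smul])

omit hφ dφ

variable (R : Res K C) {p : Matrix X.I X.I (Fr R.q).H} (hp : p ∈ (Fr R.q).twGr X X 0)
  (dp : (Fr R.q).twD X X p = 0)

variable (V φ p) in
/-- Evaluation at `φ ⊗ p`. -/
def ev : (RR R.q V).H →+ Matrix D.O X.I V.H :=
  AddMonoidHom.mk' (fun F => pair (mu R.q V) (totM (RR R.q V) F) φ p) fun a b => by
    rw [map_add, pair_add₁]

include hφ dφ hp dp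

lemma ev_isMap : Cx.IsMap (RR R.q V).cx (V.tw X (Tw.tot D)) (ev V φ R p) :=
  ⟨fun {n F} hF => show pair (mu R.q V) (totM (RR R.q V) F) φ p ∈ V.twGr X (Tw.tot D) n from by
      simpa using (mu_tri R.q V).twGr (Z := Tw.tot D) (Z' := Tw.tot D)
        ((totM_qis (RR R.q V)).mem hF) hφ hp,
    fun hF => ((mu_tri R.q V).twD (Z := Tw.tot D) (Z' := Tw.tot D) _ φ p).trans (by
      have z₂ : ∀ F : Matrix D.O D.O (RR R.q V).H,
        pair (mu R.q V) F (0 : Matrix D.O X.I V.H) p = 0 := fun F => by ext; simp [pair]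
      have z₃ : ∀ F : Matrix D.O D.O (RR R.q V).H,
        pair (mu R.q V) F φ (0 : Matrix X.I X.I (Fr R.q).H) = 0 := fun F => by ext; simp [pair]
      rw [dφ, dp, z₂, z₃, add_zero, add_zero]
      exact congrArg (pair (mu R.q V) · φ p) ((totM_qis (RR R.q V)).comm hF))⟩

omit hp dp in
lemma pre_rm (hC : C.self.Honest) (hV : V.Honest)
    (hq : Cx.Qis (C.self.tw (Tw.tot C) X) (V.tw (Tw.tot C) (Tw.tot D)) (V.rmulH φ C.O)) :
    ∃ f : (HomR K V V).H →+ (HomR K (Col K C.self X) V).H, IsHom _ _ f ∧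
      Cx.Qis (HomR K V V).cx (HomR K (Col K C.self X) V).cx f ∧
      ∀ G x, HomR.toLin K _ _ (f G) x = HomR.toLin K V V G (rm K V X φ x) := by
  let f : (HomR K V V).H →+ (HomR K (Col K C.self X) V).H :=
    pre (U := Col K C.self X) (U' := resK K V) V (rm K V X φ)
  have fq : Cx.Qis (HomR K V V).cx (HomR K (Col K C.self X) V).cx f :=
    pre_qis (K := K) (U' := resK K V) V (Col.honest hC) hV (rm_isHom hφ dφ) (rm_qis hφ dφ hq)
  exact ⟨f, ⟨fq.mem, fun G => HomR.ext fun x => congrArg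
    (V.d (HomR.toLin K V V G (rm K V X φ x)) + HomR.toLin K V V G ·) ((rm_isHom hφ dφ).comm x).symm,
    fun c G => HomR.ext fun x => congrArg (HomR.toLin K V V G) (rm_r c x).symm,
    fun _ _ => rfl⟩, fq, fun _ _ => rfl⟩

omit hφ dφ hp dp in
lemma post_aug (hC : C.self.Honest) (X : Tw C) :
    ∃ A : (HomR K (Col K C.self X) (Col K (Fr R.q) X)).H →+
      (HomR K (Col K C.self X) (Col K C.self X)).H, IsHom _ _ A ∧
      Cx.Qis (HomR K (Col K C.self X) (Col K (Fr R.q) X)).cx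
        (HomR K (Col K C.self X) (Col K C.self X)).cx A ∧
      ∀ G x, HomR.toLin K _ _ (A G) x = colMap K R.aug_isHom.isLin X (HomR.toLin K _ _ G x) := by
  have h := colMap_isHom (K := K) R.aug_isHom X
  have Aq : Cx.Qis (HomR K (Col K C.self X) (Col K (Fr R.q) X)).cx
      (HomR K (Col K C.self X) (Col K C.self X)).cx (postR _ _ _ (h.isLin.lin K)) :=
    post_qis (K := K) (Col K C.self X) (Col.honest hC) h (colMap_qis R.aug_isHom R.qis X)
  exact ⟨postR _ _ _ (h.isLin.lin K), ⟨Aq.mem, fun G => HomR.ext fun x => by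
      simp only [HomR.d_apply, postR_apply, map_add, IsLin.lin_apply, h.comm],
    fun _ _ => rfl, fun c _ => HomR.ext fun _ => h.r c _⟩, Aq, fun _ _ => rfl⟩

omit hφ dφ in
lemma exists_htpy (hC : C.self.Honest) (ha : (C.self.tw X X).Bd 0 (p.map R.aug + X.idm)) :
    ∃ E ∈ bhGr R.q (HomR K (Col K C.self X) (Col K C.self X)) 0, bhD R.q _ E = 0 ∧
      ∃ k ∈ bhGr R.q (HomR K (Col K C.self X) (Col K (Fr R.q) X)) (0 - 1), bhD R.q _ k =
        (fun i => ut K (Fr R.q) X (Fr.gen R.q i)) +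
          fun i => postR _ _ _ (jm K (Fr R.q) X X p) (E i) := by
  obtain ⟨χ, hχ, eχ⟩ := ha
  obtain ⟨A, Ah, Aq, Aa⟩ := post_aug R hC X
  obtain ⟨U, eU⟩ : ∃ U, U = fun i => ut K (Fr R.q) X (Fr.gen R.q i) := ⟨_, rfl⟩
  have hU : U ∈ bhGr R.q _ 0 := eU ▸ ((ut_isHom (Fr R.q) X).bh R.q).mem gen_bhGr
  have dU : bhD R.q _ U = 0 := eU ▸ ((ut_isHom (Fr R.q) X).bh R.q).cyc gen_bhGr bhD_gen
  have hE : (fun i => A (U i)) ∈ bhGr R.q _ 0 := (Ah.bh R.q).mem hU
  have dE : bhD R.q _ (fun i => A (U i)) = 0 := (Ah.bh R.q).cyc hU dU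
  refine ⟨_, hE, dE, ?_⟩
  rw [← eU]
  have hJ := postR_bhGr (jm_r p) (fun _ _ => jm_mem hp) hE
  have dJ := postR_bhD (jm_r p) (d_jm hp) fun i => A (U i)
  have hB := postR_bhGr (jm_r χ) (fun _ _ => jm_mem hχ) hE
  have dB := postR_bhD (jm_r χ) (d_jm hχ) fun i => A (U i)
  have e : C.self.twD X X χ = p.map R.aug + X.idm := eχ
  rw [dE] at dJ dB
  refine (Ah.bh_qis Aq R.q).inj 0 _ (add_mem hU hJ) ?_ ⟨_, hB, dB.trans ?_⟩
  · change bhD R.q _ _ = 0
    rw [map_add, dU, dJ, dp]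
    refine funext fun i => HomR.ext fun x => Col.ext fun l => ?_
    simp [postR_apply, val_jm (zero_mem ((Fr R.q).twGr X X 0))]
  · refine funext fun i => HomR.ext fun x => ?_
    change _ = HomR.toLin K _ _ (A (U i + postR _ _ _ (jm K (Fr R.q) X X p) (A (U i)))) x
    simp only [Pi.add_apply, Pi.zero_apply, map_zero, zero_add, postR_apply, e, map_add,
      LinearMap.add_apply, Aa, colMap_jm]
    rw [jm_add (H := C.self), LinearMap.add_apply, jm_idm, add_comm]

lemma ev_inj (hC : C.self.Honest) (hV : V.Honest)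
    (hq : Cx.Qis (C.self.tw (Tw.tot C) X) (V.tw (Tw.tot C) (Tw.tot D)) (V.rmulH φ C.O))
    (ha : (C.self.tw X X).Bd 0 (p.map R.aug + X.idm)) (n : ℤ) :
    Cx.InjAt (RR R.q V).cx (V.tw X (Tw.tot D)) (ev V φ R p) n := by
  rintro F hF dF ⟨v, hv, ev'⟩
  have T := mu_tri R.q V
  obtain ⟨f, fh, fq, fa⟩ := pre_rm (K := K) hφ dφ hC hV hq
  obtain ⟨E, hE, dE, k, hk, ek⟩ := exists_htpy R hp dp hC ha
  refine (fh.bh_qis fq R.q).inj n F hF dF ?_
  obtain ⟨G, Ga⟩ : ∃ G : (Col K (Fr R.q) X).H →ₗ[K] V.H,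
      ∀ q, G q = ∑ o, ∑ l, mu R.q V F (φ o l) (Col.val K _ X q l) :=
    ⟨{ toFun q := ∑ o, ∑ l, mu R.q V F (φ o l) (Col.val K _ X q l)
       map_add' a b := by simp [Finset.sum_add_distrib]
       map_smul' c a := by
        have : ∀ v p, mu R.q V F v (c • p) = c • mu R.q V F v p := fun v p => by
          rw [← algebraMap_smul C.Bᵐᵒᵖ c p, ← algebraMap_smul C.Bᵐᵒᵖ c]; exact T.r _ F v p
        simp [this, Finset.smul_sum] }, fun _ => rfl⟩
  have Gr : ∀ (c : C.B) q, G (op c • q) = op c • G q := fun c q => by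
    simp only [Ga, Col.val_r, T.r, Finset.smul_sum]
  have Gm : ∀ m q, q ∈ (Col K (Fr R.q) X).gr m → G q ∈ V.gr (m + n) := fun m q hq => Ga q ▸
    sum_mem fun o _ => sum_mem fun l _ => V.mem_cast (T.mem hF (hφ o l).1 (hq l)) (by simp; ring)
  have Gd : ∀ q, V.d (G q) = G ((Col K (Fr R.q) X).d q) + (0 : _ →ₗ[K] V.H) q := fun q => by
    have e : ∀ o l, V.d (φ o l) = ∑ k, op (X.δ k l) • φ o k := fun o l =>
      V.cx.eq_of_add (congrFun (congrFun ((twD_tot' V X φ).symm.trans dφ) o) l)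
    have dF' : (RR R.q V).d F = 0 := dF
    simp only [Ga, map_sum, T.d, dF', map_zero, AddMonoidHom.zero_apply, zero_add, e, Col.val_d,
      map_add, AddMonoidHom.finsetSum_apply, T.m', LinearMap.zero_apply, add_zero,
      Finset.sum_add_distrib]
    rw [add_comm]
    exact congrArg _ (Finset.sum_congr rfl fun _ _ => Finset.sum_comm)
  have GU : ∀ i x, G (HomR.toLin K _ _ (ut K (Fr R.q) X (Fr.gen R.q i)) x) =
      HomR.toLin K _ _ (f (F i)) x := fun i x => by
    have : ∀ w, mu R.q V F w (Fr.gen R.q i) = HomR.toLin K V V (F i) w := fun w =>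
      congrArg (HomR.toLin K V V · w) (lift_gen (M := HomR K V V) hF i)
    simp only [Ga, fa, val_ut, ← T.m', rm_apply hφ, map_sum, this]
  have Gj : ∀ x, G (jm K (Fr R.q) X X p x) = rm K V X (V.twD X (Tw.tot D) v) x := fun x => by
    have e : V.twD X (Tw.tot D) v = pair (mu R.q V) (totM (RR R.q V) F) φ p := ev'
    have e' : ∀ o l, D.e o • φ o l = φ o l := fun o l => cor_l (hφ o l)
    have s : ∀ w : V.H, ∑ o, D.e o • w = w := fun w => by rw [← Finset.sum_smul, D.e_sum, one_smul]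
    rw [rm_apply ((V.tw X (Tw.tot D)).d_mem hv), e, Finset.sum_comm]
    simp only [Ga, val_jm hp, map_sum, T.r, pair, totM_apply, pr_apply, T.l, T.m, e',
      ← Finset.smul_sum, s]
    simp only [Finset.smul_sum]
    rw [Finset.sum_congr rfl fun _ _ => Finset.sum_comm, Finset.sum_comm]
  have h1 := postR_bhGr Gr Gm hk
  have h2 := postR_bhGr rm_r (rm_mem hv) hE
  have d1 := postR_bhD Gr Gd k
  have d2 := postR_bhD rm_r (d_rm hv) E
  rw [show 0 - 1 + n = n - 1 by ring] at h1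
  rw [zero_add] at h2
  refine ⟨_, add_mem h1 h2, (map_add (bhD R.q _) _ _).trans ?_⟩
  rw [d1, d2, ek, dE]
  refine funext fun i => HomR.ext fun x => ?_
  simp only [Pi.add_apply, map_add, LinearMap.add_apply, postR_apply, Pi.zero_apply, map_zero,
    LinearMap.zero_apply, add_zero, zero_add, GU, Gj]
  exact V.cx.add_add_cancel' _ _

omit hφ dφ hp dp

theorem nf : NfStmt := by
  intro K _ _ C D _ _ _ _ R R₁ m hC hh ξ hξ dξ V _ _ _ hV X₀ φ₀ h₀ d₀ qR qL X Z φ hφ dφ p hp dp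
  have lift1 : ∀ {E : DGR} [Algebra K E.B] [E.KL K] (R : Res K E) (X : Tw E),
      ∃ p ∈ (Fr R.q).twGr X X 0, (Fr R.q).twD X X p = 0 ∧
        (E.self.tw X X).Bd 0 (p.map R.aug + X.idm) := fun R X =>
    (R.aug_isHom.tw_qis R.qis X X).surj 0 X.idm X.idm_mem X.twD_idm
  obtain ⟨p₀, hp₀, dp₀, χ, hχ, eχ⟩ := lift1 R X₀
  have uh : IsHom D.self (RR R.q V) (uc R.q V R.a) :=
    ⟨fun hb => (RR R.q V).mem_cast (uc_mem R.a_mem _ _ hb) (add_zero _), d_uc R.a_mem R.a_d,
      (uc_isLin _).l, (uc_isLin _).r⟩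
  have evm := ev_isMap h₀ d₀ R hp₀ dp₀
  have uq : Cx.Qis D.self.cx (RR R.q V).cx (uc R.q V R.a) := by
    refine Cx.Qis.of_inj uh.isMap evm (ev_inj h₀ d₀ R hp₀ dp₀ hC hV qR ⟨χ, hχ, eχ⟩)
      ((qL.comp (totM_qis D.self)).homotopic (evm.comp uh.isMap)
        (fun b => V.lmul (totM D.self b) (V.rmul φ₀ χ)) (fun n b hb => ?_) fun n b hb db => ?_)
    · simpa [sub_eq_add_neg] using V.lmul_mem (y := Tw.tot D) (z := Tw.tot D)
        ((totM_qis D.self).mem hb) (V.rmul_mem hχ h₀)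
    · have e : C.self.twD X₀ X₀ χ = p₀.map R.aug + X₀.idm := eχ
      have e1 : totM (RR R.q V) (uc R.q V R.a b) = (totM D.self b).map (uc R.q V R.a) :=
        Matrix.ext fun _ _ => ((uc_isLin _).pr _ _ _).symm
      have e2 : D.self.twD (Tw.tot D) (Tw.tot D) (totM D.self b) = 0 :=
        (totM_qis D.self).toIsMap.cyc hb db
      change pair (mu R.q V) (totM (RR R.q V) (uc R.q V R.a b)) φ₀ p₀ =
        V.lmul (totM D.self b) φ₀ + V.twD X₀ (Tw.tot D) (V.lmul (totM D.self b) (V.rmul φ₀ χ))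
      rw [e1, pair_uc, V.twD_lmul (y := Tw.tot D) (z := Tw.tot D), e2, V.twD_rmul, d₀, e,
        V.zero_lmul, V.zero_rmul, zero_add, zero_add, V.rmul_add, V.rmul_idm h₀, V.lmul_add,
        add_left_comm, V.mat_two, add_zero]
  -- the class of `ξ` is a boundary over `D`
  have cm := (uc_isLin (V := V) ξ).bhGr (y := R₁.q) (uc_mem hξ) R₁.a_mem
  have cd : bhD R₁.q (RR R.q V) (fun i => uc R.q V ξ (R₁.a i)) = 0 :=
    ((uc_isLin ξ).bhD (g := 0) (fun b => (d_uc hξ dξ b).trans (add_zero _).symm) R₁.a).trans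
      (funext fun i => by simp [R₁.a_d])
  obtain ⟨h, hh', eh⟩ := (uh.bh_qis uq R₁.q).acyc_right hh _ (zero_add m ▸ cm) cd
  obtain ⟨p₁, hp₁, dp₁, χ₁, hχ₁, eχ₁⟩ := lift1 R₁ Z
  have eh' : bhD R₁.q (RR R.q V) h = fun i => uc R.q V ξ (R₁.a i) := eh
  have e1 : D.self.twD Z Z χ₁ = p₁.map R₁.aug + Z.idm := eχ₁
  have hw : p.map (lift R.q C.self ξ) ∈ C.self.twGr X X (0 + m) :=
    (lift_isLin ξ).map_mem (fun _ _ => lift_mem hξ) hp
  have dw : C.self.twD X X (p.map (lift R.q C.self ξ)) = 0 := by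
    rw [(lift_isLin ξ).twD (g := 0) (fun v => by rw [d_lift, dξ, lift_zero]; rfl), dp]
    ext; simp
  have dk : (RR R.q V).twD Z Z (p₁.map (lift R₁.q (RR R.q V) h)) =
      (p₁.map R₁.aug).map (uc R.q V ξ) := by
    rw [(lift_isLin h).twD (d_lift h), dp₁, eh']
    ext i j
    simp [(uc_isLin ξ).lift R₁.a]
  have z₂ : ∀ F : Matrix Z.I Z.I (RR R.q V).H,
    pair (mu R.q V) F (0 : Matrix Z.I X.I V.H) p = 0 := fun F => by ext; simp [pair]
  have z₃ : ∀ F : Matrix Z.I Z.I (RR R.q V).H,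
    pair (mu R.q V) F φ (0 : Matrix X.I X.I (Fr R.q).H) = 0 := fun F => by ext; simp [pair]
  refine ⟨pair (mu R.q V) (p₁.map (lift R₁.q (RR R.q V) h)) φ p +
    V.lmul χ₁ (V.rmul φ (p.map (lift R.q C.self ξ))), add_mem ?_ ?_, ?_⟩
  · simpa using (mu_tri R.q V).twGr
      ((lift_isLin h).map_mem (fun _ _ => lift_mem hh') hp₁) hφ hp
  · simpa [sub_eq_add_neg, add_comm] using V.lmul_mem hχ₁ (V.rmul_mem hw hφ)
  · change V.twD X Z _ = _
    rw [map_add, (mu_tri R.q V).twD, dφ, dp, z₂, z₃, dk, pair_uc, V.twD_lmul, V.twD_rmul, dφ, dw,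
      e1, V.add_lmul, V.lmul_idm (V.rmul_mem hw hφ)]
    simp [← add_assoc, V.mat_two]

end FMD
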