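import Pool.Agent.MP_0e6a9f_ag.H19.Col

/-! Maps between modules of columns; the bimodule of derived endomorphisms. -/

set_option linter.unusedSectionVars false

open MulOpposite

noncomputable section
namespace FMD
open _root_.FMD.DGR hiding op
open _root_.FMD.Bimod

variable {K : Type} [Field K] [CharP K 2] {C C' D : DGR} [Algebra K C.B] [C.KL K]
  [Algebra K C'.B] [C'.KL K] [Algebra K D.B] [D.KL K]

section ColMap
variable {H H' : Bimod C C'} [Module K H.H] [IsScalarTower K C'.B H.H]
  [IsScalarTower K C.Bᵐᵒᵖ H.H] [Module K H'.H] [IsScalarTower K C'.B H'.H]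
  [IsScalarTower K C.Bᵐᵒᵖ H'.H] {f : H.H →+ H'.H}

variable (K) in
/-- A bimodule map acts on columns. -/
def colMap (hf : IsLin H H' f) (x : Tw C') : (Col K H x).H →+ (Col K H' x).H :=
  AddMonoidHom.mk' (fun v => ⟨fun i => f (Col.val K H x v i), fun i => by
    rw [← hf.l, Col.val_e]⟩) fun a b => Col.ext fun i =>
      map_add f (Col.val K H x a i) (Col.val K H x b i)

lemma val_colMap (hf : IsLin H H' f) (x : Tw C') (v : (Col K H x).H) (i : x.I) :
    Col.val K H' x (colMap K hf x v) i = f (Col.val K H x v i) := rfl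

lemma colMap_isHom (hf : IsHom H H' f) (x : Tw C') :
    IsHom (Col K H x) (Col K H' x) (colMap K hf.isLin x) :=
  ⟨fun hv i => hf.mem (hv i), fun v => Col.ext fun i => by
      simp only [Col.val_d, val_colMap, map_add, map_sum, hf.comm, hf.l],
    fun c v => Col.ext fun i => hf.isLin.smul (K := K) c _, fun c v => Col.ext fun i => hf.r c _⟩

lemma colMap_qis (hf : IsHom H H' f) (h : Cx.Qis H.cx H'.cx f) (x : Tw C') :
    Cx.Qis (Col K H x).cx (Col K H' x).cx (colMap K hf.isLin x) :=
  Col.toM_qis.of_comp_left (colMap_isHom hf x).isMap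
    (((hf.tw_qis h (Tw.tot C) x).comp Col.toM_qis).congr fun _ _ _ =>
      Matrix.ext fun _ _ => (hf.r _ _).symm)

variable (K H) in
/-- Multiplication of columns by a matrix. -/
def jm (X : Tw C) (Y : Tw C') (m : Matrix Y.I X.I H.H) :
    (Col K C.self X).H →ₗ[K] (Col K H Y).H where
  toFun v := Col.mk K H Y fun l => ∑ k, op (Col.val K C.self X v k) • m l k
  map_add' a b := Col.ext fun l => by simp [Col.val_mk, add_smul, Finset.sum_add_distrib]
  map_smul' c a := Col.ext fun l => by
    simp [Col.val_mk, Finset.smul_sum, smul_comm c]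

variable {X : Tw C} {Y : Tw C'}

lemma val_jm {n : ℤ} {m : Matrix Y.I X.I H.H} (hm : m ∈ H.twGr X Y n) (v : (Col K C.self X).H)
    (l : Y.I) : Col.val K H Y (jm K H X Y m v) l = ∑ k, op (Col.val K C.self X v k) • m l k := by
  change C'.e (Y.ob l) • ∑ k, op (Col.val K C.self X v k) • m l k = _
  simp only [Finset.smul_sum, smul_comm (C'.e _), cor_l (hm l _)]

lemma jm_add (m m' : Matrix Y.I X.I H.H) :
    jm K H X Y (m + m') = jm K H X Y m + jm K H X Y m' :=
  LinearMap.ext fun v => Col.ext fun l => by simp [jm, Col.val_mk, Finset.sum_add_distrib]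

lemma jm_r (m : Matrix Y.I X.I H.H) (c : C.B) (v : (Col K C.self X).H) :
    jm K H X Y m (op c • v) = op c • jm K H X Y m v := Col.ext fun l => by
  simp [jm, Col.val_mk, Col.val_r, Finset.smul_sum, mul_smul, smul_comm (C'.e _)]

lemma jm_mem {n k : ℤ} {m : Matrix Y.I X.I H.H} (hm : m ∈ H.twGr X Y n) {v : (Col K C.self X).H}
    (hv : v ∈ (Col K C.self X).gr k) : jm K H X Y m v ∈ (Col K H Y).gr (k + n) :=
  Col.mem_gr.2 fun l => val_jm hm v l ▸ sum_mem fun j _ =>
    H.mem_cast (H.r_mem (hv j) (hm l j).1) (by ring)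

lemma d_jm {n : ℤ} {m : Matrix Y.I X.I H.H} (hm : m ∈ H.twGr X Y n) (v : (Col K C.self X).H) :
    (Col K H Y).d (jm K H X Y m v) =
      jm K H X Y m ((Col K C.self X).d v) + jm K H X Y (H.twD X Y m) v := Col.ext fun l => by
  have e : ∑ k, ∑ j, op (Col.val K C.self X v j) • op (X.δ k j) • m l k =
      ∑ j, ∑ k, op (Col.val K C.self X v j) • op (X.δ k j) • m l k := Finset.sum_comm
  have e' : ∑ k, ∑ j, op (Col.val K C.self X v j) • Y.δ l k • m k j =
      ∑ j, ∑ k, op (Col.val K C.self X v j) • Y.δ l k • m k j := Finset.sum_comm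
  rw [map_add, Pi.add_apply, val_jm ((H.tw X Y).d_mem hm), Col.val_d, val_jm hm, val_jm hm]
  simp only [val_jm hm, Col.val_d, map_sum, H.d_r, twD_apply, Matrix.add_apply, Matrix.map_apply,
    lmul, rmul, smul_add, Finset.smul_sum, Finset.sum_add_distrib, op_add, add_smul, smul_eq_mul,
    Finset.op_sum, Finset.sum_smul, op_mul, mul_smul, smul_comm (Y.δ l _), e, e']
  have t := H.two (∑ j, ∑ k, op (Col.val K C.self X v j) • op (X.δ k j) • m l k)
  linear_combination (norm := abel) -t

lemma jm_idm (v : (Col K C.self X).H) : jm K C.self X X X.idm v = v := Col.ext fun l => by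
  rw [val_jm X.idm_mem]
  simp only [Tw.idm, Matrix.diagonal_apply, smul_ite, smul_zero, Finset.sum_ite_eq,
    Finset.mem_univ, if_true]
  exact Col.val_e v l

lemma colMap_jm (hf : IsLin H H' f) (m : Matrix Y.I X.I H.H) (v : (Col K C.self X).H) :
    colMap K hf Y (jm K H X Y m v) = jm K H' X Y (m.map f) v := Col.ext fun l => by
  simp [val_colMap, jm, Col.val_mk, hf.l, hf.r]

end ColMap

section PostR
variable {D₁ D₂ : DGR} [Algebra K D₁.B] [D₁.KL K] [Algebra K D₂.B] [D₂.KL K]
  (W : Bimod C D) [Module K W.H] [IsScalarTower K D.B W.H] [IsScalarTower K C.Bᵐᵒᵖ W.H]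
  (U : Bimod C D₁) [Module K U.H] [IsScalarTower K D₁.B U.H] [IsScalarTower K C.Bᵐᵒᵖ U.H]
  (U' : Bimod C D₂) [Module K U'.H] [IsScalarTower K D₂.B U'.H] [IsScalarTower K C.Bᵐᵒᵖ U'.H]

/-- Composition on the left. -/
def postR (g : U.H →ₗ[K] U'.H) : (HomR K W U).H →+ (HomR K W U').H :=
  AddMonoidHom.mk' (fun F : W.H →ₗ[K] U.H => g ∘ₗ F) fun _ _ => LinearMap.comp_add _ _ _

variable {W U U'}

lemma HomR.ext {F G : (HomR K W U).H}
    (h : ∀ v, HomR.toLin K W U F v = HomR.toLin K W U G v) : F = G := LinearMap.ext h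

lemma postR_apply (g : U.H →ₗ[K] U'.H) (F : (HomR K W U).H) (v : W.H) :
    HomR.toLin K W U' (postR W U U' g F) v = g (HomR.toLin K W U F v) := rfl

lemma postR_isLin {g : U.H →ₗ[K] U'.H} (hg : ∀ (c : C.B) v, g (op c • v) = op c • g v) :
    IsLin _ _ (postR W U U' g) := ⟨fun _ _ => rfl, fun c _ => HomR.ext fun _ => hg c _⟩

variable {y : Tw (env K C C)}

lemma postR_bhD {g g' : U.H →ₗ[K] U'.H} (hg : ∀ (c : C.B) v, g (op c • v) = op c • g v)
    (hd : ∀ v, U'.d (g v) = g (U.d v) + g' v) (m : y.I → (HomR K W U).H) :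
    bhD y _ (fun i => postR W U U' g (m i)) =
      (fun i => postR W U U' g (bhD y _ m i)) + fun i => postR W U U' g' (m i) :=
  (postR_isLin hg).bhD (fun F => HomR.ext fun v => by
    simp only [HomR.d_apply, postR_apply, map_add, LinearMap.add_apply, hd]
    abel) m

lemma postR_bhGr {g : U.H →ₗ[K] U'.H} (hg : ∀ (c : C.B) v, g (op c • v) = op c • g v) {k n : ℤ}
    (hk : ∀ n v, v ∈ U.gr n → g v ∈ U'.gr (n + k)) {m : y.I → (HomR K W U).H}
    (hm : m ∈ bhGr y _ n) : (fun i => postR W U U' g (m i)) ∈ bhGr y _ (n + k) :=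
  (postR_isLin hg).bhGr (fun _ _ hF j v hv => U'.mem_cast (hk _ _ (hF j v hv)) (by ring)) hm

end PostR

section RR
variable (y : Tw (env K C C))
  (V : Bimod C D) [Module K V.H] [IsScalarTower K D.B V.H] [IsScalarTower K C.Bᵐᵒᵖ V.H]

variable (K) in
/-- The left action of `D` after a map. -/
def lL (b : D.B) : (HomR K V V).H →+ (HomR K V V).H :=
  DistribSMul.toAddMonoidHom (HomL K V V).H b

variable (K) in
/-- The left action of `D` before a map. -/
def rL (b : D.B) : (HomR K V V).H →+ (HomR K V V).H :=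
  DistribSMul.toAddMonoidHom (HomL K V V).H (op b)

lemma lL_isLin (b : D.B) : IsLin _ _ (lL K V b) :=
  ⟨fun _ _ => rfl, fun c F => HomR.ext fun v => smul_comm b (op c) (HomR.toLin K V V F v)⟩

lemma rL_isLin (b : D.B) : IsLin _ _ (rL K V b) :=
  ⟨fun c F => HomR.ext fun v => congrArg (HomR.toLin K V V F) (smul_comm b (op c) v).symm,
    fun _ _ => rfl⟩

/-- Derived endomorphisms of the right module `V`, as a bimodule over `D`. -/
def RR : Bimod D D where
  H := y.I → (HomL K V V).H
  gr := bhGr y (HomR K V V)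
  d := bhD y (HomR K V V)
  d_mem := (BH y (HomR K V V)).d_mem
  d_d := bhD_bhD y (HomR K V V)
  l_mem {m n b _} hb hF := add_comm n m ▸ (lL_isLin V b).bhGr (k := m)
    (fun j _ h => add_comm m j ▸ (HomL K V V).l_mem hb h) hF
  r_mem {_ _ b _} hb hF := (rL_isLin V b).bhGr (fun _ _ h => (HomL K V V).r_mem hb h) hF
  d_l b F := ((lL_isLin V b).bhD (g := lL K V (D.d b))
    (fun G => ((HomL K V V).d_l b G).trans (add_comm _ _)) F).trans (add_comm _ _)
  d_r b F := (rL_isLin V b).bhD (g := rL K V (D.d b)) (fun G => (HomL K V V).d_r b G) F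

instance : Module K (RR y V).H := inferInstanceAs (Module K (y.I → (HomL K V V).H))
instance : IsScalarTower K D.B (RR y V).H :=
  inferInstanceAs (IsScalarTower K D.B (y.I → (HomL K V V).H))
instance : IsScalarTower K D.Bᵐᵒᵖ (RR y V).H :=
  inferInstanceAs (IsScalarTower K D.Bᵐᵒᵖ (y.I → (HomL K V V).H))

/-- Evaluation. -/
def mu : (RR y V).H →+ V.H →+ (Fr y).H →+ V.H :=
  AddMonoidHom.mk' (fun F => AddMonoidHom.mk' (fun v => AddMonoidHom.mk'
    (fun p => HomR.toLin K V V (lift y (HomR K V V) F p) v) fun a b => by simp)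
      fun a b => by ext; simp) fun a b => by
        ext v p
        exact congrArg (HomR.toLin K V V · v) (lift_add (M := HomR K V V) a b p)

lemma mu_apply (F : (RR y V).H) (v : V.H) (p : (Fr y).H) :
    mu y V F v p = HomR.toLin K V V (lift y (HomR K V V) F p) v := rfl

lemma mu_tri : Tri (RR y V) V (Fr y) (mu y V) where
  l b F v p := congrArg (HomR.toLin K V V · v) ((lL_isLin V b).lift F p).symm
  m b F v p := congrArg (HomR.toLin K V V · v) ((rL_isLin V b).lift F p).symm
  m' c F v p := congrArg (HomR.toLin K V V · v) ((lift_isLin (M := HomR K V V) F).l c p).symm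
  r c F v p := congrArg (HomR.toLin K V V · v) ((lift_isLin (M := HomR K V V) F).r c p)
  d F v p := by
    have h := congrArg (HomR.toLin K V V · v) (d_lift (M := HomR K V V) F p)
    simp only [HomR.d_apply, map_add, LinearMap.add_apply] at h
    have t := V.two (mu y V F (V.d v) p)
    simp only [mu_apply] at t ⊢
    change _ = HomR.toLin K V V (lift y (HomR K V V) (bhD y (HomR K V V) F) p) v + _ + _
    linear_combination (norm := abel) h - t
  mem hF hv hp := V.mem_cast (lift_mem (M := HomR K V V) hF hp _ _ hv) (by ring)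

variable (K) in
/-- The right action as a map of bimodules. -/
def rho : C.B →+ (HomR K V V).H :=
  AddMonoidHom.mk' (fun c => Algebra.lsmul K K V.H (op c)) fun a b =>
    HomR.ext fun v => add_smul (op a) (op b) v

lemma rho_isHom : IsHom C.self (HomR K V V) (rho K V) :=
  ⟨fun hc m v hv => V.r_mem hc hv, fun c => HomR.ext fun v => by
      change V.d (op c • v) + op c • V.d v = op (C.d c) • v
      rw [V.d_r, add_right_comm, V.two, zero_add],
    fun b c => HomR.ext fun v => mul_smul (op c) (op b) v,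
    fun b c => HomR.ext fun v => mul_smul (op b) (op c) v⟩

/-- The cochain `ξ` acts on `V` on the right. -/
def cen (ξ : y.I → C.B) : (RR y V).H := fun i => rho K V (ξ i)

/-- `b ↦ b ξ`. -/
def uc (ξ : y.I → C.B) : D.B →+ (RR y V).H :=
  AddMonoidHom.mk' (fun b => b • cen y V ξ) fun _ _ => add_smul _ _ _

variable {y V}

lemma uc_isLin (ξ : y.I → C.B) : IsLin D.self (RR y V) (uc y V ξ) :=
  ⟨fun b c => mul_smul b c _, fun b c => funext fun i => HomR.ext fun v => by
    change (c * b) • op (ξ i) • v = c • op (ξ i) • b • v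
    rw [mul_smul, smul_comm b]⟩

lemma uc_mem {m : ℤ} {ξ : y.I → C.B} (h : ξ ∈ bhGr y C.self m) (n : ℤ) (b : D.B)
    (hb : b ∈ D.gr n) : uc y V ξ b ∈ (RR y V).gr (n + m) :=
  (RR y V).l_mem hb (((rho_isHom V).bh y).mem h)

lemma d_uc {m : ℤ} {ξ : y.I → C.B} (h : ξ ∈ bhGr y C.self m) (hd : bhD y C.self ξ = 0)
    (b : D.B) : (RR y V).d (uc y V ξ b) = uc y V ξ (D.d b) :=
  ((RR y V).d_l b _).trans (by
    rw [show (RR y V).d (cen y V ξ) = 0 from ((rho_isHom V).bh y).cyc h hd, smul_zero, add_zero]; rfl)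

lemma mu_uc (ξ : y.I → C.B) (b : D.B) (v : V.H) (p : (Fr y).H) :
    mu y V (uc y V ξ b) v p = b • op (lift y C.self ξ p) • v :=
  ((mu_tri y V).l b _ v p).trans (congrArg (b • HomR.toLin K V V · v)
    ((rho_isHom V).isLin.lift ξ p).symm)

lemma pair_uc (ξ : y.I → C.B) {I J L M : Type} [Fintype J] [Fintype L] (g : Matrix I J D.B)
    (φ : Matrix J L V.H) (p : Matrix L M (Fr y).H) : pair (mu y V) (g.map (uc y V ξ)) φ p =
      V.lmul g (V.rmul φ (p.map (lift y C.self ξ))) := by
  ext i k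
  simp [pair, lmul, rmul, mu_uc, Finset.smul_sum]

end RR
end FMD
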