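import Pool.Agent.MP_0e6a9f_ag.H19.RealB

/-! The canonical algebra is realized by line bundles. -/

set_option linter.unusedSectionVars false

open FMD FMD.DG MvPolynomial Finsupp

noncomputable section
namespace FMX
namespace RP

/-- The degrees of the line bundles. -/
def ad : COb (Fin 4) → B → ℤ
  | .z => 0
  | .x i => e (a i)
  | .w => dr

/-- The blocks in order. -/
def bs : List B := [.inl 0, .inl 1, .inl 2, .inl 3, .inr false, .inr true]

lemma d1 : ∀ t i, e (.inr (t, i)) (.inr t) = 1 := by decide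
lemma d2 : ∀ t i k s, (e (.inr (t, i)) - e (.inr (t, k))) (.inr s) = 0 := by decide
lemma d3 : ∀ t i k, (∀ l, 0 ≤ (e (.inr (t, i)) - e (.inr (t, k))) (.inl l)) → k = i := by decide
lemma d4 : ∀ v j, nn v j ≠ 0 → Sum.elim (fun _ => 0) (fun _ => 1) j <
    Sum.elim (fun _ => 0) (fun _ => 1) (blk v) := by decide
lemma d5 : ∀ i v, (blk v = i → e v i = 1) ∧ (blk v ≠ i → e v i ≤ 0) := by decide
lemma d6 : ∀ i, ∀ k : Fin 3,
    1 - ((Finset.univ.filter (blk · = i)).card : ℤ) ≤ -1 - k * dr i := by decide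
lemma d7 : bs.Nodup ∧ (∀ i, i ∈ bs) ∧ bs.Pairwise fun i j => ∀ v, blk v = i → e v j = 0 :=
  ⟨by decide, by rintro (k | _ | _) <;> simp [bs]; omega, by
    simp only [bs, List.pairwise_cons, List.forall_mem_cons, List.not_mem_nil, IsEmpty.forall_iff,
      implies_true, and_true, List.Pairwise.nil]
    refine ⟨⟨?_, ?_, ?_, ?_, ?_⟩, ⟨?_, ?_, ?_, ?_⟩, ⟨?_, ?_, ?_⟩, ⟨?_, ?_⟩, ?_⟩ <;> decide⟩
lemma d8 : ∀ o' o i, -1 ≤ (ad o' - ad o) i := by
  rintro (_ | i | _) (_ | j | _) <;> decide +revert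

lemma w_eq (m : V →₀ ℕ) (j : B) : weight e m j = ∑ v, (m v : ℤ) * e v j := by
  rw [weight_apply, sum_fintype _ _ (by simp), Finset.sum_apply]; simp

lemma w_r (m : V →₀ ℕ) (t : Bool) : weight e m (.inr t) = ∑ i, (m (.inr (t, i)) : ℤ) := by
  rw [w_eq]
  cases t <;> simp [Fintype.sum_sum_type, Fintype.sum_prod_type, e, blk, nn]

lemma w_l (m : V →₀ ℕ) (h : ∀ v, m (.inr v) = 0) (k : Fin 4) :
    weight e m (.inl k) = m (.inl (k, true)) + m (.inl (k, false)) := by
  rw [w_eq]
  simp [Fintype.sum_sum_type, Fintype.sum_prod_type, e, blk, nn, h, Pi.single_apply,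
    Finset.sum_add_distrib]

lemma mon_r {m : V →₀ ℕ} (h : ∀ t, weight e m (.inr t) = 0) (v) : m (.inr v) = 0 := by
  have := (w_r m v.1).symm.trans (h _)
  exact_mod_cast (Finset.sum_eq_zero_iff_of_nonneg fun _ _ => Nat.cast_nonneg _).1 this v.2
    (Finset.mem_univ _)

lemma mon_l {m : V →₀ ℕ} (h : ∀ t, weight e m (.inr t) = 0) (k) : 0 ≤ weight e m (.inl k) := by
  rw [w_l m (mon_r h)]; positivity

lemma mon_zero {m : V →₀ ℕ} (h : weight e m = 0) : m = 0 := by
  have h' := mon_r (m := m) fun t => congrFun h _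
  ext (⟨k, s⟩ | v)
  · have := (w_l m h' k).symm.trans (congrFun h _)
    cases s <;> simp at this ⊢ <;> omega
  · exact h' v

lemma mon_split {m : V →₀ ℕ} {t : Bool} (h : weight e m (.inr t) = 1) :
    ∃ i m', m = single (.inr (t, i)) 1 + m' ∧ weight e m' = weight e m - e (.inr (t, i)) := by
  obtain ⟨i, -, hi⟩ := Finset.exists_ne_zero_of_sum_ne_zero
    (((w_r m t).symm.trans h).trans_ne one_ne_zero)
  have := (add_tsub_cancel_of_le (single_le_iff.2 (show 1 ≤ m (.inr (t, i)) by omega))).symm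
  exact ⟨i, _, this, by conv_rhs => rw [this, map_add, weight_single, one_smul, add_sub_cancel_left]⟩

lemma mon_v {m : V →₀ ℕ} {t : Bool} {i : Fin 4} (h : weight e m = e (.inr (t, i))) :
    m = single (.inr (t, i)) 1 := by
  obtain ⟨k, m', rfl, h'⟩ := mon_split (m := m) (t := t) (by rw [h, d1])
  rw [h] at h'
  have := mon_l (m := m') fun s => by rw [h', d2]
  rw [h'] at this
  obtain rfl : k = i := d3 _ _ _ this
  rw [mon_zero (h'.trans (sub_self _)), add_zero]

lemma mon_dr {m : V →₀ ℕ} (h : weight e m = dr) : ∃ k, m = single (a k) 1 + single (b k) 1 := by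
  obtain ⟨k, m', rfl, h'⟩ := mon_split (m := m) (t := false) (by rw [h]; rfl)
  exact ⟨k, by rw [mon_v (h'.trans (by rw [h, ← e_ab k, add_sub_cancel_left]))]⟩

lemma mon_neg (m : V →₀ ℕ) (t : Bool) : 0 ≤ weight e m (.inr t) := by rw [w_r]; positivity

variable {K : Type} [Field K] (p : K)

/-- The tower. -/
@[reducible] def tw : Tower K where
  ι := B
  Y := V
  ht := Sum.elim (fun _ => 0) fun _ => 1
  blk := blk
  n := nn
  R := R p
  A := img (mk p) (gr K)
  y := y p
  mem v := mem_img (X_mem_pol v)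

/-- The charts. -/
def mkc (s : Fin 4 → Bool) (i j : Fin 4) : (tw p).Chart :=
  ⟨Sum.elim (fun k => .inl (k, s k)) fun t => .inr (t, cond t j i), by rintro (k | t) <;> rfl⟩

lemma mkc_surj (d : (tw p).Chart) : ∃ s i j, d = mkc p s i j := by
  have h1 : ∀ (v : V) k, blk v = .inl k → ∃ s, v = .inl (k, s) := by decide
  have h2 : ∀ (v : V) t, blk v = .inr t → ∃ i, v = .inr (t, i) := by decide
  choose s hs using fun k => h1 _ k (d.2 _)
  choose i hi using fun t => h2 _ t (d.2 _)
  refine ⟨s, i false, i true, Subtype.ext (funext ?_)⟩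
  rintro (k | _ | _)
  exacts [hs k, hi _, hi _]

lemma ch_x (s i j) : ((tw p).ch (mkc p s i j)).x =
    (∏ k, y p (.inl (k, s k))) * (y p (a i) * y p (b j)) := by
  simp [Tower.ch, mkc, Fintype.prod_sum_type, mul_comm]

lemma exists_prj : ∃ q, Prj (gr K) q :=
  let ⟨q, h, h'⟩ := PR.exists_pr (span_pol span_A0) (ind_pol (ind_A0 (K := K)) (e := e))
  ⟨q, span_pol span_A0, h, h'⟩

lemma mem_le {g : B → ℤ} (N : Submodule K (R p))
    (h : ∀ m, weight e m = g → mk p (monomial m 1) ∈ N) : ∀ r ∈ (tw p).A g, r ∈ N := by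
  rintro _ ⟨P, hP, rfl⟩
  refine pol_ind hP (N.comap (mk p).toLinearMap) fun m r hr h0 => ?_
  have := N.smul_mem r (h m (sub_eq_zero.1 (by_contra fun e => h0 (hr e))).symm)
  rwa [← map_smul, smul_monomial, smul_eq_mul, mul_one] at this

lemma ok (h0 : p ≠ 0) (h1 : p ≠ 1) : (tw p).OK where
  hn := d4
  dom := inferInstanceAs (IsDomain (R p))
  span := span_img (Ideal.Quotient.mkₐ_surjective K _) (span_pol span_A0)
  ind := let ⟨_, H⟩ := exists_prj (K := K)
    H.ind_img (H.ins' (H.ins' (by simp) r1_mem) (r2_mem p))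
  gen B hB h d g := by
    rintro _ ⟨P, hP, rfl⟩
    refine ⟨0, ?_⟩
    rw [pow_zero, one_mul, zero_nsmul, zero_add]
    refine pol_map (mk p) (fun g r hr => ?_) h hP
    by_cases e : g = 0
    · rw [algHom_C, Algebra.algebraMap_eq_smul_one]; exact e ▸ Submodule.smul_mem _ r hB
    · rw [hr e, map_zero, map_zero]; exact zero_mem _
  nice := by
    refine ⟨{d | ∃ s i j, i ≠ j ∧ d = mkc p s i j}, ?_, fun d => ?_⟩
    · rintro _ ⟨s, i, j, h, rfl⟩
      rw [ch_x]
      exact (plAt h0 h1 h).mul (Finset.prod_ne_zero_iff.2 fun _ _ => y_ne p _)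
    obtain ⟨s, i, j, rfl⟩ := mkc_surj p d
    have hm : ∀ i j, i ≠ j → ((tw p).ch (mkc p s i j)).x ∈ Ideal.span ((fun d => ((tw p).ch d).x) ''
        {d | ∃ s i j, i ≠ j ∧ d = mkc p s i j}) := fun i j h =>
      Ideal.subset_span ⟨_, ⟨s, i, j, h, rfl⟩, rfl⟩
    by_cases h : i = j
    · subst h
      obtain ⟨k, m, h, hk, hm'⟩ : ∃ k m, k ≠ m ∧ k ≠ i ∧ m ≠ i := by revert i; decide
      obtain ⟨c, c', e⟩ := cramer h0 h1 h i
      replace e := e.trans (congrArg₂ (· + ·) (Algebra.smul_def (A := R p) c _)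
        (Algebra.smul_def (A := R p) c' _))
      refine ⟨2, ?_⟩
      convert add_mem
        (Ideal.mul_mem_left _ (algebraMap K (R p) c * ((tw p).ch (mkc p s i k)).x) (hm k i hk))
        (Ideal.mul_mem_left _ (algebraMap K (R p) c' * ((tw p).ch (mkc p s i m)).x) (hm m i hm')) using 1
      simp only [ch_x]
      linear_combination (∏ k, y p (.inl (k, s k))) ^ 2 * (y p (a i) * y p (b i)) * e
    · exact Ideal.le_radical (hm i j h)
  pt := ⟨pt p 1 0, mkc p 0 0 0, by simp [ch_x, pt_x, pt_a, pt_b, FMD.lp]⟩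

variable [CharP K 2]

lemma van_bl (i : B) : Van ((tw p).bl i) {g | -1 ≤ g i} (ring (tw p).A) := by
  obtain ⟨q, H⟩ := exists_prj (K := K)
  let φ : GH (gr K) (img (mk p) (gr K)) := ⟨mk p, mem_img⟩
  have h1 := van_pol (A := A0 K (B → ℤ)) (e := e) (Pi.evalAddMonoidHom _ i)
    (Finset.univ.filter (blk · = i)) (fun g r hr h => by rw [by_contra fun e => h (hr e)]; rfl)
    (fun v hv => (d5 i v).1 (by simpa using hv)) (fun v hv => (d5 i v).2 (by simpa using hv))
    (xs := lst fun v : {v // blk v = i} => ⟨X v, e v, X_mem_pol _⟩) (fun x hx => by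
      obtain ⟨⟨v, hv⟩, rfl⟩ := mem_lst.1 hx
      exact zero_le_one.trans ((d5 i v).1 hv).ge)
    fun v hv => ⟨_, mem_lst.2 ⟨⟨v, by simpa using hv⟩, rfl⟩, rfl, rfl⟩
  have hc := d6 i
  generalize 1 - ((Finset.univ.filter (blk · = i)).card : ℤ) = c at h1 hc
  have h2 := Van.right (stabL_univ _) (mk_qisOn (Ideal.span ∅) fun _ _ r _ h => by simpa using h)
    (Set.subset_univ _) h1
  have h3 := H.van (U' := {g | c ≤ g i ∧ c ≤ g i - dr i}) (by simp) r1_mem rg1 h2
    (fun _ h => h.1) fun _ h => h.2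
  have h4 := H.van (U' := {g | -1 ≤ g i}) (H.ins' (by simp) r1_mem) (r2_mem p) (rg2 p) h3
    (fun g (h : -1 ≤ g i) => by
      have := hc 0
      have := hc 1
      constructor <;> simp at * <;> omega) fun g (h : -1 ≤ g i) => by
      have := hc 1
      have := hc 2
      constructor <;> simp at * <;> omega
  have h5 := (van_res φ).1 (Van.right (stabL_univ _) (cyc_res_qis φ (fun _ _ h => h)
    fun _ => Ideal.Quotient.eq_zero_iff_mem.symm) (Set.subset_univ _) h4)
  rwa [lst, List.map_map] at h5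

lemma van : Van (tw p).xs {g | ∀ i, -1 ≤ g i} (ring (tw p).A) :=
  (tw p).van_blocks bs d7.1 d7.2.1 (fun i => {g | -1 ≤ g i}) (d7.2.2.imp fun h v hv g hg => by
    change -1 ≤ e v _ + g _
    rw [h v hv, zero_add]; exact hg) (van_bl p)

/-- The matrix of an element. -/
def thL : CB (FMD.lp p) →ₗ[K] Matrix (COb (Fin 4)) (COb (Fin 4)) (R p) where
  toFun c := Matrix.of fun o' o => match o', o with
    | .z, .z => c.z • 1
    | .x i, .x j => if i = j then c.x i • 1 else 0
    | .w, .w => c.w • 1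
    | .x i, .z => c.E i • y p (a i)
    | .w, .x i => c.F i • y p (b i)
    | .w, .z => c.T 0 • (y p (a 0) * y p (b 0)) + c.T 1 • (y p (a 1) * y p (b 1))
    | _, _ => 0
  map_add' c c' := by
    ext (_ | i | _) (_ | j | _) <;> simp [add_smul, ite_add_ite]
    abel
  map_smul' c c' := by ext (_ | i | _) (_ | j | _) <;> simp [mul_smul]

/-- The matrix model. -/
def th : CB (FMD.lp p) →ₐ[K] Matrix (COb (Fin 4)) (COb (Fin 4)) (R p) :=
  AlgHom.ofLinearMap (thL p) (by
    ext (_ | i | _) (_ | j | _) <;> simp [thL, Matrix.one_apply]) fun c c' => by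
    ext (_ | i | _) (_ | j | _) <;> rw [Matrix.mul_apply, COb.sum_eq] <;> simp [thL]
    · module
    · module
    · split_ifs with h
      · subst h; module
      · rfl
    · have : ∀ x, c.F x • y p (b x) * c'.E x • y p (a x) =
          (c.F x * c'.E x * FMD.lp p x 0) • (y p (a 0) * y p (b 0)) +
          (c.F x * c'.E x * FMD.lp p x 1) • (y p (a 1) * y p (b 1)) := fun x => by
        rw [smul_mul_smul_comm, mul_comm (y p _), rel p x]; module
      simp only [this, Finset.sum_add_distrib, ← Finset.sum_smul]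
      module
    · module
    · module

lemma y_mem (v : V) : y p v ∈ (tw p).A (e v) := mem_img (X_mem_pol v)

lemma th_e : ∀ o, th p ((Cp p).e o) = Matrix.single o o 1 := by
  rintro (_ | k | _) <;> ext (_ | i | _) (_ | j | _) <;>
    simp [th, thL, CB.ez, CB.ex, CB.ew, Matrix.single_apply, Pi.single_apply]
  aesop

lemma theta : Theta (Cp p) (tw p).A ad (th p) where
  e := th_e p
  mem c := by
    have one : ∀ (o) (r : K), r • (1 : R p) ∈ (tw p).A (ad o - ad o) := fun o r =>
      (sub_self (ad o)).symm ▸ Submodule.smul_mem _ r (SetLike.one_mem_graded _)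
    have hu : ∀ i, y p (a i) * y p (b i) ∈ (tw p).A (dr - 0) := fun i => by
      rw [sub_zero, ← e_ab i]; exact SetLike.mul_mem_graded (y_mem p _) (y_mem p _)
    rintro (_ | i | _) (_ | j | _)
    · exact one _ _
    · exact zero_mem _
    · exact zero_mem _
    · exact Submodule.smul_mem _ _ ((sub_zero (e (a i))).symm ▸ y_mem p _)
    · change (if i = j then _ else _) ∈ _
      split_ifs with h
      · subst h; exact one _ _
      · exact zero_mem _
    · exact zero_mem _
    · exact add_mem (Submodule.smul_mem _ _ (hu 0)) (Submodule.smul_mem _ _ (hu 1))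
    · exact Submodule.smul_mem _ _ ((eq_sub_of_add_eq' (e_ab j)) ▸ y_mem p _)
    · exact one _ _
  inj := (injective_iff_map_eq_zero _).2 fun c hc => by
    have h : ∀ t₀ t₁ o' o, pt p t₀ t₁ (thL p c o' o) = 0 := fun _ _ o' o =>
      (congrArg _ (congrFun₂ hc o' o)).trans (map_zero _)
    ext i
    · simpa [thL] using h 0 0 .z .z
    · simpa [thL] using h 0 0 (.x i) (.x i)
    · simpa [thL] using h 0 0 .w .w
    · simpa [thL, pt_a] using h 0 0 (.x i) .z
    · exact (smul_eq_zero.1 (congrFun₂ hc .w (.x i))).resolve_right (y_ne p _)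
    have h' : ∀ t₀ t₁, pt p t₀ t₁ (c.T 0 • (y p (a 0) * y p (b 0)) +
      c.T 1 • (y p (a 1) * y p (b 1))) = 0 := fun _ _ => h _ _ .w .z
    fin_cases i
    · simpa [pt_a, pt_b, FMD.lp] using h' 1 0
    · simpa [pt_a, pt_b, FMD.lp] using h' 0 1
  surj M hM := theta_surj (C := Cp p) (th_e p) M fun o' o => by
    refine mem_le p (LinearMap.range ((Matrix.entryLinearMap K _ o' o).comp (thL p))) ?_ _ (hM o' o)
    have one : ∀ o m, weight e m = ad o - ad o → thL p 1 o o = mk p (monomial m 1) := fun o m h => by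
      rw [mon_zero (h.trans (sub_self _))]
      exact (congrFun₂ (map_one (th p)) o o).trans (Matrix.one_apply_eq o)
    have neg : ∀ {m t g} {P : Prop}, weight e m = g → g (.inr t) = -1 → P := fun h h' =>
      absurd (mon_neg _ _) (by rw [h, h']; simp)
    clear hM
    revert o' o
    rintro (_ | i | _) (_ | j | _) m h
    · exact ⟨1, one _ _ h⟩
    · exact neg (t := false) h rfl
    · exact neg (t := false) h rfl
    · rw [mon_v (h.trans (sub_zero _))]
      exact ⟨CB.aE _ i, by simp [thL, CB.aE, y, X]⟩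
    · have := mon_l (m := m) fun s => by rw [h]; exact d2 _ _ _ _
      rw [h] at this
      obtain rfl := d3 _ _ _ this
      exact ⟨1, one _ _ h⟩
    · exact neg (t := true) h rfl
    · obtain ⟨k, rfl⟩ := mon_dr (h.trans (sub_zero _))
      refine ⟨CB.aT _ (FMD.lp p k), (rel p k).symm.trans ?_⟩
      rw [y, y, ← map_mul, X, X, monomial_mul, mul_one]
    · rw [mon_v (h.trans (eq_sub_of_add_eq' (e_ab j)).symm)]
      exact ⟨CB.aF _ j, by simp [thL, CB.aF, y, X]⟩
    · exact ⟨1, one _ _ h⟩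

end RP

theorem real_cp (K : Type) [Field K] [CharP K 2] (p : K) (h0 : p ≠ 0) (h1 : p ≠ 1) :
    Nonempty (Real K (Cp p)) :=
  ⟨⟨RP.tw p, RP.ok p h0 h1, RP.ad, RP.th p, RP.theta p, fun o' o => (RP.van p).mono (by
      rintro _ rfl; exact RP.d8 o' o),
    fun r hr => by
      obtain ⟨c, hc⟩ := Submodule.mem_span_singleton.1 (RP.mem_le p (K ∙ (1 : RP.R p))
        (fun m h => by rw [RP.mon_zero h]; exact Submodule.mem_span_singleton_self _) r hr)
      exact ⟨c, (Algebra.algebraMap_eq_smul_one c).trans hc⟩⟩⟩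

end FMX
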