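import Pool.Agent.MP_0e6a9f_ag.H32.Grd
import Pool.Agent.MP_0e6a9f_ag.H70.ProdA

/-! Kernels of substitutions, homogeneous ideals, vanishing for ordered blocks. -/

set_option linter.unusedSectionVars false

open FMD FMD.DG MvPolynomial

noncomputable section
namespace FMX

section ker
variable {K V F : Type} [Field K] [DecidableEq V] [Field F] [Algebra K F]

/-- `z` is regular modulo the span of `s`. -/
def Rg {S : Type} [CommRing S] (s : Set S) (z : S) : Prop :=
  ∀ u, z * u ∈ Ideal.span s → u ∈ Ideal.span s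

lemma Rg.swap {S : Type} [CommRing S] {s : Set S} {a r : S} (h : Rg s a)
    (h' : Rg (insert a s) r) : Rg (insert r s) a := fun u hu => by
  obtain ⟨q, i, hi, e⟩ := Ideal.mem_span_insert.1 hu
  obtain ⟨q', i', hi', rfl⟩ := Ideal.mem_span_insert.1 (h' q (Ideal.mem_span_insert.2
    ⟨u, -i, neg_mem hi, by linear_combination -e⟩))
  exact Ideal.mem_span_insert.2 ⟨q', u - q' * r, h _ (by
    convert add_mem hi (Ideal.mul_mem_right r _ hi') using 1; linear_combination e), by ring⟩

/-- The kernel of `j` is spanned by `s`. -/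
def Kr (j : MvPolynomial V K →ₐ[K] F) (s : Set (MvPolynomial V K)) : Prop :=
  ∀ u, j u = 0 ↔ u ∈ Ideal.span s

lemma Kr.rg {j : MvPolynomial V K →ₐ[K] F} {s : Set (MvPolynomial V K)} (h : Kr j s) {z}
    (hz : j z ≠ 0) : Rg s z := fun u hu =>
  (h u).1 ((mul_eq_zero.1 ((map_mul j z u).symm.trans ((h _).2 hu))).resolve_left hz)

/-- Change the value at one variable. -/
def upd (j : MvPolynomial V K →ₐ[K] F) (v : V) (z : F) : MvPolynomial V K →ₐ[K] F :=
  aeval (Function.update (fun w => j (X w)) v z)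

lemma upd_X (j : MvPolynomial V K →ₐ[K] F) (v : V) (z : F) : upd j v z (X v) = z := by
  simp [upd]

lemma upd_X' (j : MvPolynomial V K →ₐ[K] F) {v w : V} (z : F) (h : w ≠ v) :
    upd j v z (X w) = j (X w) := by simp [upd, h]

/-- `u` does not involve `v`. -/
def NI (F : Type) [Field F] [Algebra K F] (v : V) (u : MvPolynomial V K) : Prop :=
  ∀ (j : MvPolynomial V K →ₐ[K] F) z, upd j v z u = j u

lemma Kr.step {j : MvPolynomial V K →ₐ[K] F} {s : Set (MvPolynomial V K)} (h : Kr j s) {v : V}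
    {z : F} {w q : MvPolynomial V K} (hs : ∀ u ∈ s, NI F v u) (hw : NI F v w) (hq : NI F v q)
    (e : j w * z = j q) (hr : Rg (insert (w * X v - q) s) w) :
    Kr (upd j v z) (insert (w * X v - q) s) := by
  intro u
  have key : ∀ u, ∃ (n : ℕ) (t : MvPolynomial V K), upd j v z t = j t ∧
      w ^ n * u - t ∈ Ideal.span (insert (w * X v - q) s) := by
    intro u
    induction u using MvPolynomial.induction_on with
    | C c => exact ⟨0, C c, by simp [algHom_C], by simp⟩
    | add a b ha hb =>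
      obtain ⟨n, t, h1, h2⟩ := ha
      obtain ⟨m, t', h1', h2'⟩ := hb
      refine ⟨n + m, w ^ m * t + w ^ n * t', by simp [hw j z, h1, h1'], ?_⟩
      convert add_mem (Ideal.mul_mem_left _ (w ^ m) h2) (Ideal.mul_mem_left _ (w ^ n) h2') using 1
      ring
    | mul_X a v' ha =>
      obtain ⟨n, t, h1, h2⟩ := ha
      by_cases hv : v' = v
      · subst hv
        refine ⟨n + 1, t * q, by simp [hq j z, h1], ?_⟩
        convert add_mem (Ideal.mul_mem_right (w * X v') _ h2) (Ideal.mul_mem_left _ t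
          (Ideal.subset_span (Set.mem_insert _ s))) using 1
        ring
      · refine ⟨n, t * X v', by simp [upd_X' j z hv, h1], ?_⟩
        convert Ideal.mul_mem_right (X v') _ h2 using 1
        ring
  refine ⟨fun hu => ?_, fun hu => ?_⟩
  swap
  · refine (Ideal.span_le (I := RingHom.ker (upd j v z))).2 ?_ hu
    rintro _ (rfl | hu)
    · simp [RingHom.mem_ker, hw j z, hq j z, upd_X, e]
    · exact (hs _ hu j z).trans ((h _).2 (Ideal.subset_span hu))
  obtain ⟨n, t, h1, h2⟩ := key u
  have h3 : upd j v z (w ^ n * u - t) = 0 := by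
    refine (Ideal.span_le (I := RingHom.ker (upd j v z))).2 ?_ h2
    rintro _ (rfl | hu)
    · simp [RingHom.mem_ker, hw j z, hq j z, upd_X, e]
    · exact (hs _ hu j z).trans ((h _).2 (Ideal.subset_span hu))
  rw [map_sub, map_mul, hu, mul_zero, zero_sub, neg_eq_zero, h1] at h3
  have h4 : w ^ n * u ∈ Ideal.span (insert (w * X v - q) s) := by
    simpa using add_mem h2 (Ideal.span_mono (Set.subset_insert _ s) ((h t).1 h3))
  clear h2
  induction n with
  | zero => simpa using h4
  | succ n ih => exact ih (hr _ (by rwa [pow_succ', mul_assoc] at h4))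

lemma Kr.solve {j : MvPolynomial V K →ₐ[K] F} {s : Set (MvPolynomial V K)} (h : Kr j s) {a b : V}
    {c : MvPolynomial V K} (hab : a ≠ b) (hs : ∀ u ∈ s, NI F a u ∧ NI F b u) (ha : NI F a c)
    (hb : NI F b c) (h0 : j (X a) ≠ 0) (h1 : j c ≠ 0) :
    Kr (upd j b (j c / j (X a))) (insert (X a * X b - c) s) := by
  have k := h.step (v := a) (z := 0) (w := 1) (q := 0) (fun u hu => (hs u hu).1)
    (fun _ _ => by simp) (fun _ _ => by simp) (by simp) fun u hu => by simpa using hu
  rw [one_mul, sub_zero] at k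
  exact h.step (fun u hu => (hs u hu).2) (fun j z => upd_X' j z hab) hb (mul_div_cancel₀ _ h0)
    ((h.rg h0).swap (k.rg (by simpa [upd_X, ha j 0] using h1)))

end ker

variable {K G R : Type} [Field K] [AddCommGroup G] [CommRing R] [Algebra K R]

/-- The trivial grading. -/
def A0 (K G : Type) [Field K] [Zero G] (g : G) : Submodule K K where
  carrier := {r | g ≠ 0 → r = 0}
  add_mem' h h' e := by rw [h e, h' e, add_zero]
  zero_mem' _ := rfl
  smul_mem' c _ h e := by rw [h e, smul_zero]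

instance : SetLike.GradedMonoid (A0 K G) where
  one_mem h := absurd rfl h
  mul_mem g g' a b ha hb e := by
    by_cases h : g = 0
    · rw [hb (by rintro rfl; simp [h] at e), mul_zero]
    · rw [ha h, zero_mul]

lemma span_A0 : SpanA (A0 K G) := fun _ => Submodule.mem_iSup_of_mem 0 fun h => absurd rfl h

lemma ind_A0 : IndA (A0 K G) := fun s v hv h0 i hi => by
  by_contra h
  have e : i = 0 := by_contra fun e => h (hv i hi e)
  subst e
  exact h ((Finset.sum_eq_single_of_mem 0 hi fun j hj e => hv j hj e).symm.trans h0)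

variable {A : G → Submodule K R} [SetLike.GradedMonoid A]

/-- The projections to the graded pieces. -/
structure Prj (A : G → Submodule K R) (p : G → R →ₗ[K] R) : Prop where
  span : SpanA A
  same : ∀ g, ∀ r ∈ A g, p g r = r
  ne : ∀ g h, h ≠ g → ∀ r ∈ A h, p g r = 0

section
variable {p : G → R →ₗ[K] R} (H : Prj A p)
include H

lemma Prj.mem (g : G) (r : R) : p g r ∈ A g :=
  H.span.ind (P := fun r => p g r ∈ A g) r (fun h r hr => by
    by_cases e : h = g
    · subst e; rwa [H.same _ _ hr]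
    · rw [H.ne _ _ e _ hr]; exact zero_mem _) fun a b ha hb => map_add (p g) a b ▸ add_mem ha hb

lemma Prj.mul {d : G} {z : R} (hz : z ∈ A d) (g : G) (r : R) : p g (z * r) = z * p (g - d) r :=
  H.span.ind (P := fun r => p g (z * r) = z * p (g - d) r) r (fun h r hr => by
    have := SetLike.mul_mem_graded hz hr
    by_cases e : h = g - d
    · subst e; rw [H.same _ _ hr, H.same _ _ (by simpa using this)]
    · rw [H.ne _ _ e _ hr, H.ne _ _ (fun e' => e (by rw [← e']; abel)) _ this, mul_zero])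
    fun a b ha hb => by rw [mul_add, map_add, map_add, ha, hb, mul_add]

lemma Prj.ins {s : Set R} (hs : ∀ g, ∀ u ∈ Ideal.span s, p g u ∈ Ideal.span s) {d : G} {z : R}
    (hz : z ∈ A d) (g : G) {u : R} (hu : u ∈ Ideal.span (insert z s)) :
    ∃ t ∈ A (g - d), p g u - z * t ∈ Ideal.span s := by
  obtain ⟨q, i, hi, rfl⟩ := Ideal.mem_span_insert.1 hu
  exact ⟨_, H.mem _ q, by rw [map_add, mul_comm q, H.mul hz]; simpa using hs g i hi⟩

lemma Prj.ins' {s : Set R} (hs : ∀ g, ∀ u ∈ Ideal.span s, p g u ∈ Ideal.span s) {d : G} {z : R}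
    (hz : z ∈ A d) : ∀ g, ∀ u ∈ Ideal.span (insert z s), p g u ∈ Ideal.span (insert z s) :=
  fun g u hu => let ⟨t, _, h⟩ := H.ins hs hz g hu
    Ideal.mem_span_insert.2 ⟨t, _, h, by ring⟩

lemma Prj.ind_img {I : Ideal R} (hI : ∀ g, ∀ u ∈ I, p g u ∈ I) :
    IndA (img (Ideal.Quotient.mkₐ K I) A) := fun s v hv h0 i hi => by
  have : ∀ g, ∃ r, g ∈ s → r ∈ A g ∧ Ideal.Quotient.mk I r = v g := fun g => by
    by_cases hg : g ∈ s
    · obtain ⟨r, h1, h2⟩ := hv g hg
      exact ⟨r, fun _ => ⟨h1, h2⟩⟩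
    · exact ⟨0, fun h => absurd h hg⟩
  choose r hr using this
  have := hI i (∑ g ∈ s, r g) (Ideal.Quotient.eq_zero_iff_mem.1 (by
    rw [map_sum, ← h0]; exact Finset.sum_congr rfl fun g hg => (hr g hg).2))
  rw [map_sum, Finset.sum_eq_single_of_mem i hi fun g hg e => H.ne _ _ e _ (hr g hg).1,
    H.same _ _ (hr i hi).1] at this
  exact (hr i hi).2.symm.trans (Ideal.Quotient.eq_zero_iff_mem.2 this)

variable [CharP K 2]

lemma Prj.van {s : Set R} (hs : ∀ g, ∀ u ∈ Ideal.span s, p g u ∈ Ideal.span s) {d : G} {z : R}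
    (hz : z ∈ A d) (hr : Rg s z) {xs : List (HE A)} {U U' : Set G}
    (h : Van xs U (cyc A (Ideal.span s))) (h1 : U' ⊆ U) (h2 : ∀ g ∈ U', g + -d ∈ U) :
    Van xs U' (cyc A (Ideal.span (insert z s))) :=
  (((good_gam (stabL_univ xs)).ses (cyc_ses ⟨z, d, hz⟩ (Ideal.span_mono (Set.subset_insert _ _))
    (Ideal.subset_span (Set.mem_insert _ _)) hr fun g r hr hJ => by
      have := H.ins hs hz g hJ
      rwa [H.same _ _ hr] at this)).mono (Set.subset_univ U')).acyc₃
    (fun g hg => ((gamF xs).acyc_tg _ _).2 (h _ (h2 g hg))) (h.mono h1)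

end

variable [CharP K 2]

/-- The elements of one block. -/
def Tower.bl (T : Tower K) (i : T.ι) : List (HE T.A) := lst fun v : {v // T.blk v = i} => T.he v

theorem Tower.van_blocks (T : Tower K) {M : DG T.A} (l : List T.ι) (hn : l.Nodup)
    (hl : ∀ i, i ∈ l) (W : T.ι → Set T.G)
    (hs : l.Pairwise fun i j => ∀ v, T.blk v = i → Stab (W j) (T.deg v))
    (hV : ∀ i, Van (T.bl i) (W i) M) : Van T.xs {g | ∀ i, g ∈ W i} M := by
  classical
  have key : ∀ (l : List T.ι) (ws : List (HE T.A)), l.Nodup →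
      List.Forall₂ (· ∈ ·) ws (l.map T.bl) → (∃ d : T.ι → T.Y, True) → ∃ d : T.ι → T.Y,
      (∀ i ∈ l, T.blk (d i) = i) ∧
        (ws.foldr HE.mul (HE.one T.A)).x = (l.map fun i => T.y (d i)).prod ∧
        (ws.foldr HE.mul (HE.one T.A)).deg = (l.map fun i => T.deg (d i)).sum := by
    intro l
    induction l with
    | nil => rintro _ _ ⟨⟩ ⟨d, -⟩; exact ⟨d, by simp, rfl, rfl⟩
    | cons i l ih =>
      rintro _ hn (_ | @⟨w, _, ws, _, hw, hws⟩) h0
      obtain ⟨hi, hn⟩ := List.nodup_cons.1 hn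
      obtain ⟨d, a1, a2, a3⟩ := ih ws hn hws h0
      obtain ⟨⟨v, hv⟩, rfl⟩ := mem_lst.1 hw
      have e : ∀ j ∈ l, Function.update d i v j = d j := fun j hj =>
        Function.update_of_ne (by rintro rfl; exact hi hj) _ _
      refine ⟨Function.update d i v, fun j hj => ?_, ?_, ?_⟩
      · rcases List.mem_cons.1 hj with rfl | hj
        · simpa using hv
        · rw [e j hj]; exact a1 j hj
      · rw [List.map_cons, List.prod_cons, Function.update_self,
          List.map_congr_left fun j hj => congrArg T.y (e j hj), ← a2]; rfl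
      · rw [List.map_cons, List.sum_cons, Function.update_self,
          List.map_congr_left fun j hj => congrArg T.deg (e j hj), ← a3]; rfl
  have hu : l.toFinset = Finset.univ := Finset.eq_univ_of_forall fun i => by simp [hl i]
  refine (van_list (l.map fun i => (T.bl i, W i)) ?_ ?_ ?_ fun ws hws N hN => ?_).mono ?_
  · refine List.pairwise_map.2 (hs.imp fun h x hx => ?_)
    obtain ⟨v, rfl⟩ := mem_lst.1 hx
    exact h _ v.2
  · intro p hp; obtain ⟨i, -, rfl⟩ := List.mem_map.1 hp; exact hV i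
  · intro p hp N hN z hz
    obtain ⟨i, -, rfl⟩ := List.mem_map.1 hp
    obtain ⟨d, rfl⟩ := mem_lst.1 hz
    refine torsOn_of_pow 1 (x := T.he (d.1 i)) (m := ∏ j ∈ Finset.univ.erase i, T.y (d.1 j)) ?_
      ((pow_one _).trans
        (Finset.mul_prod_erase _ (fun j => T.y (d.1 j)) (Finset.mem_univ i)).symm)
      (hN _ (mem_lst.2 ⟨⟨d.1 i, d.2 i⟩, rfl⟩))
    convert SetLike.prod_mem_graded T.A (fun j => T.deg (d.1 j)) _ fun _ _ => T.mem _ using 2
    rw [one_nsmul, sub_eq_iff_eq_add']
    exact (Finset.add_sum_erase _ _ (Finset.mem_univ i)).symm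
  · rw [List.map_map] at hws
    obtain ⟨d, a1, a2, a3⟩ := key l ws hn hws (by
      have : ∀ i, ∃ w, w ∈ T.bl i := fun i => by
        obtain ⟨n, hn, rfl⟩ := List.getElem_of_mem (hl i)
        have := hws.get (i := n) (by rw [hws.length_eq]; simpa) (by simpa)
        exact ⟨_, by simpa using this⟩
      choose w hw using this
      choose v _ using fun i => mem_lst.1 (hw i)
      exact ⟨fun i => v i, trivial⟩)
    refine torsOn_of_pow 1 (m := 1) ?_ ?_ (hN _ (mem_lst.2 ⟨⟨d, fun i => a1 i (hl i)⟩, rfl⟩))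
    · rw [one_nsmul, a3, ← List.sum_toFinset _ hn, hu]
      exact (sub_self (∑ i, T.deg (d i))).symm ▸ SetLike.one_mem_graded _
    · rw [pow_one, a2, ← List.prod_toFinset _ hn, hu, mul_one]; rfl
  · intro g hg p hp; obtain ⟨i, -, rfl⟩ := List.mem_map.1 hp; exact hg i

omit [CharP K 2] in
lemma theta_surj {C : DGR} [Algebra K C.B] {θ : C.B →ₐ[K] Matrix C.O C.O R}
    (e : ∀ o, θ (C.e o) = Matrix.single o o 1) (M : Matrix C.O C.O R)
    (h : ∀ o' o, ∃ b, θ b o' o = M o' o) : ∃ b, θ b = M := by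
  choose b hb using h
  refine ⟨∑ o', ∑ o, C.e o' * b o' o * C.e o, ?_⟩
  simp only [map_sum, map_mul, e, Matrix.single_mul_mul_single, hb, one_mul, mul_one]
  exact M.matrix_eq_sum_single.symm

end FMX
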