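import Pool.Agent.MP_0e6a9f_ag.H19.RealA
import Pool.Agent.MP_0e6a9f_ag.H19.Can

/-! The ring of the base variety. -/

set_option linter.unusedSectionVars false

open FMD FMD.DG MvPolynomial

noncomputable section
namespace FMX
namespace RP

/-- The variables `x i`, `y i`, `a i`, `b i`. -/
abbrev V := (Fin 4 × Bool) ⊕ (Bool × Fin 4)
/-- The blocks. -/
abbrev B := Fin 4 ⊕ Bool
/-- The block of a variable. -/
def blk : V → B := Sum.map Prod.fst Prod.fst
/-- The lower part of the degree. -/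
def nn : V → B → ℕ
  | .inr (s, i), .inl k => if (k = i ↔ s = false) then 1 else 0
  | _, _ => 0
/-- The degree of a variable. -/
def e (v : V) : B → ℤ := Pi.single (blk v) 1 - fun j => (nn v j : ℤ)
/-- The variable `a i`. -/
abbrev a (i : Fin 4) : V := .inr (false, i)
/-- The variable `b i`. -/
abbrev b (i : Fin 4) : V := .inr (true, i)
/-- The degree of the relations. -/
def dr : B → ℤ := Sum.elim (fun _ => -1) fun _ => 1

lemma e_ab (i : Fin 4) : e (a i) + e (b i) = dr := by revert i; decide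

lemma quad : ∀ i j : Fin 4, i ≠ j → ∃ k m, k ≠ m ∧ k ≠ i ∧ k ≠ j ∧ m ≠ i ∧ m ≠ j ∧
    ∀ n, n = i ∨ n = j ∨ n = k ∨ n = m := by decide

variable {K : Type} [Field K] (p : K)

/-- The polynomial ring. -/
abbrev S (K : Type) [Field K] := MvPolynomial V K
/-- Its grading. -/
abbrev gr (K : Type) [Field K] := pol (A0 K (B → ℤ)) e
/-- The product `a i * b i`. -/
def u (i : Fin 4) : S K := X (a i) * X (b i)
/-- The first relation. -/
def r1 : S K := X (a 2) * X (b 2) - (u 0 + u 1)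
/-- The second relation. -/
def r2 : S K := X (a 3) * X (b 3) - (u 0 + p • u 1)
/-- The ideal of relations. -/
def I : Ideal (S K) := Ideal.span (insert (r2 p) (insert r1 ∅))
/-- The ring. -/
abbrev R := S K ⧸ I p
/-- The quotient map. -/
abbrev mk : S K →ₐ[K] R p := Ideal.Quotient.mkₐ K (I p)
/-- The variables in the ring. -/
def y (v : V) : R p := mk p (X v)

lemma u_mem (i : Fin 4) : u i ∈ gr K dr :=
  e_ab i ▸ SetLike.mul_mem_graded (X_mem_pol _) (X_mem_pol _)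

lemma r1_mem : r1 ∈ gr K dr := sub_mem (u_mem 2) (add_mem (u_mem 0) (u_mem 1))

lemma r2_mem : r2 p ∈ gr K dr :=
  sub_mem (u_mem 3) (add_mem (u_mem 0) (Submodule.smul_mem _ _ (u_mem 1)))

lemma kill {T : Type} [CommRing T] [Algebra K T] (ρ : S K →ₐ[K] T) (t₀ t₁ : T)
    (h : ∀ n, ρ (X (a n)) * ρ (X (b n)) = FMD.lp p n 0 • t₀ + FMD.lp p n 1 • t₁) :
    ∀ z ∈ I p, ρ z = 0 := fun z hz => by
  refine (Ideal.span_le (I := RingHom.ker ρ)).2 ?_ hz
  rintro _ (rfl | rfl | ⟨⟨⟩⟩) <;> simp [RingHom.mem_ker, r1, r2, u, h, FMD.lp]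

lemma rel (n : Fin 4) : y p (a n) * y p (b n) =
    FMD.lp p n 0 • (y p (a 0) * y p (b 0)) + FMD.lp p n 1 • (y p (a 1) * y p (b 1)) := by
  have h1 : mk p r1 = 0 := Ideal.Quotient.eq_zero_iff_mem.2 (Ideal.subset_span (by simp))
  have h2 : mk p (r2 p) = 0 := Ideal.Quotient.eq_zero_iff_mem.2 (Ideal.subset_span (by simp))
  simp only [r1, r2, u, map_sub, map_add, map_mul, map_smul, sub_eq_zero] at h1 h2
  fin_cases n
  · simp [FMD.lp]
  · simp [FMD.lp]
  · simpa [FMD.lp, y] using h1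
  · simpa [FMD.lp, y] using h2

/-- A rational point. -/
def pt (t₀ t₁ : K) : R p →ₐ[K] K :=
  Ideal.Quotient.liftₐ _ (aeval (Sum.elim (fun _ => 1) fun v =>
    cond v.1 (FMD.lp p v.2 0 * t₀ + FMD.lp p v.2 1 * t₁) 1)) (kill p _ t₀ t₁ (by simp))

lemma pt_x (t₀ t₁ : K) (v) : pt p t₀ t₁ (y p (.inl v)) = 1 := by simp [pt, y]
lemma pt_a (t₀ t₁ : K) (i) : pt p t₀ t₁ (y p (a i)) = 1 := by simp [pt, y]
lemma pt_b (t₀ t₁ : K) (i) : pt p t₀ t₁ (y p (b i)) = FMD.lp p i 0 * t₀ + FMD.lp p i 1 * t₁ := by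
  simp [pt, y]

lemma y_ne : ∀ v, y p v ≠ 0
  | .inl v => fun h => by simpa [h] using pt_x p 0 0 v
  | .inr (false, i) => fun h => by simpa [h] using pt_a p 0 0 i
  | .inr (true, i) => fun h => by
    have h1 := pt_b p 1 0 i
    have h2 := pt_b p 0 1 i
    rw [h, map_zero] at h1 h2
    fin_cases i <;> simp [FMD.lp] at h1 h2

/-- The fraction field. -/
abbrev F (K : Type) [Field K] := FractionRing (S K)
/-- The inclusion. -/
abbrev j0 : S K →ₐ[K] F K := IsScalarTower.toAlgHom K (S K) (F K)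

lemma j0_inj : Function.Injective (j0 (K := K)) := IsFractionRing.injective _ _

lemma j0_ne {z : S K} (h : eval (fun v => if v = a 0 ∨ v = b 0 then 1 else 0) z ≠ 0) :
    j0 z ≠ 0 := fun h' => h (by rw [j0_inj (h'.trans (map_zero _).symm), map_zero])

lemma j0_X (v : V) : j0 (X v : S K) ≠ 0 := fun h => X_ne_zero v (j0_inj (h.trans (map_zero _).symm))

lemma kr1 : ∃ j : S K →ₐ[K] F K, Kr j (insert r1 ∅) ∧ ∀ v, v ≠ b 2 → j (X v) = j0 (X v) :=
  ⟨_, Kr.solve (j := j0) (fun z => by simp) (by simp) (by simp)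
    (fun _ _ => by simp [upd, u]) (fun _ _ => by simp [upd, u]) (j0_X _) (j0_ne (by simp [u])),
    fun v hv => upd_X' _ _ hv⟩

lemma rg1 : Rg (∅ : Set (S K)) r1 := fun z hz => by
  have : j0 (r1 : S K) ≠ 0 := j0_ne (by simp [r1, u])
  simpa [show (r1 : S K) ≠ 0 from fun h => this (h ▸ map_zero _)] using hz

lemma rg2 : Rg (insert r1 ∅) (r2 p) := by
  obtain ⟨j, h, h'⟩ := kr1 (K := K)
  refine h.rg (ne_of_eq_of_ne ?_ (j0_ne (z := r2 p) (by simp [r2, u])))
  simp [r2, u, h', -IsScalarTower.coe_toAlgHom']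

instance : IsDomain (R p) := by
  obtain ⟨j, h, h'⟩ := kr1 (K := K)
  have := h.solve (a := a 3) (b := b 3) (c := u 0 + p • u 1) (by simp)
    (by rintro _ (rfl | ⟨⟨⟩⟩); exact ⟨fun _ _ => by simp [upd, u, r1], fun _ _ => by simp [upd, u, r1]⟩)
    (fun _ _ => by simp [upd, u]) (fun _ _ => by simp [upd, u])
    (by rw [h' _ (by simp)]; exact j0_X _) (ne_of_eq_of_ne
      (by simp [u, h', -IsScalarTower.coe_toAlgHom']) (j0_ne (z := u 0 + p • u 1) (by simp [u])))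
  have : (I p).IsPrime := by
    convert RingHom.ker_isPrime (upd j (b 3) (j (u 0 + p • u 1) / j (X (a 3))))
    exact Ideal.ext fun z => (this z).symm
  infer_instance

variable {p} (h0 : p ≠ 0) (h1 : p ≠ 1)
include h0 h1

lemma det_ne {k m : Fin 4} (h : k ≠ m) :
    ∃ d, d * (FMD.lp p k 0 * FMD.lp p m 1 - FMD.lp p k 1 * FMD.lp p m 0) = 1 := by
  refine ⟨_, inv_mul_cancel₀ ?_⟩
  fin_cases k <;> fin_cases m <;> simp [FMD.lp, sub_eq_zero, h0, h1, h1.symm] at h ⊢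

lemma cramer {k m : Fin 4} (h : k ≠ m) (n : Fin 4) : ∃ c c' : K,
    y p (a n) * y p (b n) = c • (y p (a k) * y p (b k)) + c' • (y p (a m) * y p (b m)) := by
  obtain ⟨d, hd⟩ := det_ne h0 h1 h
  refine ⟨d * (FMD.lp p n 0 * FMD.lp p m 1 - FMD.lp p n 1 * FMD.lp p m 0),
    d * (FMD.lp p k 0 * FMD.lp p n 1 - FMD.lp p k 1 * FMD.lp p n 0), ?_⟩
  rw [rel p n, rel p k, rel p m]
  match_scalars
  · linear_combination -FMD.lp p n 0 * hd
  · linear_combination -FMD.lp p n 1 * hd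

lemma solve {k m : Fin 4} (h : k ≠ m) (z z' : F K) : ∃ t₀ t₁,
    FMD.lp p k 0 • t₀ + FMD.lp p k 1 • t₁ = z ∧ FMD.lp p m 0 • t₀ + FMD.lp p m 1 • t₁ = z' := by
  obtain ⟨d, hd⟩ := det_ne h0 h1 h
  refine ⟨d • (FMD.lp p m 1 • z - FMD.lp p k 1 • z'), d • (FMD.lp p k 0 • z' - FMD.lp p m 0 • z),
    ?_, ?_⟩ <;> match_scalars
  · linear_combination hd
  · ring
  · ring
  · linear_combination hd

lemma plAt {i j : Fin 4} (h : i ≠ j) : PLAt K (y p (a i) * y p (b j)) := by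
  obtain ⟨k, m, hkm, hki, hkj, hmi, hmj, hall⟩ := quad i j h
  let L := Localization.Away (y p (a i) * y p (b j))
  let ψ : R p →ₐ[K] L := IsScalarTower.toAlgHom K _ L
  have hψ : Function.Injective ψ := IsLocalization.injective (M := .powers (y p (a i) * y p (b j))) L
    (powers_le_nonZeroDivisors_of_noZeroDivisors (mul_ne_zero (y_ne p _) (y_ne p _)))
  have hu : IsUnit (ψ (y p (a i) * y p (b j))) := IsLocalization.Away.algebraMap_isUnit _
  have hs : ∀ t : L, ∃ (n : ℕ) (r : R p), t * ψ (y p (a i) * y p (b j)) ^ n = ψ r :=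
    IsLocalization.Away.surj _
  let τ := {v : V // v ≠ b i ∧ v ≠ a j}
  let f : MvPolynomial τ K →ₐ[K] L := ψ.comp ((mk p).comp (rename Subtype.val))
  have hf : ∀ v h, f (X ⟨v, h⟩) = ψ (y p v) := fun v h => by simp [f, y]
  refine ⟨L, _, _, ψ, τ, inferInstance, f, hψ, hu, hs, ?_, fun t => ?_⟩
  · obtain ⟨t₀, t₁, e1, e2⟩ := solve h0 h1 hkm (j0 (u k)) (j0 (u m))
    let ρ := upd (upd j0 (b i) ((FMD.lp p i 0 • t₀ + FMD.lp p i 1 • t₁) / j0 (X (a i)))) (a j)
      ((FMD.lp p j 0 • t₀ + FMD.lp p j 1 • t₁) / j0 (X (b j)))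
    have hρ : ∀ v, v ≠ b i → v ≠ a j → ρ (X v) = j0 (X v) := fun v h h' =>
      (upd_X' _ _ h').trans (upd_X' _ _ h)
    have hk := kill p ρ t₀ t₁ fun n => by
      rcases hall n with rfl | rfl | rfl | rfl
      · rw [hρ _ (by simp) (by simpa), upd_X' _ _ (by simp), upd_X, mul_div_cancel₀ _ (j0_X _)]
      · rw [hρ (b n) (by simpa using h.symm) (by simp), upd_X, div_mul_cancel₀ _ (j0_X _)]
      · rw [hρ _ (by simp) (by simpa), hρ _ (by simpa) (by simp), e1, u, map_mul]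
      · rw [hρ _ (by simp) (by simpa), hρ _ (by simpa) (by simp), e2, u, map_mul]
    refine (injective_iff_map_eq_zero _).2 fun q hq => ?_
    have e3 : ρ.comp (rename (Subtype.val : τ → V)) = j0.comp (rename Subtype.val) :=
      algHom_ext fun v => by simpa using hρ v v.2.1 v.2.2
    have := hk _ (Ideal.Quotient.eq_zero_iff_mem.1 (hψ (hq.trans (map_zero ψ).symm)))
    exact rename_injective _ Subtype.val_injective (j0_inj
      (((DFunLike.congr_fun e3 q).symm.trans this).trans (by simp)))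
  have ua : IsUnit (ψ (y p (a i))) := isUnit_of_mul_isUnit_left (map_mul ψ _ _ ▸ hu)
  have ub : IsUnit (ψ (y p (b j))) := isUnit_of_mul_isUnit_right (map_mul ψ _ _ ▸ hu)
  have ha : a i ≠ b i ∧ a i ≠ a j := by simpa
  have hb : b j ≠ b i ∧ b j ≠ a j := by simpa using h.symm
  have hv : ∀ v, ∃ q w, IsUnit (f w) ∧ ψ (y p v) * f w = f q := fun v => by
    have : ∀ n, ∃ q, ψ (y p (a n) * y p (b n)) = f q := fun n => by
      obtain ⟨c, c', e⟩ := cramer h0 h1 hkm n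
      refine ⟨c • (X ⟨a k, by simpa⟩ * X ⟨b k, by simpa⟩) +
        c' • (X ⟨a m, by simpa⟩ * X ⟨b m, by simpa⟩), ?_⟩
      rw [e]
      simp only [map_add, map_smul, map_mul, hf]
    by_cases e : v = b i
    · obtain ⟨q, hq⟩ := this i
      exact ⟨q, X ⟨a i, ha⟩, by rwa [hf], by rw [hf, ← hq, e, map_mul, mul_comm]⟩
    by_cases e' : v = a j
    · obtain ⟨q, hq⟩ := this j
      exact ⟨q, X ⟨b j, hb⟩, by rwa [hf], by rw [hf, ← hq, e', map_mul]⟩
    exact ⟨X ⟨v, e, e'⟩, 1, by simp, by simp [hf]⟩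
  have key : ∀ P : S K, ∃ q w, IsUnit (f w) ∧ ψ (mk p P) * f w = f q := fun P => by
    induction P using MvPolynomial.induction_on with
    | C c => exact ⟨C c, 1, by simp, by simp only [algHom_C, map_one, mul_one, AlgHom.commutes]⟩
    | add P Q hP hQ =>
      obtain ⟨q, w, a1, a2⟩ := hP
      obtain ⟨q', w', a1', a2'⟩ := hQ
      refine ⟨q * w' + q' * w, w * w', map_mul f _ _ ▸ a1.mul a1', ?_⟩
      simp only [map_add, map_mul, ← a2, ← a2']; ring
    | mul_X P v hP =>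
      obtain ⟨q, w, a1, a2⟩ := hP
      obtain ⟨q', w', a1', a2'⟩ := hv v
      refine ⟨q * q', w * w', map_mul f _ _ ▸ a1.mul a1', ?_⟩
      simp only [map_mul, ← a2, ← a2', y]; ring
  obtain ⟨n, r, e⟩ := hs t
  obtain ⟨P, rfl⟩ := Ideal.Quotient.mkₐ_surjective K _ r
  obtain ⟨q, w, a1, a2⟩ := key P
  refine ⟨q, (X ⟨a i, ha⟩ * X ⟨b j, hb⟩) ^ n * w, ?_, ?_⟩
  · simp only [map_mul, map_pow, hf]; exact ((ua.mul ub).pow n).mul a1
  · simp only [map_mul, map_pow, hf, ← a2, ← e]; ring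

end RP
end FMX
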