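import Pool.Agent.MP_0e6a9f_ag.H19.Can

/-! Statements of the algebraic steps. -/

open MulOpposite

noncomputable section
namespace FMD
open _root_.FMD.DGR _root_.FMD.Bimod

/-- `f ↦ φ f`. -/
def Bimod.rmulH {C C' : DGR} (V : Bimod C C') {I J : Type} [Fintype I] (φ : Matrix J I V.H)
    (L : Type) : Matrix I L C.B →+ Matrix J L V.H := AddMonoidHom.mk' (V.rmul φ) (V.rmul_add φ)

/-- `g ↦ g φ`. -/
def Bimod.lmulH {C C' : DGR} (V : Bimod C C') {I J : Type} [Fintype J] (φ : Matrix J I V.H)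
    (L : Type) : Matrix L J C'.B →+ Matrix L I V.H :=
  AddMonoidHom.mk' (V.lmul · φ) fun a b => V.add_lmul a b φ

section
variable {K : Type} [Field K] {A : DGR} [Algebra K A.B] [A.KL K]

/-- A Kodaira-Spencer datum: a non central bimodule `Q` over `Fr q` on which `κ` dies. -/
structure KS (q : Tw (env K A A)) (D : K → K) (κ : q.I → (Fr q).H) where
  Q : Bimod A A
  π : Q.H →+ (Fr q).H
  h : Q.H →+ (Fr q).H
  σ : K → (Fr q).H →+ Q.H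
  π_hom : IsHom Q (Fr q) π
  π_qis : Cx.Qis Q.cx (Fr q).cx π
  h_lin : IsLin Q (Fr q) h
  h_mem : ∀ n v, v ∈ Q.gr n → h v ∈ (Fr q).gr (n + 1)
  d_h : ∀ v, (Fr q).d (h v) = h (Q.d v) + lift q (Fr q) κ (π v)
  σ_lin : ∀ c, IsLin (Fr q) Q (σ c)
  σ_mem : ∀ c n v, v ∈ (Fr q).gr n → σ c v ∈ Q.gr (n + -1)
  π_σ : ∀ c v, π (σ c v) = 0
  h_σ : ∀ c v, h (σ c v) = D c • v
  d_σ : ∀ c v, Q.d (σ c (π v)) + σ c (π (Q.d v)) =
    algebraMap K A.B c • v + op (algebraMap K A.B c) • v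

/-- The split bimodule `Qa + Qb + Qw`. -/
abbrev n₀ (q : Tw (env K A A)) : Tw (env K A A) := nT q 0 (zero_mem _) (map_zero _)

/-- The derivation `p w ↦ p a` of the split gluing. -/
def theta (q : Tw (env K A A)) : (glue (Fr (n₀ q))).B →+ (glue (Fr (n₀ q))).B :=
  (glue.iN _).comp ((ia q 0 _ _).comp ((pw q 0 (zero_mem _) (map_zero _)).comp (glue.pN _)))

/-- The two functors out of `glue N` see the same scalars on every twisted complex. -/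
def SameScalars {n n' : Tw (env K A A)} {N : Bimod A A} {g : N.H →+ (Fr n).H}
    {g' : N.H →+ (Fr n').H} (h : IsHom N (Fr n) g) (h' : IsHom N (Fr n') g') : Prop :=
  ∀ (c : K) (X : Tw (glue N)), ∃ l ∈ (glue N).self.twGr X X 0, (glue N).self.twD X X l = 0 ∧
    ((glue (Fr n)).self.tw ((glue.mapF h).tw X) ((glue.mapF h).tw X)).Bd 0
      (l.map (glue.mapF h).f + c • ((glue.mapF h).tw X).idm) ∧
    ((glue (Fr n')).self.tw ((glue.mapF h').tw X) ((glue.mapF h').tw X)).Bd 0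
      (l.map (glue.mapF h').f + c • ((glue.mapF h').tw X).idm)

variable (K A) in
/-- What is needed from one factor; `p` is its modulus. -/
structure Pack (p : K) where
  R : Res K A
  neg : ∀ i, R.q.deg i ≤ 0
  low : ∀ i, -2 ≤ R.q.deg i
  k : R.q.I → (Fr R.q).H
  k_mem : k ∈ bhGr R.q (Fr R.q) 2
  lift : ∀ D : Derivation ℤ K K, Nonempty (Lift D R.q (D p • k))
  H : (R.q.I → A.B) →ₗ[K] (R.q.I → A.B)
  H_mem : ∀ n, ∀ m ∈ bhGr R.q A.self n, H m ∈ bhGr R.q A.self (n - 1)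
  H_one : ∀ m ∈ bhGr R.q A.self 1, bhD R.q A.self (H m) + H (bhD R.q A.self m) = m
  H_zero : ∀ m ∈ bhGr R.q A.self 0, ∃ c : K, m + H (bhD R.q A.self m) = c • R.a
  χ : (R.q.I → A.B) →ₗ[K] K
  χ_d : ∀ m ∈ bhGr R.q A.self 1, χ (bhD R.q A.self m) = 0
  χ_k : χ (fun i => R.aug (k i)) = 1

variable (K A) in
/-- What is needed from the product. -/
structure Base where
  R : Res K A
  neg : ∀ i, R.q.deg i ≤ 0
  h0 : ∀ m ∈ bhGr R.q A.self 0, bhD R.q A.self m = 0 → ∃ c : K, m = c • R.a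
  h3 : (BH R.q A.self).AcycAt 3
  D : K → K
  D' : K → K
  κ : R.q.I → (Fr R.q).H
  κ' : R.q.I → (Fr R.q).H
  κ_mem : κ ∈ bhGr R.q (Fr R.q) 2
  κ'_mem : κ' ∈ bhGr R.q (Fr R.q) 2
  κ_d : bhD R.q (Fr R.q) κ = 0
  κ'_d : bhD R.q (Fr R.q) κ' = 0
  S : KS R.q D κ
  T : KS R.q D' κ'
  nb : ¬ (BH R.q A.self).Bd 4 fun i => R.aug (lift R.q (Fr R.q) κ' (κ i))

end

/-- No central bimodule `V` identifies `C₁` with an endomorphism algebra over `C₀` and is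
faithful on `x` in degree `-3`. -/
def NoV (K : Type) [Field K] (C₀ C₁ : DGR) [Algebra K C₀.B] [Algebra K C₁.B] (x : Tw C₀) : Prop :=
  ∀ (V : Bimod C₀ C₁) [Module K V.H] [IsScalarTower K C₁.B V.H] [IsScalarTower K C₀.Bᵐᵒᵖ V.H],
    V.Honest → ∀ (X₀ : Tw C₀), ∀ φ₀ ∈ V.twGr X₀ (Tw.tot C₁) 0, V.twD X₀ (Tw.tot C₁) φ₀ = 0 →
    Cx.Qis (C₀.self.tw (Tw.tot C₀) X₀) (V.tw (Tw.tot C₀) (Tw.tot C₁)) (V.rmulH φ₀ C₀.O) →
    Cx.Qis (C₁.self.tw (Tw.tot C₁) (Tw.tot C₁)) (V.tw X₀ (Tw.tot C₁)) (V.lmulH φ₀ C₁.O) →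
    ∀ (Z : Tw C₁), ∀ φ ∈ V.twGr x Z 0, V.twD x Z φ = 0 →
    ¬ Cx.InjAt (C₀.self.tw x x) (V.tw x Z) (V.rmulH φ x.I) (-3)

/-- The output of the algebra. -/
def Out (K : Type) [Field K] (A : DGR) [Algebra K A.B] [A.KL K] : Prop :=
  ∃ (n n' : Tw (env K A A)) (N : Bimod A A) (g : N.H →+ (Fr n).H) (g' : N.H →+ (Fr n').H)
    (h : IsHom N (Fr n) g) (h' : IsHom N (Fr n') g'),
    2 ≤ Fintype.card n.I ∧ 2 ≤ Fintype.card n'.I ∧ Cx.Qis N.cx (Fr n).cx g ∧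
    Cx.Qis N.cx (Fr n').cx g' ∧ SameScalars h h' ∧
    ∃ x : Tw (glue N), NoV K (glue (Fr n)) (glue (Fr n')) ((glue.mapF h).tw x)

/-- Row FIELD. -/
def FieldStmt : Prop := ∃ (K : Type) (_ : Field K) (_ : CharP K 2) (s t : K)
  (D D' : Derivation ℤ K K), D s = 1 ∧ D t = 0 ∧ D' s = 0 ∧ D' t = 1

/-- Row CP. -/
def CpStmt : Prop := ∀ (K : Type) [Field K] [CharP K 2] (p : K), p ≠ 0 → p ≠ 1 →
  Nonempty (Pack K (Cp p) p)

/-- Row KS. -/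
def KsStmt : Prop := ∀ (K : Type) [Field K] (A : DGR) [Algebra K A.B] [A.KL K], Deg0 A →
  ∀ (D : Derivation ℤ K K) (q : Tw (env K A A)), ∀ κ ∈ bhGr q (Fr q) 2, Lift D q κ →
    bhD q (Fr q) κ = 0 ∧ Nonempty (KS q D κ)

/-- Row KUN1. -/
def Kun1Stmt : Prop := ∀ (K : Type) [Field K] (A A' : DGR) [Algebra K A.B] [A.KL K]
  [Algebra K A'.B] [A'.KL K], Deg0 A → Deg0 A' → ∀ (R : Res K A) (R' : Res K A'),
    boxA R.a R'.a ∈ bhGr (boxT R.q R'.q) (tens K A A').self 0 ∧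
    bhD (boxT R.q R'.q) (tens K A A').self (boxA R.a R'.a) = 0 ∧
    Cx.Qis (Fr (boxT R.q R'.q)).cx (tens K A A').self.cx
      (lift (boxT R.q R'.q) (tens K A A').self (boxA R.a R'.a))

/-- Row KUN2. -/
def Kun2Stmt : Prop := ∀ (K : Type) [Field K] (A A' : DGR) [Algebra K A.B] [A.KL K]
  [Algebra K A'.B] [A'.KL K] (D : Derivation ℤ K K) (q : Tw (env K A A)) (q' : Tw (env K A' A')),
    ∀ κ ∈ bhGr q (Fr q) 2, ∀ κ' ∈ bhGr q' (Fr q') 2, Lift D q κ → Lift D q' κ' →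
    boxK κ κ' ∈ bhGr (boxT q q') (Fr (boxT q q')) 2 ∧ Nonempty (Lift D (boxT q q') (boxK κ κ'))

/-- Row KUN3. -/
def Kun3Stmt : Prop := ∀ (K : Type) [Field K] (A A' : DGR) [Algebra K A.B] [A.KL K]
  [Algebra K A'.B] [A'.KL K], Deg0 A → Deg0 A' → ∀ (p p' : K) (P : Pack K A p) (P' : Pack K A' p'),
    (∀ m ∈ bhGr (boxT P.R.q P'.R.q) (tens K A A').self 0,
      bhD (boxT P.R.q P'.R.q) (tens K A A').self m = 0 → ∃ c : K, m = c • boxA P.R.a P'.R.a) ∧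
    (BH (boxT P.R.q P'.R.q) (tens K A A').self).AcycAt 3 ∧
    ¬ (BH (boxT P.R.q P'.R.q) (tens K A A').self).Bd 4 fun i =>
      lift _ (tens K A A').self (boxA P.R.a P'.R.a)
        (lift _ (Fr (boxT P.R.q P'.R.q)) (boxK 0 P'.k) (boxK P.k 0 i))

/-- Row ZIG. -/
def ZigStmt : Prop := ∀ (K : Type) [Field K] (A : DGR) [Algebra K A.B] [A.KL K]
  (q : Tw (env K A A)) (D D' : K → K) (κ κ' : q.I → (Fr q).H), κ' ∈ bhGr q (Fr q) 2 →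
    bhD q (Fr q) κ' = 0 → KS q D κ → KS q D' κ' →
    ∀ (hη : (fun i => lift q (Fr q) κ' (κ i)) ∈ bhGr q (Fr q) 4)
      (hd : bhD q (Fr q) (fun i => lift q (Fr q) κ' (κ i)) = 0),
    ∃ (N : Bimod A A) (g : N.H →+ (Fr (n₀ q)).H) (g' : N.H →+ (Fr (nT q _ hη hd)).H)
      (h : IsHom N _ g) (h' : IsHom N _ g'), Cx.Qis N.cx (Fr _).cx g ∧ Cx.Qis N.cx (Fr _).cx g' ∧
      SameScalars h h' ∧ ∃ j : (Fr q).H →+ N.H, IsHom (Fr q) (N.shift 4) j ∧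
        ∀ v, g (j v) = iw q 0 _ _ v

/-- Row S3. -/
def S3Stmt : Prop := ∀ (K : Type) [Field K] [CharP K 2] (A : DGR) [Algebra K A.B] [A.KL K],
  Deg0 A →
  ∀ (R : Res K A) (n : Tw (env K A A)), ∃ P : Res K (glue (Fr n)), ∀ m : ℤ,
    (∀ i, m + R.q.deg i ≠ 0) → (BH n (Fr n)).AcycAt (m - 1) →
    (BH P.q (glue (Fr n)).self).AcycAt m

/-- Row HH4. -/
def Hh4Stmt : Prop := ∀ (K : Type) [Field K] (A : DGR) [Algebra K A.B] [A.KL K], Deg0 A →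
  ∀ (R : Res K A), (∀ i, R.q.deg i ≤ 0) →
    (∀ m ∈ bhGr R.q A.self 0, bhD R.q A.self m = 0 → ∃ c : K, m = c • R.a) →
    (BH R.q A.self).AcycAt 3 → ∀ η hη hd, ¬ (BH R.q A.self).Bd 4 (fun i => R.aug (η i)) →
    (BH (nT R.q η hη hd) (Fr (nT R.q η hη hd))).AcycAt (-4)

/-- Row DER. -/
def DerStmt : Prop := ∀ (K : Type) [Field K] (C : DGR) [Algebra K C.B] [C.KL K] (R : Res K C)
  (m : ℤ) (θ : C.B →+ C.B), IsDer C.self (m - 1) θ → (∀ b, C.d (θ b) = θ (C.d b)) →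
    (∀ (c : K) b, θ (c • b) = c • θ b) →
    ∃ ξ ∈ bhGr R.q C.self m, bhD R.q C.self ξ = 0 ∧ ∀ (X : Tw C), ∀ p ∈ (Fr R.q).twGr X X 0,
      (Fr R.q).twD X X p = 0 → (C.self.tw X X).Bd 0 (p.map R.aug + X.idm) →
      (C.self.tw X X).Bd m (p.map (lift R.q C.self ξ) + X.δ.map θ)

/-- Row NF. -/
def NfStmt : Prop := ∀ (K : Type) [Field K] [CharP K 2] (C₀ C₁ : DGR) [Algebra K C₀.B] [C₀.KL K]
  [Algebra K C₁.B] [C₁.KL K] (R₀ : Res K C₀) (R₁ : Res K C₁) (m : ℤ), C₀.self.Honest →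
    (BH R₁.q C₁.self).AcycAt m → ∀ ξ ∈ bhGr R₀.q C₀.self m, bhD R₀.q C₀.self ξ = 0 →
    ∀ (V : Bimod C₀ C₁) [Module K V.H] [IsScalarTower K C₁.B V.H] [IsScalarTower K C₀.Bᵐᵒᵖ V.H],
    V.Honest → ∀ (X₀ : Tw C₀), ∀ φ₀ ∈ V.twGr X₀ (Tw.tot C₁) 0, V.twD X₀ (Tw.tot C₁) φ₀ = 0 →
    Cx.Qis (C₀.self.tw (Tw.tot C₀) X₀) (V.tw (Tw.tot C₀) (Tw.tot C₁)) (V.rmulH φ₀ C₀.O) →
    Cx.Qis (C₁.self.tw (Tw.tot C₁) (Tw.tot C₁)) (V.tw X₀ (Tw.tot C₁)) (V.lmulH φ₀ C₁.O) →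
    ∀ (X : Tw C₀) (Z : Tw C₁), ∀ φ ∈ V.twGr X Z 0, V.twD X Z φ = 0 →
    ∀ p ∈ (Fr R₀.q).twGr X X 0, (Fr R₀.q).twD X X p = 0 →
    (V.tw X Z).Bd m (V.rmul φ (p.map (lift R₀.q C₀.self ξ)))

/-- Row BASE. -/
def BaseStmt : Prop := ∀ (K : Type) [Field K] [CharP K 2] (s t : K) (D D' : Derivation ℤ K K),
  D s = 1 → D t = 0 → D' s = 0 → D' t = 1 → Nonempty (Base K (tens K (Cp s) (Cp t)))

/-- Row ALG. -/
def AlgStmt : Prop := ∀ (K : Type) [Field K] [CharP K 2] (A : DGR) [Algebra K A.B] [A.KL K],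
  Deg0 A →
  (∃ o, A.e o ≠ 0) → Base K A → Out K A

/-- The objects are exceptional and ordered by `ht`. -/
structure Directed (K : Type) [Field K] (C : DGR) [Algebra K C.B] (ht : C.O → ℕ) : Prop where
  self : ∀ o n, ∀ b ∈ C.self.cor o o n, (n ≠ 0 → b = 0) ∧ ∃ c : K, b = c • C.e o
  down : ∀ o o', o ≠ o' → ht o' ≤ ht o → ∀ n, ∀ b ∈ C.self.cor o o' n, b = 0

/-- Row DIR. -/
def DirStmt : Prop := ∀ (K : Type) [Field K] [CharP K 2] (s t : K)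
  (n : Tw (env K (tens K (Cp s) (Cp t)) (tens K (Cp s) (Cp t)))),
    ∃ ht, Directed K (glue (Fr n)) ht

end FMD
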