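import Pool.Agent.MP_0e6a9f_ag.H19.Env

/-! Operations on twisted complexes: identity, shift, extension, cone, image under a DG functor;
restriction of bimodules; characteristic morphism of a derivation. -/

open MulOpposite

noncomputable section
namespace FMD

variable {C C' D D' : DGR}

namespace Tw

/-- The identity matrix of a twisted complex. -/
def idm (x : Tw C) : Matrix x.I x.I C.B := Matrix.diagonal fun i => C.e (x.ob i)

lemma idm_mem (x : Tw C) : x.idm ∈ C.self.twGr x x 0 := fun i j => by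
  by_cases h : i = j
  · subst h
    rw [idm, Matrix.diagonal_apply_eq]
    exact Bimod.cor_cast (C.e_mem_cor _) (by ring)
  · rw [idm, Matrix.diagonal_apply_ne _ h]; exact zero_mem _

lemma _root_.FMD.Bimod.lmul_idm (H : Bimod C C') {x : Tw C} {y : Tw C'} {n : ℤ}
    {h : Matrix y.I x.I H.H} (hh : h ∈ H.twGr x y n) : H.lmul y.idm h = h := by
  ext i j
  simp only [Bimod.lmul, idm, Matrix.diagonal_apply, ite_smul, zero_smul, Finset.sum_ite_eq,
    Finset.mem_univ, if_true]
  exact Bimod.cor_l (hh i j)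

lemma _root_.FMD.Bimod.rmul_idm (H : Bimod C C') {x : Tw C} {y : Tw C'} {n : ℤ}
    {h : Matrix y.I x.I H.H} (hh : h ∈ H.twGr x y n) : H.rmul h x.idm = h := by
  ext i j
  simp only [Bimod.rmul, idm, Matrix.diagonal_apply, apply_ite op, op_zero, ite_smul, zero_smul,
    Finset.sum_ite_eq', Finset.mem_univ, if_true]
  exact Bimod.cor_r (hh i j)

lemma idm_mul {x y : Tw C} {n : ℤ} {h : Matrix y.I x.I C.B} (hh : h ∈ C.self.twGr x y n) :
    y.idm * h = h := (Bimod.self_lmul _ _).symm.trans (C.self.lmul_idm hh)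

lemma mul_idm {x y : Tw C} {n : ℤ} {h : Matrix y.I x.I C.B} (hh : h ∈ C.self.twGr x y n) :
    h * x.idm = h := (Bimod.self_rmul _ _).symm.trans (C.self.rmul_idm hh)

lemma twD_idm (x : Tw C) : C.self.twD x x x.idm = 0 := by
  have h : x.idm.map C.d = 0 := by
    ext i j
    by_cases h : i = j <;> simp [idm, h, C.d_e]
  rw [Bimod.self_twD, h, zero_add, mul_idm x.δ_twGr, idm_mul x.δ_twGr, C.self.mat_two]

lemma mul_mem {x y z : Tw C} {m n : ℤ} {g : Matrix z.I y.I C.B} {f : Matrix y.I x.I C.B}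
    (hg : g ∈ C.self.twGr y z m) (hf : f ∈ C.self.twGr x y n) :
    g * f ∈ C.self.twGr x z (m + n) := Bimod.self_lmul g f ▸ C.self.lmul_mem hg hf

lemma twD_mul {x y z : Tw C} (g : Matrix z.I y.I C.B) (f : Matrix y.I x.I C.B) :
    C.self.twD x z (g * f) = C.self.twD y z g * f + g * C.self.twD x y f := by
  rw [← Bimod.self_lmul, Bimod.twD_lmul, Bimod.self_lmul, Bimod.self_lmul]

/-- A family of shifted objects with no twisting. -/
@[reducible] def free (C : DGR) (I : Type) [Fintype I] [DecidableEq I] (ob : I → C.O)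
    (deg : I → ℤ) : Tw C where
  I := I
  ob := ob
  deg := deg
  ht _ := 0
  δ := 0
  δ_mem _ _ := zero_mem _
  δ_ht _ _ _ := rfl
  mc := by ext i j; simp

/-- One object. -/
@[reducible] def one (a : C.O) : Tw C := free C Unit (fun _ => a) fun _ => 0

/-- The sum of all objects. -/
@[reducible] def tot (C : DGR) : Tw C := free C C.O id fun _ => 0

/-- The zero object. -/
@[reducible] def nil (C : DGR) : Tw C := free C Empty Empty.elim Empty.elim

/-- The shift `x[k]`. -/
@[reducible] def shift (x : Tw C) (k : ℤ) : Tw C where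
  I := x.I
  ob := x.ob
  deg i := x.deg i + k
  ht := x.ht
  δ := x.δ
  δ_mem i j := Bimod.cor_cast (x.δ_mem i j) (by ring)
  δ_ht := x.δ_ht
  mc := x.mc

lemma mem_shift (H : Bimod C C') {x : Tw C} {y : Tw C'} {k l m n : ℤ} {h : Matrix y.I x.I H.H}
    (e : m + l = n + k) : h ∈ H.twGr (x.shift k) (y.shift l) m ↔ h ∈ H.twGr x y n :=
  ⟨fun hh i j => Bimod.cor_cast (hh i j) (by dsimp only; omega),
    fun hh i j => Bimod.cor_cast (hh i j) (by dsimp only; omega)⟩

lemma mem_shift_l (H : Bimod C C') {x : Tw C} {y : Tw C'} {k m n : ℤ} {h : Matrix y.I x.I H.H}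
    (e : m = n + k) : h ∈ H.twGr (x.shift k) y m ↔ h ∈ H.twGr x y n :=
  ⟨fun hh i j => Bimod.cor_cast (hh i j) (by dsimp only; omega),
    fun hh i j => Bimod.cor_cast (hh i j) (by dsimp only; omega)⟩

lemma mem_shift_r (H : Bimod C C') {x : Tw C} {y : Tw C'} {l m n : ℤ} {h : Matrix y.I x.I H.H}
    (e : m + l = n) : h ∈ H.twGr x (y.shift l) m ↔ h ∈ H.twGr x y n :=
  ⟨fun hh i j => Bimod.cor_cast (hh i j) (by dsimp only; omega),
    fun hh i j => Bimod.cor_cast (hh i j) (by dsimp only; omega)⟩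

/-- The extension along a closed map `f : x → y` of degree 1. -/
@[reducible] def ext (x y : Tw C) (f : Matrix y.I x.I C.B) (hf : f ∈ C.self.twGr x y 1)
    (hd : C.self.twD x y f = 0) : Tw C where
  I := x.I ⊕ y.I
  ob := Sum.elim x.ob y.ob
  deg := Sum.elim x.deg y.deg
  ht := Sum.elim x.ht fun i => y.ht i + (Finset.univ.sup x.ht + 1)
  δ := Matrix.fromBlocks x.δ 0 f y.δ
  δ_mem := by
    rintro (i | i) (j | j)
    exacts [x.δ_mem i j, zero_mem _, hf i j, y.δ_mem i j]
  δ_ht := by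
    rintro (i | i) (j | j) h
    · exact x.δ_ht i j h
    · rfl
    · have := Finset.le_sup (f := x.ht) (Finset.mem_univ j)
      exact absurd (show x.ht j < y.ht i + (Finset.univ.sup x.ht + 1) by omega) h
    · exact y.δ_ht i j fun h' => h (Nat.add_lt_add_right h' _)
  mc := by
    rw [Bimod.self_twD, add_assoc] at hd
    rw [Matrix.fromBlocks_map, Matrix.fromBlocks_multiply, x.mc, y.mc,
      (C.self.tw x y).eq_of_add hd, Matrix.map_zero _ (map_zero _)]
    simp [add_comm]

/-- The direct sum. -/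
@[reducible] def sum (x y : Tw C) : Tw C := ext x y 0 (zero_mem _) (map_zero _)

/-- The cone of a closed map of degree 0. -/
@[reducible] def cone {x y : Tw C} (f : Matrix y.I x.I C.B) (hf : f ∈ C.self.twGr x y 0)
    (hd : C.self.twD x y f = 0) : Tw C :=
  ext (x.shift 1) y f ((mem_shift_l _ (zero_add 1).symm).2 hf) hd

end Tw

/-- A DG functor, injective on objects. -/
structure DFun (C D : DGR) where
  f : C.B →ₙ+* D.B
  ob : C.O → D.O
  map_e : ∀ a, f (C.e a) = D.e (ob a)
  mem : ∀ {n b}, b ∈ C.gr n → f b ∈ D.gr n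
  comm : ∀ b, D.d (f b) = f (C.d b)

namespace DFun
variable (φ : DFun C D)

lemma mem_cor {a b : C.O} {n : ℤ} {x : C.B} (h : x ∈ C.self.cor a b n) :
    φ.f x ∈ D.self.cor (φ.ob a) (φ.ob b) n := by
  rw [DGR.mem_self_cor] at h ⊢
  exact ⟨φ.mem h.1, by rw [← φ.map_e, ← map_mul, h.2.1], by rw [← φ.map_e, ← map_mul, h.2.2]⟩

lemma map_mul' {I J L : Type} [Fintype J] (g : Matrix L J C.B) (f : Matrix J I C.B) :
    (g * f).map φ.f = g.map φ.f * f.map φ.f := by
  ext i j; simp [Matrix.mul_apply, map_sum]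

/-- The image of a twisted complex. -/
@[reducible] def tw (x : Tw C) : Tw D where
  I := x.I
  ob i := φ.ob (x.ob i)
  deg := x.deg
  ht := x.ht
  δ := x.δ.map φ.f
  δ_mem i j := φ.mem_cor (x.δ_mem i j)
  δ_ht i j h := by rw [Matrix.map_apply, x.δ_ht i j h, map_zero]
  mc := by
    rw [← map_mul', ← x.mc]
    ext i j; exact φ.comm _

lemma map_mem {x y : Tw C} {n : ℤ} {g : Matrix y.I x.I C.B} (hg : g ∈ C.self.twGr x y n) :
    g.map φ.f ∈ D.self.twGr (φ.tw x) (φ.tw y) n := fun i j => φ.mem_cor (hg i j)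

lemma twD_map (x y : Tw C) (g : Matrix y.I x.I C.B) :
    D.self.twD (φ.tw x) (φ.tw y) (g.map φ.f) = (C.self.twD x y g).map φ.f := by
  rw [Bimod.self_twD, Bimod.self_twD, Matrix.map_add _ (map_add φ.f),
    Matrix.map_add _ (map_add φ.f), map_mul', map_mul']
  congr 2
  ext i j; exact φ.comm _

lemma map_idm (x : Tw C) : x.idm.map φ.f = (φ.tw x).idm := by
  ext i j
  by_cases h : i = j <;> simp [Tw.idm, h, φ.map_e]

/-- The map on complexes of morphisms. -/
def twMap (I J : Type) : Matrix I J C.B →+ Matrix I J D.B :=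
  (φ.f : C.B →+ D.B).mapMatrix

lemma twMap_apply {I J : Type} (g : Matrix I J C.B) : φ.twMap I J g = g.map φ.f := rfl

lemma tw_isMap (x y : Tw C) :
    Cx.IsMap (C.self.tw x y) (D.self.tw (φ.tw x) (φ.tw y)) (φ.twMap y.I x.I) :=
  ⟨φ.map_mem, fun _ => φ.twD_map x y _⟩

end DFun

/-- A unital ring map that keeps degrees and differentials. -/
structure DHom (C D : DGR) where
  f : C.B →+* D.B
  mem : ∀ {n b}, b ∈ C.gr n → f b ∈ D.gr n
  comm : ∀ b, D.d (f b) = f (C.d b)

/-- The identity. -/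
def DHom.id (C : DGR) : DHom C C := ⟨RingHom.id _, fun h => h, fun _ => rfl⟩

/-- The composite. -/
def DHom.comp {E : DGR} (ψ : DHom D E) (φ : DHom C D) : DHom C E :=
  ⟨ψ.f.comp φ.f, fun h => ψ.mem (φ.mem h), fun b => (ψ.comm _).trans (congrArg ψ.f (φ.comm b))⟩

/-- A unital ring map that sends objects to objects is a DG functor. -/
@[reducible] def DHom.toFun (φ : DHom C D) (ob : C.O → D.O) (h : ∀ a, φ.f (C.e a) = D.e (ob a)) :
    DFun C D := ⟨φ.f.toNonUnitalRingHom, ob, h, φ.mem, φ.comm⟩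

namespace Bimod

/-- Restriction of a bimodule along unital maps. -/
def res (φ : DHom C D) (φ' : DHom C' D') (M : Bimod D D') : Bimod C C' :=
  letI : Module C'.B M.H := Module.compHom M.H φ'.f
  letI : Module C.Bᵐᵒᵖ M.H := Module.compHom M.H (RingHom.op φ.f)
  { H := M.H
    comm := ⟨fun a b m => smul_comm (φ'.f a) (op (φ.f b.unop)) m⟩
    gr := M.gr
    d := M.d
    d_mem := M.d_mem
    d_d := M.d_d
    l_mem := fun hb hh => M.l_mem (φ'.mem hb) hh
    r_mem := fun hb hh => M.r_mem (φ.mem hb) hh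
    d_l := fun b h => (M.d_l (φ'.f b) h).trans (by rw [φ'.comm]; rfl)
    d_r := fun b h => (M.d_r (φ.f b) h).trans (by rw [φ.comm]; rfl) }

variable {φ : DHom C D} {φ' : DHom C' D'} {M M' : Bimod D D'}

lemma IsLin.res {f : M.H →+ M'.H} (hf : IsLin M M' f) : IsLin (res φ φ' M) (res φ φ' M') f :=
  ⟨fun b h => hf.l (φ'.f b) h, fun b h => hf.r (φ.f b) h⟩

lemma IsHom.res {f : M.H →+ M'.H} (hf : IsHom M M' f) : IsHom (res φ φ' M) (res φ φ' M') f :=
  ⟨hf.mem, hf.comm, fun b h => hf.l (φ'.f b) h, fun b h => hf.r (φ.f b) h⟩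

lemma IsLin.map_lmul {H H' : Bimod C C'} {f : H.H →+ H'.H} (hf : IsLin H H' f) {I J L : Type}
    [Fintype J] (g : Matrix L J C'.B) (h : Matrix J I H.H) :
    (H.lmul g h).map f = H'.lmul g (h.map f) := by
  ext i j; simp [lmul, hf.l]

lemma IsLin.map_rmul {H H' : Bimod C C'} {f : H.H →+ H'.H} (hf : IsLin H H' f) {I J L : Type}
    [Fintype I] (h : Matrix J I H.H) (g : Matrix I L C.B) :
    (H.rmul h g).map f = H'.rmul (h.map f) g := by
  ext i j; simp [rmul, hf.r]

/-- The twisted differential of the image under a bimodule map `f` with `[d, f] = g`. -/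
lemma IsLin.twD {H H' : Bimod C C'} {f g : H.H →+ H'.H} (hf : IsLin H H' f)
    (h : ∀ v, H'.d (f v) = f (H.d v) + g v) (x : Tw C) (y : Tw C') (v : Matrix y.I x.I H.H) :
    H'.twD x y (v.map f) = (H.twD x y v).map f + v.map g := by
  rw [twD_apply, twD_apply, Matrix.map_add _ f.map_add, Matrix.map_add _ f.map_add, hf.map_lmul,
    hf.map_rmul, show (v.map f).map H'.d = (v.map H.d).map f + v.map g from
      Matrix.ext fun i j => h _]
  abel

lemma IsLin.map_mem {H H' : Bimod C C'} {f : H.H →+ H'.H} (hf : IsLin H H' f) {k : ℤ}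
    (hk : ∀ n v, v ∈ H.gr n → f v ∈ H'.gr (n + k)) {x : Tw C} {y : Tw C'} {n : ℤ}
    {v : Matrix y.I x.I H.H} (hv : v ∈ H.twGr x y n) : v.map f ∈ H'.twGr x y (n + k) :=
  fun i j => hf.mem_cor (hv i j) (H'.mem_cast (hk _ _ (hv i j).1) (by ring))

/-- A derivation of degree `k` with values in a bimodule that kills the idempotents. -/
structure IsDer (M : Bimod C C) (k : ℤ) (s : C.B →+ M.H) : Prop where
  mem : ∀ {n b}, b ∈ C.gr n → s b ∈ M.gr (n + k)
  mul : ∀ a b, s (a * b) = op b • s a + a • s b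
  e : ∀ a, s (C.e a) = 0

variable {N : Bimod C C} {k : ℤ} {s : C.B →+ N.H}

lemma IsDer.map_mem (hs : IsDer N k s) {x y : Tw C} {n : ℤ} {g : Matrix y.I x.I C.B}
    (hg : g ∈ C.self.twGr x y n) : g.map s ∈ N.twGr x y (n + k) := fun i j => by
  obtain ⟨h0, h1, h2⟩ := C.mem_self_cor.1 (hg i j)
  refine N.mem_cor (N.mem_cast (hs.mem h0) (by ring)) ?_ ?_
  · have := hs.mul (C.e (y.ob i)) (g i j)
    rw [h1, hs.e, smul_zero, zero_add] at this
    exact this.symm
  · have := hs.mul (g i j) (C.e (x.ob j))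
    rw [h2, hs.e, smul_zero, add_zero] at this
    exact this.symm

lemma IsDer.map_mul (hs : IsDer N k s) {I J L : Type} [Fintype J] (g : Matrix L J C.B)
    (f : Matrix J I C.B) : (g * f).map s = N.rmul (g.map s) f + N.lmul g (f.map s) := by
  ext i j; simp [Matrix.mul_apply, map_sum, hs.mul, rmul, lmul, Finset.sum_add_distrib]

/-- The twisted differential of `s δ` is `[d, s] δ`. -/
lemma IsDer.twD_δ (hs : IsDer N k s) (x : Tw C) :
    N.twD x x (x.δ.map s) = x.δ.map fun b => N.d (s b) + s (C.d b) := by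
  rw [twD_apply, add_assoc, add_comm (N.lmul _ _), ← hs.map_mul, ← x.mc]
  rfl

end Bimod
end FMD
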